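import Pool.Agent.Lib.MP_02ae3d_ag.Sm

set_option autoImplicit false
set_option linter.unusedSectionVars false
set_option maxHeartbeats 400000

namespace Pool.Agent.Lib.MP_02ae3d_ag
open Module LinearMap Submodule Finset

variable {k : Type} [Field k] {V : Type} [AddCommGroup V] [Module k V] [FiniteDimensional k V]

/-- the endomorphism of a module over `k[l]` spanned by a linear map -/
def blk (l : End k V) (b : ℕ) (Θ : End k V) : End k V :=
  ∑ j ∈ range (b + 1), l ^ j * Θ * l ^ (b - j)

variable {l X Θ : End k V} {b : ℕ}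

theorem blk_comm (h : l ^ (b + 1) * Θ = 0) (h' : Θ * l ^ (b + 1) = 0) : Commute l (blk l b Θ) := by
  have := sum_range_sub (fun j => l ^ j * Θ * l ^ (b + 1 - j)) (b + 1)
  rw [h, pow_zero, one_mul, tsub_zero, h', zero_mul, sub_zero] at this
  rw [commute_iff_eq, ← sub_eq_zero, ← this, blk, mul_sum, sum_mul, ← sum_sub_distrib]
  refine sum_congr rfl fun j hj => ?_
  rw [Nat.add_sub_add_right, Nat.sub_add_comm (Nat.lt_succ_iff.1 (mem_range.1 hj)), pow_succ' l j,
    pow_succ l (b - j)]
  simp only [mul_assoc]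

theorem mul_blk (h : X * l = 0) : X * blk l b Θ = X * Θ * l ^ b := by
  simp [blk, sum_range_succ', mul_add, mul_sum, pow_succ', ← mul_assoc, h]

theorem blk_mul (h : l * X = 0) : blk l b Θ * X = l ^ b * Θ * X := by
  rw [blk, sum_range_succ, add_mul, sum_mul, sum_eq_zero fun j hj => ?_]
  · simp
  · rw [← Nat.succ_pred_eq_of_pos (Nat.sub_pos_of_lt (mem_range.1 hj)), pow_succ]
    simp [mul_assoc, h]

theorem trace_blk : trace k V (blk l b Θ) = (b + 1 : ℕ) * trace k V (Θ * l ^ b) := by
  rw [blk, map_sum, sum_congr rfl (g := fun _ => trace k V (Θ * l ^ b)) fun j hj => ?_]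
  · simp
  · rw [mul_assoc, trace_mul_comm, mul_assoc, ← pow_add,
      Nat.sub_add_cancel (Nat.lt_succ_iff.1 (mem_range.1 hj))]

theorem trace_one (ξ : Dual k V) (e : V) :
    trace k V (blk l b (ξ.smulRight e)) = (b + 1 : ℕ) * ξ ((l ^ b) e) := by
  rw [trace_blk]
  exact congrArg _ (trace_smulRight (ξ ∘ₗ (l ^ b)) e)

theorem blk_mem (m : V) : blk l b Θ m - Θ ((l ^ b) m) ∈ LinearMap.range l := by
  simp only [blk, sum_range_succ', pow_succ', LinearMap.add_apply, pow_zero, one_mul, tsub_zero,
    End.mul_apply, add_sub_cancel_right, LinearMap.sum_apply]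
  exact sum_mem fun j _ => mem_range_self _ _

/-- the subspaces attached to a word -/
def Wd (l X : End k V) (B : Submodule k V) : List ℕ → Submodule k V
  | [] => B
  | b :: u => map X (comap (l ^ b) (Wd l X B u))

theorem Wd.mono {B C : Submodule k V} (h : B ≤ C) (u : List ℕ) : Wd l X B u ≤ Wd l X C u := by
  induction u with
  | nil => exact h
  | cons b u ih => exact map_mono (comap_mono ih)

variable (h1 : X * l = 0) (h2 : l * X = 0)
include h2

theorem Wd.le (u : List ℕ) : Wd l X (ker l) u ≤ ker l := by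
  cases u with
  | nil => exact le_rfl
  | cons b u => exact map_le_range.trans (range_le_ker_iff.2 h2)

theorem Wd.chain (u u' : List ℕ) (h : u ≠ u') : Wd l X (ker l) u ≤ Wd l X (LinearMap.range X) u' ∨
    Wd l X (ker l) u' ≤ Wd l X (LinearMap.range X) u := by
  have key : ∀ b b' u u', b < b' → Wd l X (ker l) (b :: u) ≤ Wd l X (LinearMap.range X) (b' :: u') :=
    fun b b' u u' hb => map_mono fun v hv => by
      obtain ⟨c, rfl⟩ := Nat.exists_eq_add_of_lt hb
      rw [mem_comap, add_assoc, add_comm b, pow_add, pow_succ, End.mul_apply, End.mul_apply,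
        mem_ker.1 (Wd.le h2 u hv), map_zero]
      exact zero_mem _
  induction u generalizing u' with
  | nil =>
    cases u' with
    | nil => exact absurd rfl h
    | cons b u => exact .inr map_le_range
  | cons b u ih =>
    cases u' with
    | nil => exact .inl map_le_range
    | cons b' u' =>
      rcases lt_trichotomy b b' with a | rfl | a
      · exact .inl (key _ _ _ _ a)
      · exact (ih u' fun e => h (e ▸ rfl)).imp (fun a => map_mono (comap_mono a))
          fun a => map_mono (comap_mono a)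
      · exact .inr (key _ _ _ _ a)

include h1

theorem Wd.endo (u : List ℕ) : ∀ v ∈ Wd l X (ker l) u, ∀ ξ : Dual k V,
    Wd l X (LinearMap.range X) u ≤ ker ξ → ∃ (E : End k V) (N : ℕ), Commute l E ∧
      X * E - E * X = (ξ ∘ₗ X).smulRight v ∧ trace k V E = N * ξ v ∧
      ∀ m, X m = 0 → E m ∈ LinearMap.range l := by
  induction u with
  | nil =>
    refine fun v _ ξ h => ⟨0, 0, .zero_right _, ?_, by simp, by simp⟩
    rw [range_le_ker_iff.1 h]
    simp
  | cons b u ih =>
    rintro _ ⟨e, he, rfl⟩ ξ h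
    obtain ⟨η, hη⟩ : ξ ∘ₗ X ∘ₗ fst k V (Wd l X (LinearMap.range X) u) ∈
        LinearMap.range ((l ^ b).coprod (Submodule.subtype _)).dualMap := by
      rw [range_dualMap_eq_dualAnnihilator_ker, mem_dualAnnihilator]
      exact fun p hp => h ⟨p.1, by
        rw [SetLike.mem_coe, mem_comap, 
          eq_neg_of_add_eq_zero_left (show (l ^ b) p.1 + p.2 = 0 from hp)]
        exact neg_mem p.2.2, rfl⟩
    have a1 : ∀ m, η ((l ^ b) m) = ξ (X m) := fun m => by simpa using congr($hη (m, 0))
    obtain ⟨E, N, c1, c2, c3, c4⟩ := ih _ he η fun a ha => by simpa using congr($hη (0, ⟨a, ha⟩))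
    refine ⟨E + blk l b (η.smulRight e), N + (b + 1), c1.add_right (blk_comm ?_ ?_), ?_, ?_,
      fun m hm => add_mem (c4 m hm) ?_⟩
    · ext m
      simp [pow_succ', mem_ker.1 (Wd.le h2 u he)]
    · ext m
      simp [pow_succ, a1, ← End.mul_apply X l, h1]
    · rw [mul_add, add_mul, add_sub_add_comm, c2, mul_blk h1, blk_mul h2]
      ext m
      simp [a1]
    · rw [map_add, c3, trace_one]
      simp [a1, add_mul]
    · simpa [a1, hm] using blk_mem (l := l) (b := b) (Θ := η.smulRight e) m

theorem gp [CharZero k] (hl : IsNilpotent l)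
    (h : finrank k (LinearMap.range X) + finrank k (LinearMap.range l) + 2 ≤ finrank k V) :
    ∃ E : End k V, Commute l E ∧ Commute X E ∧ Two E := by
  have m := Wd.mono (l := l) (X := X) (range_le_ker_iff.2 h2)
  let G : Set (List ℕ) := {u | Wd l X (LinearMap.range X) u < Wd l X (ker l) u}
  have g1 : G.Finite := .of_finite_image (f := fun u => finrank k (Wd l X (LinearMap.range X) u))
    ((Set.finite_Iic (finrank k V)).subset (by rintro _ ⟨u, -, rfl⟩; exact finrank_le _))
    fun u a u' a' e => by_contra fun n => (Wd.chain h2 u u' n).elim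
      (fun c => (finrank_lt_finrank_of_lt (lt_of_lt_of_le a c)).ne e)
      fun c => (finrank_lt_finrank_of_lt (lt_of_lt_of_le a' c)).ne' e
  obtain ⟨u, a, hu⟩ := Set.exists_max_image G List.length g1 ⟨[], lt_of_le_of_ne (m []) fun e => by
    have := l.finrank_range_add_finrank_ker
    rw [← show LinearMap.range X = ker l from e] at this
    omega⟩
  obtain ⟨b, ⟨e0, a1, a2⟩, a3⟩ : ∃ b, (∃ e, (l ^ b) e ∈ Wd l X (ker l) u ∧
      (l ^ b) e ∉ Wd l X (LinearMap.range X) u) ∧ ∀ e, (l ^ (b + 1)) e ∈ Wd l X (ker l) u →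
      (l ^ (b + 1)) e ∈ Wd l X (LinearMap.range X) u := by
    by_contra! hh
    obtain ⟨n, hn⟩ := hl
    obtain ⟨e, -, a⟩ : ∃ e, (l ^ n) e ∈ Wd l X (ker l) u ∧
        (l ^ n) e ∉ Wd l X (LinearMap.range X) u := by
      clear hn
      induction n with
      | zero => simpa using SetLike.exists_of_lt a
      | succ n ih => exact hh n ih
    simp [hn] at a
  obtain ⟨e1, a4, a5⟩ : X e0 ∈ Wd l X (LinearMap.range X) (b :: u) :=
    ((m (b :: u)).eq_of_not_lt fun c => by simpa using hu _ c).ge ⟨e0, a1, rfl⟩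
  have b1 : (l ^ b) (e0 - e1) ∈ Wd l X (ker l) u := by
    rw [map_sub]
    exact sub_mem a1 (m u a4)
  have b2 : X (e0 - e1) = 0 := by rw [map_sub, a5, sub_self]
  obtain ⟨ξ, c1, c2⟩ := exists_le_ker_of_notMem (p := Wd l X (LinearMap.range X) u ⊔
      LinearMap.range (l ^ (b + 1))) (v := (l ^ b) (e0 - e1)) fun c => by
    obtain ⟨x, hx, _, ⟨y, rfl⟩, c⟩ := mem_sup.1 c
    have := add_mem (add_mem hx (a3 y (eq_sub_of_add_eq' c ▸ sub_mem b1 (m u hx)))) a4
    rw [c, map_sub, sub_add_cancel] at this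
    exact a2 this
  generalize e0 - e1 = e at b1 b2 c1
  obtain ⟨E, N, d1, d2, d3, d4⟩ := Wd.endo h1 h2 u _ b1 ξ (le_sup_left.trans c2)
  have d5 : Commute X (E + blk l b (ξ.smulRight e)) := by
    rw [commute_iff_eq, ← sub_eq_zero, mul_add, add_mul, add_sub_add_comm, d2, mul_blk h1,
      blk_mul h2]
    ext m
    simp [b2]
  refine ⟨_, d1.add_right (blk_comm ?_ ?_), d5, fun n => c1 ?_, fun n => ?_⟩
  · ext m
    simp [pow_succ', mem_ker.1 (Wd.le h2 u b1)]
  · ext m
    simp [mem_ker.1 (c2 (mem_sup_right (mem_range_self _ m)))]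
  · have := (isNilpotent_trace_of_isNilpotent n).eq_zero
    rw [map_add, d3, trace_one, ← add_mul, ← Nat.cast_add] at this
    exact (mul_eq_zero.1 this).resolve_left (Nat.cast_ne_zero.2 (by omega))
  · have : map (E + blk l b (ξ.smulRight e)) (ker X) ≤ LinearMap.range l ⊔ span k {e} := by
      rintro _ ⟨m, hm, rfl⟩
      rw [LinearMap.add_apply, ← sub_add_cancel (blk _ _ _ m), ← add_assoc]
      exact add_mem_sup (add_mem (d4 m hm) (blk_mem m)) (smul_mem _ _ (mem_span_singleton_self e))
    have := (finrank_mono this).trans (finrank_add_le_finrank_add_finrank _ _)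
    rw [← (equivMapOfInjective _ (ker_eq_bot.1 ((isUnit_iff_ker_eq_bot _).1 n)) _).finrank_eq] at this
    have := X.finrank_range_add_finrank_ker
    have := finrank_span_le_card (R := k) ({e} : Set V)
    simp at this
    omega

end Pool.Agent.Lib.MP_02ae3d_ag
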