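import Mathlib

set_option autoImplicit false
set_option linter.unusedSectionVars false

namespace Pool.Agent.Lib.MP_02ae3d_ag.H11
open Polynomial

variable (k : Type) [Field k] {A : Type} [CommRing A] [Algebra k A] (m : Ideal A)

/-- a nilpotent ideal with residue field `k` -/
def Loc : Prop := (∀ w, ∃ α : k, w - algebraMap k A α ∈ m) ∧ ∃ K, m ^ K = ⊥

/-- three elements spanning the cotangent space -/
def Gen (a b c : A) : Prop := a ∈ m ∧ b ∈ m ∧ c ∈ m ∧
  ∀ w ∈ m, ∃ α β γ : k, w - (α • a + β • b + γ • c) ∈ m ^ 2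

variable {k m} {a b c : A}

theorem sm (α : k) {I : Ideal A} (h : a ∈ I) : α • a ∈ I := I.smul_of_tower_mem α h

theorem mp {i j : ℕ} (l : ℕ) (h : a ∈ m ^ i) (h' : b ∈ m ^ j) (e : l ≤ i + j) :
    a * b ∈ m ^ l := Ideal.pow_le_pow_right e (pow_add m i j ▸ Ideal.mul_mem_mul h h')

theorem p1 (h : a ∈ m) : a ∈ m ^ 1 := by simpa using h

theorem dn {j : ℕ} (l : ℕ) (h : a ∈ m ^ j) (e : l ≤ j) : a ∈ m ^ l :=
  Ideal.pow_le_pow_right e h

theorem d1 {j : ℕ} (h : a ∈ m ^ j) (e : 1 ≤ j) : a ∈ m := by simpa using dn 1 h e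

theorem Gen.rot (h : Gen k m a b c) : Gen k m b c a := ⟨h.2.1, h.2.2.1, h.1, fun w hw => by
  obtain ⟨α, β, γ, e⟩ := h.2.2.2 w hw
  exact ⟨β, γ, α, by convert e using 2; ring⟩⟩

theorem Gen.nak (L : Loc k m) (h : Gen k m a b c) (w : A) : w ∈ Algebra.adjoin k {a, b, c} := by
  have ha : a ∈ Algebra.adjoin k {a, b, c} := Algebra.subset_adjoin (by simp)
  have hb : b ∈ Algebra.adjoin k {a, b, c} := Algebra.subset_adjoin (by simp)
  have hc : c ∈ Algebra.adjoin k {a, b, c} := Algebra.subset_adjoin (by simp)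
  have key : ∀ j, ∀ w ∈ m ^ j, ∃ u ∈ Algebra.adjoin k {a, b, c}, u ∈ m ^ j ∧ w - u ∈ m ^ (j + 1) := by
    intro j
    induction j with
    | zero =>
      intro w _
      obtain ⟨α, e⟩ := L.1 w
      exact ⟨_, Subalgebra.algebraMap_mem _ α, by simp, by simpa using e⟩
    | succ j ih =>
      intro w hw
      rw [pow_succ] at hw
      induction hw using Submodule.mul_induction_on' with
      | mem_mul_mem x hx y hy =>
        obtain ⟨u, u1, u2, u3⟩ := ih x hx
        obtain ⟨α, β, γ, e⟩ := h.2.2.2 y hy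
        have v : α • a + β • b + γ • c ∈ m :=
          add_mem (add_mem (sm α h.1) (sm β h.2.1)) (sm γ h.2.2.1)
        refine ⟨u * (α • a + β • b + γ • c), mul_mem u1 (add_mem (add_mem
          (Subalgebra.smul_mem _ ha α) (Subalgebra.smul_mem _ hb β)) (Subalgebra.smul_mem _ hc γ)),
          mp _ u2 (p1 v) (by omega), ?_⟩
        convert add_mem (mp (j + 1 + 1) u3 (p1 hy) (by omega)) (mp _ u2 e (by omega)) using 1
        ring
      | add x _ y _ hx hy =>
        obtain ⟨u, u1, u2, u3⟩ := hx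
        obtain ⟨v, v1, v2, v3⟩ := hy
        exact ⟨u + v, add_mem u1 v1, add_mem u2 v2, by convert add_mem u3 v3 using 1; ring⟩
  have : ∀ j, ∃ u ∈ Algebra.adjoin k {a, b, c}, w - u ∈ m ^ j := fun j => by
    induction j with
    | zero => exact ⟨0, zero_mem _, by simp⟩
    | succ j ih =>
      obtain ⟨u, u1, u2⟩ := ih
      obtain ⟨v, v1, -, v2⟩ := key j _ u2
      exact ⟨u + v, add_mem u1 v1, by convert v2 using 1; ring⟩
  obtain ⟨K, hK⟩ := L.2
  obtain ⟨u, u1, u2⟩ := this K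
  rw [hK, Ideal.mem_bot, sub_eq_zero] at u2
  exact u2 ▸ u1

theorem Gen.dec (h : Gen k m a b c) (j : ℕ) : ∀ w ∈ m ^ (j + 1), ∃ s ∈ m ^ j, ∃ t ∈ m ^ j, ∃ γ : k,
    w - (a * s + b * t + γ • c ^ (j + 1)) ∈ m ^ (j + 2) := by
  induction j with
  | zero =>
    intro w hw
    obtain ⟨α, β, γ, e⟩ := h.2.2.2 w (d1 hw (by omega))
    exact ⟨algebraMap k A α, by simp, algebraMap k A β, by simp, γ, by
      convert e using 2; simp [Algebra.smul_def]; ring⟩
  | succ j ih =>
    intro w hw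
    rw [pow_succ] at hw
    induction hw using Submodule.mul_induction_on' with
    | mem_mul_mem x hx y hy =>
      obtain ⟨s, s1, t, t1, δ, u⟩ := ih x hx
      obtain ⟨α, β, γ, e⟩ := h.2.2.2 y hy
      have z : c ^ (j + 1) ∈ m ^ (j + 1) := Ideal.pow_mem_pow h.2.2.1 _
      refine ⟨s * y + δ • α • c ^ (j + 1), add_mem (mp _ s1 (p1 hy) (by omega)) (sm _ (sm _ z)),
        t * y + δ • β • c ^ (j + 1), add_mem (mp _ t1 (p1 hy) (by omega)) (sm _ (sm _ z)), δ * γ, ?_⟩
      convert add_mem (mp (j + 1 + 2) u (p1 hy) (by omega)) (sm δ (mp _ z e (by omega))) using 1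
      simp only [Algebra.smul_def, map_mul]
      ring
    | add x _ y _ hx hy =>
      obtain ⟨s, s1, t, t1, δ, u⟩ := hx
      obtain ⟨s', s1', t', t1', δ', u'⟩ := hy
      refine ⟨s + s', add_mem s1 s1', t + t', add_mem t1 t1', δ + δ', ?_⟩
      convert add_mem u u' using 1
      simp only [Algebra.smul_def, map_add]
      ring

theorem Gen.pert (h : Gen k m a b c) {a' b' : A} {u : k} (hu : u ≠ 0) (e : a' - u • a ∈ m ^ 2)
    (e' : b' - b ∈ m ^ 2) : Gen k m a' b' c := by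
  refine ⟨by simpa using add_mem (d1 e (by omega)) (sm u h.1), by simpa using add_mem (d1 e' (by omega)) h.2.1, h.2.2.1,
    fun w hw => ?_⟩
  obtain ⟨α, β, γ, f⟩ := h.2.2.2 w hw
  refine ⟨α / u, β, γ, ?_⟩
  convert sub_mem (sub_mem f (sm (α / u) e)) (sm β e') using 1
  rw [smul_sub, smul_smul, div_mul_cancel₀ _ hu, smul_sub]
  ring

theorem Gen.split (L : Loc k m) [Nontrivial A] (h : Gen k m a b c) (g : k[X])
    (e : a * b - aeval c g ∈ m ^ 3) : ∃ x y N, 0 < N ∧ Gen k m x y c ∧ x * y = c ^ N := by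
  have key : ∀ j, ∃ x y g, Gen k m x y c ∧ x * y - aeval c (g : k[X]) ∈ m ^ (j + 3) := fun j => by
    induction j with
    | zero => exact ⟨a, b, g, h, e⟩
    | succ j ih =>
      obtain ⟨x, y, g, h, e⟩ := ih
      obtain ⟨s, s1, t, t1, γ, u⟩ := h.dec (j + 2) _ e
      refine ⟨x - t, y - s, g + γ • X ^ (j + 3), h.pert one_ne_zero (by simpa using dn 2 t1 (by omega))
        (by simpa using dn 2 s1 (by omega)), ?_⟩
      convert add_mem u (mp _ s1 t1 (by omega)) using 1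
      simp
      ring
  obtain ⟨K, hK⟩ := L.2
  obtain ⟨x, y, g, h, e⟩ := key K
  have z : ∀ w ∈ m ^ K, w = 0 := fun w hw => by simpa [hK] using hw
  have n : ∀ w ∈ m, IsNilpotent w := fun w hw => ⟨K, z _ (Ideal.pow_mem_pow hw K)⟩
  obtain ⟨g, g0, e⟩ : ∃ g : k[X], g ≠ 0 ∧ x * y = aeval c g := by
    have e := sub_eq_zero.1 (z _ (dn K e (by omega)))
    by_cases g0 : g = 0
    · exact ⟨X ^ K, by simp, by simpa [g0, z _ (Ideal.pow_mem_pow h.2.2.1 K)] using e⟩
    · exact ⟨g, g0, e⟩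
  obtain ⟨q, q1, q2⟩ := exists_eq_pow_rootMultiplicity_mul_and_not_dvd g g0 0
  simp only [map_zero, sub_zero, X_dvd_iff] at q1 q2
  have q3 : aeval c q - algebraMap k A (q.coeff 0) ∈ m := by
    have := congr(aeval c $(X_mul_divX_add q))
    rw [map_add, map_mul, aeval_X, aeval_C] at this
    rw [← this, add_sub_cancel_right]
    exact m.mul_mem_right _ h.2.2.1
  obtain ⟨v, hv⟩ : IsUnit (aeval c q) := by
    simpa using (n _ q3).isUnit_add_right_of_commute ((IsUnit.mk0 _ q2).map (algebraMap k A))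
      (Commute.all _ _)
  have f : x * ↑v⁻¹ * y = c ^ rootMultiplicity 0 g := by
    rw [mul_right_comm, e]
    conv_lhs => rw [q1]
    simp [← hv]
  refine ⟨x * ↑v⁻¹, y, _, Nat.pos_of_ne_zero fun N0 => ?_, h.pert (inv_ne_zero q2) ?_ (by simp), f⟩
  · rw [N0, pow_zero] at f
    exact (n _ (m.mul_mem_left _ h.2.1)).not_isUnit (f ▸ isUnit_one)
  · convert sm (-(q.coeff 0)⁻¹) (mp 2 (p1 (m.mul_mem_right ↑v⁻¹ h.1)) (p1 q3) (by omega)) using 1
    rw [← hv, mul_sub, Units.inv_mul_cancel_right, ← Algebra.commutes, ← Algebra.smul_def, smul_sub,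
      smul_smul, neg_mul, inv_mul_cancel₀ q2]
    simp only [neg_smul, one_smul]
    ring

theorem Gen.quad [IsAlgClosed k] [CharZero k] (L : Loc k m) [Nontrivial A] (h : Gen k m a b c)
    {u v w : k} (hu : u ≠ 0) (hv : v ≠ 0) (e : u • a ^ 2 + v • b ^ 2 + w • c ^ 2 ∈ m ^ 3) :
    ∃ x y N, 0 < N ∧ Gen k m x y c ∧ x * y = c ^ N := by
  obtain ⟨s, rfl⟩ := IsAlgClosed.exists_eq_mul_self u
  obtain ⟨t, ht⟩ := IsAlgClosed.exists_eq_mul_self (-v)
  obtain rfl : v = -(t * t) := by rw [← ht, neg_neg]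
  have s0 : s ≠ 0 := fun z => hu (by simp [z])
  have t0 : t ≠ 0 := fun z => hv (by simp [z])
  refine Gen.split (a := s • a + t • b) (b := s • a - t • b) L ⟨add_mem (sm s h.1) (sm t h.2.1),
    sub_mem (sm s h.1) (sm t h.2.1), h.2.2.1, fun z hz => ?_⟩ (-w • X ^ 2) ?_
  · obtain ⟨α, β, γ, f⟩ := h.2.2.2 z hz
    refine ⟨(α / s + β / t) / 2, (α / s - β / t) / 2, γ, ?_⟩
    convert f using 3
    match_scalars <;> field_simp <;> ring
  · convert e using 1
    simp [Algebra.smul_def]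
    ring

theorem diag [CharZero k] {H : Matrix (Fin 3) (Fin 3) k} (h : H.IsSymm) :
    ∃ (P R : Matrix (Fin 3) (Fin 3) k) (w : Fin 3 → k), P * R = 1 ∧
      H = R.transpose * Matrix.diagonal w * R := by
  have s : LinearMap.IsSymm (Matrix.toBilin' H) := ⟨fun x y => by
    simp only [Matrix.toBilin'_apply', RingHom.id_apply]
    rw [Matrix.dotProduct_mulVec, ← Matrix.mulVec_transpose, h.eq, dotProduct_comm]⟩
  obtain ⟨v, hv⟩ := LinearMap.BilinForm.exists_orthogonal_basis s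
  let v' := v.reindex (finCongr (by simp) : _ ≃ Fin 3)
  let e := Pi.basisFun k (Fin 3)
  refine ⟨e.toMatrix v', v'.toMatrix e, fun i => Matrix.toBilin' H (v' i) (v' i),
    e.toMatrix_mul_toMatrix_flip v', ?_⟩
  have : Matrix.diagonal (fun i => Matrix.toBilin' H (v' i) (v' i)) =
      LinearMap.BilinForm.toMatrix v' (Matrix.toBilin' H) := by
    ext i j
    by_cases e : i = j
    · simp [e]
    · simpa [e, v'] using (hv (i := Fin.cast (by simp) i) (j := Fin.cast (by simp) j)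
        (by simpa using e)).symm
  rw [this, LinearMap.BilinForm.toMatrix_mul_basis_toMatrix]
  ext i j
  simp [e, LinearMap.BilinForm.toMatrix_apply]

end Pool.Agent.Lib.MP_02ae3d_ag.H11
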