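import Pool.Agent.Lib.MP_02ae3d_ag.H88Klein
import Pool.Agent.Lib.MP_02ae3d_ag.H11L

set_option autoImplicit false
set_option linter.unusedSectionVars false

namespace Pool.Agent.Lib.MP_02ae3d_ag.H88
open MvPolynomial Module LinearMap Matrix H11

variable {k : Type} [Field k] [IsAlgClosed k] [CharZero k]
  {M : Type} [AddCommGroup M] [Module k M] [FiniteDimensional k M]
  {A : Type} [CommRing A] [Algebra k A]

theorem act_diag (a : Fin 2 → k) (m : Fin 2 →₀ ℕ) (c : k) :
    act (diagonal a) (monomial m c) = monomial m (a 0 ^ m 0 * a 1 ^ m 1 * c) := by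
  have : ∀ i, act (diagonal a) (X i) = C (a i) * X i := fun i => by
    fin_cases i <;> simp [act]
  simp only [monomial_eq, Finsupp.prod_fintype _ _ (fun i => pow_zero (X i : S k)),
    Fin.prod_univ_two, map_mul, map_pow, this, algHom_C, algebraMap_eq]
  ring

theorem coeff_diag (a : Fin 2 → k) (f : S k) (m : Fin 2 →₀ ℕ) :
    coeff m (act (diagonal a) f) = a 0 ^ m 0 * a 1 ^ m 1 * coeff m f := by
  induction f using MvPolynomial.induction_on' with
  | monomial n c =>
    rw [act_diag, coeff_monomial, coeff_monomial]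
    split_ifs with e <;> simp [e]
  | add p q hp hq => simp [hp, hq, mul_add]

theorem cyc0 (ψ : A →ₐ[k] End k M) {x y z : A} {N : ℕ} (hN : 0 < N) (h : x * y = z ^ N) :
    Sm (ψ x) (ψ y) (ψ z) := by
  haveI : NeZero N := ⟨hN.ne'⟩
  haveI := Fintype.ofFinite (rootsOfUnity N k)
  obtain ⟨ζ, hζ⟩ := HasEnoughRootsOfUnity.exists_primitiveRoot k N
  let κ : Kl k (rootsOfUnity N k) :=
    { σ := { toFun := fun g => diagonal ![g.1.1, (g.1.1)⁻¹]
             map_one' := by ext i j; fin_cases i <;> fin_cases j <;> simp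
             map_mul' := fun g h => by ext i j; fin_cases i <;> fin_cases j <;> simp [mul_comm] }
      det := fun g => by simp
      fr := fun g hg e => hg (Subtype.ext (Units.ext (by
        have := g.1.ne_zero
        simp at e ⊢
        field_simp at e
        have : (g.1.1 - 1) ^ 2 = 0 := by linear_combination e
        exact Subtype.ext (Units.ext (by simpa [sub_eq_zero] using this))))) }
  let r : (Fin 2 →₀ ℕ) → A := fun m =>
    if m 1 ≤ m 0 then z ^ m 1 * x ^ ((m 0 - m 1) / N) else z ^ m 0 * y ^ ((m 1 - m 0) / N)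
  have r1 : ∀ (m : Fin 2 →₀ ℕ) c i j, m 0 = c + N * i → m 1 = c + N * j →
      r m = z ^ c * x ^ i * y ^ j := fun m c i j a b => by
    rcases le_total j i with l | l <;> obtain ⟨e, rfl⟩ := Nat.exists_eq_add_of_le l
    · rw [show r m = _ from if_pos (by rw [a, b]; gcongr), a, b,
        show c + N * (j + e) - (c + N * j) = N * e by rw [mul_add]; omega,
        Nat.mul_div_cancel_left _ hN, pow_add, pow_mul, ← h]
      ring
    · rcases e.eq_zero_or_pos with rfl | e0
      · rw [show r m = _ from if_pos (by rw [a, b]; simp), a, b, add_zero, Nat.sub_self,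
          Nat.zero_div, pow_add, pow_mul, ← h]
        ring
      · rw [show r m = _ from if_neg (by rw [a, b]; nlinarith), a, b,
          show c + N * (i + e) - (c + N * i) = N * e by rw [mul_add]; omega,
          Nat.mul_div_cancel_left _ hN, pow_add, pow_mul, ← h]
        ring
  let ρ : S k →ₗ[k] A := (basisMonomials (Fin 2) k).constr k r
  have r2 : ∀ m c, ρ (monomial m c) = c • r m := fun m c => by
    rw [← mul_one c, ← smul_eq_mul, ← smul_monomial, map_smul, smul_eq_mul, mul_one]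
    exact congrArg _ ((basisMonomials (Fin 2) k).constr_basis k _ m)
  have r3 : ∀ f, κ.Inv f → ∀ m ∈ f.support, ∃ c i j, m 0 = c + N * i ∧ m 1 = c + N * j :=
    fun f hf m hm => by
      have z0 := hζ.ne_zero hN.ne'
      have e := congr(coeff m $(hf (hζ.toRootsOfUnity)))
      change coeff m (act (diagonal ![ζ, ζ⁻¹]) f) = _ at e
      rw [coeff_diag, mul_left_eq_self₀, or_iff_left (mem_support_iff.1 hm)] at e
      simp only [cons_val_zero, cons_val_one, inv_pow, mul_inv_eq_one₀ (pow_ne_zero _ z0)] at e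
      rcases le_total (m 0) (m 1) with a | a <;> obtain ⟨d, hd⟩ := Nat.exists_eq_add_of_le a <;>
        rw [hd, pow_add] at e
      · obtain ⟨i, rfl⟩ := hζ.dvd_of_pow_eq_one d (by simpa [z0] using e.symm)
        exact ⟨m 0, 0, i, rfl, hd⟩
      · obtain ⟨i, rfl⟩ := hζ.dvd_of_pow_eq_one d (by simpa [z0] using e)
        exact ⟨m 1, i, 0, hd, rfl⟩
  have r4 : ∀ m : Fin 2 →₀ ℕ, ∀ c i j, m 0 = c + N * i → m 1 = c + N * j →
      κ.Inv (monomial m 1) := fun m c i j a b g => by
    change act (diagonal ![g.1.1, (g.1.1)⁻¹]) _ = _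
    have : g.1.1 ^ N = 1 := by simpa using congr(($(g.2) : kˣ).1)
    simp [act_diag, a, b, pow_add, pow_mul, this]
  have := klein κ (ψ.toLinearMap ∘ₗ ρ) (by simpa [r] using congr(ψ $(r2 0 1))) (fun f g hf hg => by
    simp only [LinearMap.comp_apply, AlgHom.toLinearMap_apply, ← map_mul]
    congr 1
    rw [f.as_sum, g.as_sum, Finset.sum_mul_sum, map_sum, map_sum, map_sum, Finset.sum_mul_sum]
    refine Finset.sum_congr rfl fun m hm => (map_sum ..).trans
      (Finset.sum_congr rfl fun n hn => ?_)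
    obtain ⟨c, i, j, a, b⟩ := r3 f hf m hm
    obtain ⟨c', i', j', a', b'⟩ := r3 g hg n hn
    rw [monomial_mul, r2, r2, r2, r1 m c i j a b, r1 n c' i' j' a' b',
      r1 _ (c + c') (i + i') (j + j') (by simp [a, a']; ring) (by simp [b, b']; ring),
      smul_mul_smul_comm]
    congr 1
    ring)
    ![monomial (.single 0 N) 1, monomial (.single 1 N) 1, monomial (.single 0 1 + .single 1 1) 1]
    (fun j => by
      fin_cases j
      · exact r4 _ 0 1 0 (by simp) (by simp)
      · exact r4 _ 0 0 1 (by simp) (by simp)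
      · exact r4 _ 1 0 0 (by simp) (by simp))
  simpa [r2, r1 (.single 0 N) 0 1 0 (by simp) (by simp), r1 (.single 1 N) 0 0 1 (by simp) (by simp),
    r1 (.single 0 1 + .single 1 1) 1 0 0 (by simp) (by simp)] using this

theorem adj (ψ : A →ₐ[k] End k M) {x y z : A} (h : Sm (ψ x) (ψ y) (ψ z))
    (g : ∀ w, w ∈ Algebra.adjoin k {x, y, z}) (a b c : A) : Sm (ψ a) (ψ b) (ψ c) := by
  have : ∀ w, ∃ Φ : T3 k M → End k M, Ex Φ ∧ Φ (ψ x, ψ y, ψ z) = ψ w := fun w => by
    induction g w using Algebra.adjoin_induction with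
    | mem w hw =>
      rcases hw with rfl | rfl | rfl
      exacts [⟨_, .x, rfl⟩, ⟨_, .y, rfl⟩, ⟨_, .z, rfl⟩]
    | algebraMap c => exact ⟨_, Ex.one.smul c, by simp [Algebra.algebraMap_eq_smul_one]⟩
    | add u v _ _ a b =>
      obtain ⟨_, a, a'⟩ := a
      obtain ⟨_, b, b'⟩ := b
      exact ⟨_, a.add b, by simp [a', b']⟩
    | mul u v _ _ a b =>
      obtain ⟨_, a, a'⟩ := a
      obtain ⟨_, b, b'⟩ := b
      exact ⟨_, a.mul b, by simp [a', b']⟩
  obtain ⟨_, a, a'⟩ := this a
  obtain ⟨_, b, b'⟩ := this b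
  obtain ⟨_, c, c'⟩ := this c
  exact a' ▸ b' ▸ c' ▸ h.map a b c

theorem taylor (π : MvPolynomial (Fin 3) k →ₐ[k] A) (p : Fin 3 → k) {m : Ideal A} {n : Fin 3 → A}
    (e : ∀ i, π (X i) = n i + algebraMap k A (p i)) (h : ∀ i, n i ∈ m)
    (F : MvPolynomial (Fin 3) k) :
    2 * π F - (2 * algebraMap k A (eval p F) + 2 * ∑ i, eval p (pderiv i F) • n i +
      ∑ i, ∑ j, eval p (pderiv i (pderiv j F)) • (n i * n j)) ∈ m ^ 3 := by
  induction F using MvPolynomial.induction_on with
  | C c => simp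
  | add F G a b =>
    convert add_mem a b using 1
    simp only [map_add, add_smul, Finset.sum_add_distrib]
    ring
  | mul_X F l a =>
    convert add_mem (Ideal.mul_mem_right (π (X l)) _ a) (mp 3 (Ideal.sum_mem _ fun i
      (_ : i ∈ Finset.univ) => Ideal.sum_mem _ fun j (_ : j ∈ Finset.univ) => sm
        (eval p (pderiv i (pderiv j F))) (mp 2 (p1 (h i)) (p1 (h j)) (by omega))) (p1 (h l)) (by omega)) using 1
    fin_cases l <;> simp [Fin.sum_univ_three, e, Algebra.smul_def, pderiv_X] <;> ring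

theorem pd_comm (F : MvPolynomial (Fin 3) k) (i j : Fin 3) :
    pderiv i (pderiv j F) = pderiv j (pderiv i F) := by
  induction F using MvPolynomial.induction_on with
  | C c => simp
  | add F G a b => simp [a, b]
  | mul_X F l a =>
    simp [pderiv_X, Pi.single_apply, apply_ite (pderiv _), a]
    ring

theorem locA (ψ : A →ₐ[k] End k M) [Nontrivial A] (π : MvPolynomial (Fin 3) k →ₐ[k] A)
    (hπ : Function.Surjective π) (p : Fin 3 → k) {n : Fin 3 → A}
    (e : ∀ i, π (X i) = n i + algebraMap k A (p i)) (h : ∀ i, IsNilpotent (n i))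
    {F : MvPolynomial (Fin 3) k} (h0 : π F = 0) (hF : (∃ i, eval p (pderiv i F) ≠ 0) ∨
      2 ≤ (Matrix.of fun i j => eval p (pderiv i (pderiv j F))).rank) (a b c : A) :
    Sm (ψ a) (ψ b) (ψ c) := by
  classical
  let m := Ideal.span (Set.range n)
  have hn : ∀ i, n i ∈ m := fun i => Ideal.subset_span ⟨i, rfl⟩
  have T := fun F => sm (2 : k)⁻¹ (taylor π p e hn F)
  have two : ∀ a : A, (2 : k)⁻¹ • (2 * a) = a := fun a => by
    rw [two_mul, ← two_smul k, smul_smul, inv_mul_cancel₀ two_ne_zero, one_smul]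
  simp only [smul_sub, smul_add, two] at T
  have l : ∀ c : Fin 3 → k, ∑ i, c i • n i ∈ m := fun c => m.sum_mem fun i _ => sm _ (hn i)
  have l' := fun G : MvPolynomial (Fin 3) k => l fun i => eval p (pderiv i G)
  have q : ∀ G : MvPolynomial (Fin 3) k,
      (2 : k)⁻¹ • ∑ i, ∑ j, eval p (pderiv i (pderiv j G)) • (n i * n j) ∈ m ^ 2 := fun c =>
    sm _ (Ideal.sum_mem _ fun i _ => Ideal.sum_mem _ fun j _ => sm _ (mp 2 (p1 (hn i)) (p1 (hn j)) (by omega)))
  obtain ⟨K, hK⟩ : IsNilpotent m := (Ideal.FG.isNilpotent_iff_le_nilradical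
    ⟨(Set.finite_range n).toFinset, by simp [m]⟩).2 (Ideal.span_le.2 (by
      rintro _ ⟨i, rfl⟩; exact h i))
  have L : Loc k m := ⟨fun w => by
    obtain ⟨G, rfl⟩ := hπ w
    exact ⟨eval p G, by convert add_mem (add_mem (d1 (T G) (by omega)) (l' G)) (d1 (q G) (by omega)) using 1; ring⟩, K, hK⟩
  have z : ∀ α : k, algebraMap k A α ∈ m → α = 0 := fun α a => by_contra fun a0 =>
    IsNilpotent.not_isUnit ⟨K, by simpa [hK] using Ideal.pow_mem_pow a K⟩
      ((IsUnit.mk0 _ a0).map (algebraMap k A))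
  have T2 : ∀ G, π G ∈ m → eval p G = 0 := fun G a => z _ (by
    convert sub_mem (sub_mem (sub_mem a (d1 (T G) (by omega))) (l' G)) (d1 (q G) (by omega)) using 1; ring)
  have G0 : ∀ w ∈ m, ∃ c : Fin 3 → k, w - ∑ i, c i • n i ∈ m ^ 2 := fun w hw => by
    obtain ⟨G, rfl⟩ := hπ w
    exact ⟨fun i => eval p (pderiv i G), by
      convert add_mem (dn 2 (T G) (by omega)) (q G) using 1; rw [T2 G hw, map_zero]; ring⟩
  have fin : ∀ x y z N, 0 < N → Gen k m x y z → x * y = z ^ N → Sm (ψ a) (ψ b) (ψ c) :=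
    fun x y z N a b c => adj ψ (cyc0 ψ a c) (b.nak L) _ _ _
  have TF := neg_mem (T F)
  rw [T2 F (h0 ▸ zero_mem _), h0, map_zero, zero_add, zero_sub, neg_neg] at TF
  by_cases g : ∃ i, eval p (pderiv i F) ≠ 0
  · have r := sub_mem (dn 2 TF (by omega)) (q F)
    rw [add_sub_cancel_right, Fin.sum_univ_three] at r
    have : ∀ x y z, Gen k m x y z → ∀ α β γ : k, γ ≠ 0 → α • x + β • y + γ • z ∈ m ^ 2 →
        Sm (ψ a) (ψ b) (ψ c) := fun x y z G α β γ g0 r =>
      fin x y (x * y) 1 one_pos ⟨G.1, G.2.1, m.mul_mem_left _ G.2.1, fun w hw => by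
        obtain ⟨s, t, u, f⟩ := G.2.2.2 w hw
        refine ⟨s - u / γ * α, t - u / γ * β, 0, ?_⟩
        convert add_mem f (sm (u / γ) r) using 1
        match_scalars <;> field_simp <;> ring⟩ (pow_one _).symm
    have G : Gen k m (n 0) (n 1) (n 2) := ⟨hn 0, hn 1, hn 2, fun w hw => by
      obtain ⟨c, f⟩ := G0 w hw
      exact ⟨c 0, c 1, c 2, by simpa [Fin.sum_univ_three] using f⟩⟩
    obtain ⟨i, g⟩ := g
    fin_cases i
    · exact this _ _ _ G.rot _ _ _ g (by rwa [add_rotate] at r)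
    · exact this _ _ _ G.rot.rot _ _ _ g (by rwa [← add_rotate] at r)
    · exact this _ _ _ G _ _ _ g r
  replace hF := hF.resolve_left g
  push Not at g
  simp only [g, zero_smul, Finset.sum_const_zero, zero_add] at TF
  obtain ⟨P, R, w, PR, H⟩ := diag (H := Matrix.of fun i j => eval p (pderiv i (pderiv j F)))
    (IsSymm.ext fun i j => by simp [pd_comm F i j])
  have H' : ∀ i j, eval p (pderiv i (pderiv j F)) = ∑ l, R l i * w l * R l j := fun i j => by
    simpa [mul_apply, diagonal_apply] using congr($H i j)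
  have G : Gen k m (∑ i, R 0 i • n i) (∑ i, R 1 i • n i) (∑ i, R 2 i • n i) :=
    ⟨l _, l _, l _, fun w hw => by
      obtain ⟨c, f⟩ := G0 w hw
      refine ⟨(c ᵥ* P) 0, (c ᵥ* P) 1, (c ᵥ* P) 2, ?_⟩
      rw [← vecMul_one c, ← PR, ← vecMul_vecMul] at f
      convert f using 2
      generalize c ᵥ* P = d
      simp only [vecMul, dotProduct, Fin.sum_univ_three]
      module⟩
  replace TF : w 0 • (∑ i, R 0 i • n i) ^ 2 + w 1 • (∑ i, R 1 i • n i) ^ 2 +
      w 2 • (∑ i, R 2 i • n i) ^ 2 ∈ m ^ 3 := by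
    convert sm (2 : k) TF using 1
    rw [smul_smul, mul_inv_cancel₀ two_ne_zero, one_smul]
    simp only [H', Fin.sum_univ_three, Algebra.smul_def, map_add, map_mul]
    ring
  rw [H] at hF
  replace hF := hF.trans ((rank_mul_le_left _ _).trans (rank_mul_le_right _ _))
  rw [Matrix.rank_diagonal, Fintype.card_subtype, Finset.card_filter, Fin.sum_univ_three] at hF
  by_cases w0 : w 0 = 0
  · obtain ⟨x, y, N, a, b, c⟩ := G.rot.quad L (u := w 1) (v := w 2) (w := w 0)
      (fun e => by simp [w0, e] at hF; split_ifs at hF <;> omega)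
      (fun e => by simp [w0, e] at hF; split_ifs at hF <;> omega) (by convert TF using 1; ring)
    exact fin x y _ N a b c
  by_cases w1 : w 1 = 0
  · obtain ⟨x, y, N, a, b, c⟩ := G.rot.rot.quad L (u := w 2) (v := w 0) (w := w 1)
      (fun e => by simp [w0, w1, e] at hF) w0 (by convert TF using 1; ring)
    exact fin x y _ N a b c
  · obtain ⟨x, y, N, a, b, c⟩ := G.quad L w0 w1 TF
    exact fin x y _ N a b c

theorem nil_ker {T : End k M} (h : IsNilpotent T) {v : M} (hv : v ≠ 0) :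
    ∃ j, (T ^ j) v ≠ 0 ∧ T ((T ^ j) v) = 0 := by
  by_contra a
  push Not at a
  obtain ⟨n, hn⟩ := h
  have : ∀ j, (T ^ j) v ≠ 0 := fun j => by
    induction j with
    | zero => exact hv
    | succ j ih => simpa [pow_succ'] using a j ih
  exact this n (by simp [hn])

/-- modules on surfaces whose singularities at the support are of type `A_n`, `n ≤ ∞` -/
theorem typeA (φ : MvPolynomial (Fin 3) k →ₐ[k] End k M)
    (h : ∀ p : Fin 3 → k, (∃ v ≠ 0, ∀ i, φ (X i) v = p i • v) → ∃ F, φ F = 0 ∧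
      ((∃ i, eval p (pderiv i F) ≠ 0) ∨
        2 ≤ (Matrix.of fun i j => eval p (pderiv i (pderiv j F))).rank)) :
    Sm (φ (X 0)) (φ (X 1)) (φ (X 2)) := by
  induction hn : finrank k M using Nat.strong_induction_on generalizing M with | _ d ih => ?_
  subst hn
  have cm : ∀ f g, Commute (φ f) (φ g) := fun f g => (Commute.all f g).map φ
  by_cases t : ∃ f, Two (φ f)
  · obtain ⟨f, t⟩ := t
    obtain ⟨n, a, b, c⟩ := t.fit
    have : ∀ (p : Submodule k M) (s : ∀ f, ∀ v ∈ p, φ f v ∈ p), p ≠ ⊤ →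
        Sm (res φ p s (X 0)) (res φ p s (X 1)) (res φ p s (X 2)) := fun p s p0 =>
      ih _ (Submodule.finrank_lt p0) _ (fun x ⟨v, v0, hv⟩ => by
        obtain ⟨F, a, b⟩ := h x ⟨v, by simpa using v0, fun i => congr(($(hv i)).1)⟩
        exact ⟨F, by ext; simp [a], b⟩) rfl
    have s := fun g => comm_ker ((cm f g).pow_left (n + 1))
    have s' := fun g => comm_range ((cm f g).pow_left (n + 1))
    exact Sm.sum a (s _) (s _) (s _) (s' _) (s' _) (s' _) (this _ s b) (this _ s' c)
  rcases subsingleton_or_nontrivial M with _ | _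
  · exact Sm.small (by simp [finrank_zero_of_subsingleton])
  have : ∀ i, ∃ c : k, IsNilpotent (φ (X i - C c)) := fun i => by
    obtain ⟨c, v, hv⟩ := (End.exists_eigenvalue (φ (X i))).imp fun _ h => h.exists_hasEigenvector
    refine ⟨c, by_contra fun a => t ⟨_, a, fun u => hv.2 ?_⟩⟩
    exact ker_eq_bot'.1 ((isUnit_iff_ker_eq_bot _).1 u) v (by simp [hv.apply_eq_smul])
  choose p hp using this
  obtain ⟨v, hv⟩ := exists_ne (0 : M)
  obtain ⟨i, a1, a2⟩ := nil_ker (hp 0) hv
  obtain ⟨j, b1, b2⟩ := nil_ker (hp 1) a1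
  obtain ⟨l, c1, c2⟩ := nil_ker (hp 2) b1
  have s : ∀ f g (n : ℕ) v, φ f v = 0 → φ f ((φ g ^ n) v) = 0 := fun f g n v =>
    comm_ker ((cm f g).pow_right n) v
  have u : ∀ i v, φ (X i - C (p i)) v = 0 → φ (X i) v = p i • v := fun i v e => by
    simpa [sub_eq_zero] using e
  obtain ⟨F, F0, hF⟩ := h p ⟨_, c1, fun i => by
    fin_cases i
    exacts [u 0 _ (s _ _ l _ (s _ _ j _ a2)), u 1 _ (s _ _ l _ b2), u 2 _ c2]⟩
  let ψ := Ideal.kerLiftAlg φ
  have inj : Function.Injective ψ := Ideal.kerLiftAlg_injective φ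
  haveI := ψ.toRingHom.domain_nontrivial
  exact locA ψ (Ideal.Quotient.mkₐ k _) (Ideal.Quotient.mkₐ_surjective k _) p
    (n := fun i => Ideal.Quotient.mkₐ k _ (X i - C (p i))) (fun i => by rw [map_sub, algHom_C, sub_add_cancel])
    (fun i => (IsNilpotent.map_iff inj).1 (hp i)) (inj (by simpa [ψ] using F0)) hF
    (Ideal.Quotient.mk _ (X 0)) (Ideal.Quotient.mk _ (X 1)) (Ideal.Quotient.mk _ (X 2))

end Pool.Agent.Lib.MP_02ae3d_ag.H88
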