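import Pool.Agent.Lib.MP_02ae3d_ag.H88Orb

set_option autoImplicit false
set_option linter.unusedSectionVars false

namespace Pool.Agent.Lib.MP_02ae3d_ag.H88
open Matrix

variable {k : Type} [Field k] [IsAlgClosed k] [CharZero k]

/-- a finite subgroup of SL2 gives a Kl -/
theorem exKl (Γ : Subgroup (Matrix.SpecialLinearGroup (Fin 2) k)) [Finite Γ] :
    ∃ κ : Kl k Γ, ∀ g, κ.σ g = g.1.1 := by
  refine ⟨⟨SpecialLinearGroup.coeMonoidHom.comp Γ.subtype, fun g => g.1.2, fun g hg ht => hg ?_⟩,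
    fun _ => rfl⟩
  obtain ⟨n, hn, e⟩ := (isOfFinOrder_of_finite g).exists_pow_eq_one
  obtain ⟨P, hP⟩ : ∃ P, g.1.1 = 1 + P := ⟨g.1.1 - 1, by simp⟩
  have d := g.1.2
  change g.1.1.trace = 2 at ht
  rw [hP] at d ht
  simp [det_fin_two, trace_fin_two] at d ht
  have z : P * P = 0 := by
    ext i j
    fin_cases i <;> fin_cases j <;> simp [Matrix.mul_apply] <;> grind
  have p : ∀ n : ℕ, (1 + P) ^ n = 1 + (n : k) • P := fun n => by
    induction n with
    | zero => simp
    | succ n ih => simp [pow_succ, ih, mul_add, add_mul, z, add_smul, add_assoc]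
  have : g.1.1 ^ n = 1 := by simpa using congr(($e).1.1)
  rw [hP, p] at this
  have : P = 0 := by simpa [hn.ne'] using this
  exact Subtype.ext (Subtype.ext (by simp [hP, this]))

end Pool.Agent.Lib.MP_02ae3d_ag.H88
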