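import Pool.Agent.Lib.MP_02ae3d_ag.H88Klein
import Pool.Agent.Lib.MP_02ae3d_ag.H11K

set_option autoImplicit false
set_option linter.unusedSectionVars false

namespace Pool.Agent.Lib.MP_02ae3d_ag.H88
open MvPolynomial Module LinearMap

variable {k : Type} [Field k] {V A B : Type} [AddCommGroup V] [Module k V] [FiniteDimensional k V]
  [AddCommGroup A] [Module k A] [FiniteDimensional k A] [AddCommGroup B] [Module k B]
  [FiniteDimensional k B]

theorem sm_range (a : A →ₗ[k] V) (ha : Function.Injective a) {T : Fin 3 → End k V}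
    {T' : Fin 3 → End k A} (e : ∀ j v, a (T' j v) = T j (a v))
    (s : ∀ j, ∀ v ∈ range a, T j v ∈ range a) (h : Sm (T' 0) (T' 1) (T' 2)) :
    Sm ((T 0).restrict (s 0)) ((T 1).restrict (s 1)) ((T 2).restrict (s 2)) := by
  have : ∀ j v, (LinearEquiv.ofInjective a ha).symm ((T j).restrict (s j) v) =
      T' j ((LinearEquiv.ofInjective a ha).symm v) := fun j v => ha (by simp [e])
  exact sm_equiv (LinearEquiv.ofInjective a ha).symm.toLinearMap (LinearEquiv.bijective _)
    (this 0) (this 1) (this 2) h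

theorem sm_fin {ι : Type} [Fintype ι] {p : ι → Submodule k V} (hp : iSupIndep p) (top : iSup p = ⊤)
    {T : Fin 3 → End k V} {T' : ∀ i, Fin 3 → End k (p i)} (e : ∀ i j v, (T' i j v).1 = T j v)
    (h : ∀ i, Sm (T' i 0) (T' i 1) (T' i 2)) : Sm (T 0) (T 1) (T 2) := by
  classical
  have st : ∀ (s : Finset ι) j, ∀ v ∈ s.sup p, T j v ∈ s.sup p := fun s j =>
    show s.sup p ≤ (s.sup p).comap (T j) from Finset.sup_le fun i hi v hv =>
      Finset.le_sup (f := p) hi (show T j v ∈ p i from e i j ⟨v, hv⟩ ▸ Subtype.prop _)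
  have key : ∀ s : Finset ι,
      Sm ((T 0).restrict (st s 0)) ((T 1).restrict (st s 1)) ((T 2).restrict (st s 2)) := fun s => by
    induction s using Finset.induction_on with
    | empty => exact .small (by rw [Finset.sup_empty]; simp)
    | insert i s hi ih =>
      have l1 : p i ≤ (insert i s).sup p := Finset.le_sup (by simp)
      have l2 : s.sup p ≤ (insert i s).sup p := Finset.sup_mono (by simp)
      refine .sum (p := range (Submodule.inclusion l1)) (q := range (Submodule.inclusion l2))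
        ⟨?_, ?_⟩ _ _ _ _ _ _
        (sm_range (T := fun j => (T j).restrict (st _ j)) _ (Submodule.inclusion_injective _)
          (fun j v => Subtype.ext (e i j v)) (fun j => ?_) (h i))
        (sm_range (T := fun j => (T j).restrict (st _ j)) (T' := fun j => (T j).restrict (st _ j)) _
          (Submodule.inclusion_injective _) (fun j v => rfl) (fun j => ?_) ih)
      · simp only [Submodule.range_inclusion]
        refine Submodule.disjoint_def.2 fun v a b => Subtype.ext (Submodule.disjoint_def.1 (hp i) _ a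
          ((Finset.sup_le fun j hj => le_iSup₂_of_le j (fun c : j = i => hi (c ▸ hj)) le_rfl :
            s.sup p ≤ _) b))
      · refine codisjoint_iff.2 (Submodule.eq_top_iff'.2 fun ⟨v, hv⟩ => ?_)
        obtain ⟨a, ha, b, hb, rfl⟩ := Submodule.mem_sup.1 ((Finset.sup_insert (f := p)).le hv)
        exact Submodule.add_mem_sup (mem_range_self (Submodule.inclusion l1) ⟨a, ha⟩)
          (mem_range_self (Submodule.inclusion l2) ⟨b, hb⟩)
      · rintro _ ⟨v, rfl⟩
        exact ⟨_, Subtype.ext (e i j v)⟩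
      · rintro _ ⟨v, rfl⟩
        exact ⟨⟨_, st s j v v.2⟩, rfl⟩
  have u : Finset.univ.sup p = ⊤ := by rw [Finset.sup_univ_eq_iSup, top]
  refine sm_equiv (LinearMap.id.codRestrict _ fun v => u.ge trivial)
    ⟨fun a b c => congrArg Subtype.val c, fun v => ⟨v, rfl⟩⟩ ?_ ?_ ?_ (key .univ) <;>
    exact fun _ => rfl

theorem klein' [IsAlgClosed k] [CharZero k] (Γ : Subgroup (Matrix.SpecialLinearGroup (Fin 2) k))
    [Finite Γ] (R : Subalgebra k (S k)) (hR : ∀ f, f ∈ R ↔ ∀ g ∈ Γ, act g.1 f = f)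
    (ρ : R →ₐ[k] End k V) (x : Fin 3 → R) : Sm (ρ (x 0)) (ρ (x 1)) (ρ (x 2)) := by
  obtain ⟨κ, hκ⟩ := exKl Γ
  have := Fintype.ofFinite Γ
  have inv : ∀ f, κ.Inv f ↔ f ∈ R := fun f => by simp [Kl.Inv, hκ, hR]
  obtain ⟨l, hl⟩ := R.val.toLinearMap.exists_leftInverse_of_injective
    (ker_eq_bot.2 Subtype.val_injective)
  replace hl : ∀ r : R, l r = r := fun r => congr($hl r)
  simpa [hl] using klein κ (ρ.toLinearMap ∘ₗ l) (by simpa using congrArg ρ (hl 1))
    (fun r s a b => (congrArg ρ (hl (⟨r, (inv _).1 a⟩ * ⟨s, (inv _).1 b⟩))).trans ((map_mul ρ _ _).trans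
      (congrArg₂ (fun a b => ρ a * ρ b) (hl _).symm (hl _).symm)))
    (fun j => x j) fun j => (inv _).2 (x j).2

end Pool.Agent.Lib.MP_02ae3d_ag.H88
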