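import Pool.Agent.Lib.MP_02ae3d_ag.H11A
import Pool.Agent.Lib.MP_02ae3d_ag.H88Fin

set_option autoImplicit false
set_option linter.unusedSectionVars false

namespace Pool.Agent.Lib.MP_02ae3d_ag
open Module LinearMap
open Filter (cofinite)

variable {k : Type} [Field k] {W W' : Type} [AddCommGroup W] [Module k W] [AddCommGroup W']
  [Module k W']

theorem IsP.ap {ι : Type} {Φ : W → ι → W'} (h : IsP k Φ) (i : ι) : IsP k fun w => Φ w i :=
  h.lin (proj i)

theorem IsP.pi {ι : Type} [Fintype ι] {Φ : W → ι → W'} (h : ∀ i, IsP k fun w => Φ w i) :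
    IsP k Φ := by
  classical
  simpa [Finset.univ_sum_single] using IsP.sum .univ fun i => (h i).lin (single k (fun _ => W') i)

theorem IsP.powk {f : W → k} (h : IsP k f) (n : ℕ) : IsP k fun w => f w ^ n :=
  isP_iff.2 (pow_mem (isP_iff.1 h) n)

theorem IsP.tay {g : k × W → k} (h : IsP k g) :
    ∃ g' : k × W → k, IsP k g' ∧ ∀ t y, g (t, y) = g (0, y) + t * g' (t, y) := by
  rw [isP_iff] at h
  induction h using Algebra.adjoin_induction with
  | mem f hf =>
    obtain ⟨φ, rfl⟩ := hf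
    exact ⟨_, .const (φ (1, 0)), fun t y => by
      rw [← smul_eq_mul, ← map_smul, ← map_add]; simp⟩
  | algebraMap c => exact ⟨_, .const 0, by simp⟩
  | add f g _ _ a b =>
    obtain ⟨p, a, a'⟩ := a
    obtain ⟨q, b, b'⟩ := b
    exact ⟨_, a.add b, fun t y => by simp only [Pi.add_apply]; rw [a', b']; ring⟩
  | mul f g hf hg a b =>
    obtain ⟨p, a, a'⟩ := a
    obtain ⟨q, b, b'⟩ := b
    exact ⟨_, (a.mulk (isP_iff.2 hg)).add (((isP_iff.2 hf).comp ((IsP.const 0).mk IsP.id.snd)).mulk b),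
      fun t y => by simp only [Pi.mul_apply]; rw [a' t y]; linear_combination f (0, y) * b' t y⟩

variable [Infinite k]

/-- a set containing curves in all directions through a point is dense -/
theorem dom {B : Set W} (y0 : W)
    (h : ∀ y, ∃ γ : k → W, IsP k γ ∧ γ 0 = y ∧ ∀ t, y0 + t • γ t ∈ cl k B) (y : W) :
    y ∈ cl k B := fun f hf e => by
  have key : ∀ n : ℕ, ∃ g : k × W → k, IsP k g ∧ ∀ t y, f (y0 + t • y) = t ^ n * g (t, y) := by
    intro n
    induction n with
    | zero => exact ⟨fun x => f (y0 + x.1 • x.2), (isP_iff.2 hf).comp (by fun_prop), by simp⟩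
    | succ n ih =>
      obtain ⟨g, a, b⟩ := ih
      obtain ⟨g', c, d⟩ := a.tay
      refine ⟨g', c, fun t y => ?_⟩
      obtain ⟨γ, g1, rfl, g2⟩ := h y
      rw [b, d, (a.comp (IsP.id.mk g1)).zero ((Set.finite_singleton 0).infinite_compl.mono
        fun s hs => (mul_eq_zero.1 ((b s _).symm.trans (g2 s f hf e))).resolve_left
          (pow_ne_zero _ hs)) 0]
      ring
  obtain ⟨p, hp⟩ := IsP.poly (f := fun t : k => f (y0 + t • (y - y0)))
    ((isP_iff.2 hf).comp (by fun_prop))
  have : p = 0 := Polynomial.ext fun n => by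
    obtain ⟨g, a, b⟩ := key (n + 1)
    obtain ⟨q, hq⟩ := (a.comp (IsP.id.mk (.const (y - y0)))).poly
    rw [show p = .X ^ (n + 1) * q from Polynomial.funext fun t => by simp [← hp, ← hq, b]]
    simp [Polynomial.coeff_X_pow_mul']
  simpa [this] using hp 1

theorem ex_all {ι : Type} {h : ι → W → k} (hp : ∀ i, IsP k (h i)) (h0 : ∀ i, ∃ w, h i w ≠ 0)
    (s : Finset ι) : ∃ w, ∀ i ∈ s, h i w ≠ 0 := by
  classical
  induction s using Finset.induction_on with
  | empty => exact ⟨0, by simp⟩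
  | insert i s _ ih =>
    obtain ⟨a, ha⟩ := ih
    obtain ⟨b, hb⟩ := h0 i
    have c : IsP k fun t : k => a + t • (b - a) := by fun_prop
    obtain ⟨t, t1, t2⟩ := ((((hp i).comp c).cof (a := 1) (by simpa)).and
      ((Filter.eventually_all_finset s).2 fun j hj =>
        ((hp j).comp c).cof (a := 0) (by simpa using ha j hj))).exists
    exact ⟨_, Finset.forall_mem_insert .. |>.2 ⟨t1, t2⟩⟩

/-- it is enough to treat general values of the parameter -/
theorem gen_cl {ι : Type} [Fintype ι] {h : ι → W → k} (hp : ∀ i, IsP k (h i))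
    (h0 : ∀ i, ∃ w, h i w ≠ 0) {Φ : W → W'} (hΦ : IsP k Φ) {B : Set W'}
    (H : ∀ w, (∀ i, h i w ≠ 0) → Φ w ∈ cl k B) (w : W) : Φ w ∈ cl k B := by
  obtain ⟨b, hb⟩ := ex_all hp h0 .univ
  have c : IsP k fun t : k => w + t • (b - w) := by fun_prop
  simpa using (hΦ.comp c).curve (Set.infinite_of_finite_compl ((Filter.eventually_all.2 fun j =>
    ((hp j).comp c).cof (a := 1) (by simpa using hb j (by simp))).mono fun t ht => H _ ht))

variable {ι : Type} [Fintype ι] [DecidableEq ι]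

theorem sm_mat [FiniteDimensional k W] (b : Basis ι k W) {X : Fin 3 → End k W} :
    Sm (X 0) (X 1) (X 2) ↔ Sm (toMatrix b b (X 0)).toLin' (toMatrix b b (X 1)).toLin'
      (toMatrix b b (X 2)).toLin' := by
  have e : ∀ l v, b.equivFun (X l v) = (toMatrix b b (X l)).toLin' (b.equivFun v) := fun l v =>
    (toMatrix_mulVec_repr b b _ v).symm
  have e' := fun l v => (b.equivFun.symm_apply_eq.2
    ((e l (b.equivFun.symm v)).trans (by rw [b.equivFun.apply_symm_apply])).symm)
  exact ⟨H88.sm_equiv b.equivFun.symm.toLinearMap b.equivFun.symm.bijective (e' 0) (e' 1) (e' 2),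
    H88.sm_equiv b.equivFun.toLinearMap b.equivFun.bijective (e 0) (e 1) (e 2)⟩

/-- degeneration to the associated graded module -/
theorem sm_gr (deg : ι → ℕ) {M N : Fin 3 → Matrix ι ι k}
    (h1 : ∀ l i j, deg j + 1 ≤ deg i → M l i j = N l i j)
    (h2 : ∀ l i j, deg i ≠ deg j + 1 → N l i j = 0)
    (h : Sm (M 0).toLin' (M 1).toLin' (M 2).toLin') :
    Sm (N 0).toLin' (N 1).toLin' (N 2).toLin' := by
  let F : Fin 3 → k → Matrix ι ι k := fun l t i j => t ^ (deg j + 1 - deg i) * M l i j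
  have p : ∀ l, IsP k fun t => (F l t).toLin' := fun l => IsP.lin (Φ := F l)
    Matrix.toLin'.toLinearMap (IsP.pi fun i => IsP.pi fun j => (IsP.id.powk _).mulk (.const _))
  have z : ∀ l, F l 0 = N l := fun l => Matrix.ext fun i j => by
    by_cases e : deg j + 1 ≤ deg i
    · simp [F, Nat.sub_eq_zero_of_le e, h1 l i j e]
    · simp [F, h2 l i j (by omega), show deg j + 1 - deg i ≠ 0 by omega]
  rw [← z, ← z, ← z]
  refine Sm.curve (p 0) (p 1) (p 2) ((Set.finite_singleton 0).subset fun t ht => by_contra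
    fun t0 : t ≠ 0 => ht ?_)
  have e : ∀ l v, (Matrix.diagonal fun i => t ^ deg i).toLin' ((F l t).toLin' v) =
      (t • (M l).toLin') ((Matrix.diagonal fun i => t ^ deg i).toLin' v) := fun l v => by
    ext i
    simp only [Matrix.toLin'_apply, Matrix.mulVec_diagonal, LinearMap.smul_apply, Pi.smul_apply,
      smul_eq_mul]
    rw [Matrix.mulVec, Matrix.mulVec, dotProduct, dotProduct, Finset.mul_sum, Finset.mul_sum]
    refine Finset.sum_congr rfl fun j _ => ?_
    rw [Matrix.mulVec_diagonal]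
    by_cases e : deg i ≤ deg j + 1
    · obtain ⟨n, e⟩ := Nat.exists_eq_add_of_le e
      simp only [F, e, Nat.add_sub_cancel_left]
      linear_combination (M l i j * v j) * ((pow_add t _ _).symm.trans (e ▸ pow_succ t (deg j)))
    · simp [F, h1 l i j (by omega), h2 l i j (by omega)]
  exact H88.sm_equiv _ (Matrix.toLin'OfInv (M := .diagonal fun i => t ^ deg i)
    (M' := .diagonal fun i => (t ^ deg i)⁻¹) (by simp [t0]) (by simp [t0])).symm.bijective
    (e 0) (e 1) (e 2) (h.map (Ex.x.smul t) (Ex.y.smul t) (Ex.z.smul t))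

theorem sm_prod [FiniteDimensional k W] [FiniteDimensional k W'] {X : Fin 3 → End k W}
    {Y : Fin 3 → End k W'} (h : Sm (X 0) (X 1) (X 2)) (h' : Sm (Y 0) (Y 1) (Y 2)) :
    Sm ((X 0).prodMap (Y 0)) ((X 1).prodMap (Y 1)) ((X 2).prodMap (Y 2)) := by
  refine Sm.sum isCompl_range_inl_inr _ _ _ _ _ _
    (H88.sm_range (T := fun l => (X l).prodMap (Y l)) _ inl_injective (by simp) (fun j => ?_) h)
    (H88.sm_range (T := fun l => (X l).prodMap (Y l)) _ inr_injective (by simp) (fun j => ?_) h') <;>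
    rintro _ ⟨v, rfl⟩ <;> exact ⟨_, by simp; rfl⟩

theorem sm_diag (q : Fin 3 → ι → k) :
    Sm (mulLeft k (q 0)) (mulLeft k (q 1)) (mulLeft k (q 2)) := by
  have : ∀ l i, ∃ a : k, mulLeft k (q l) (Pi.single i 1) = a • Pi.single i 1 := fun l i =>
    ⟨q l i, by ext j; by_cases e : j = i <;> simp [e]⟩
  refine subset_cl (top_unique ((Pi.basisFun k ι).span_eq.ge.trans (Submodule.span_mono ?_)))
  rintro _ ⟨i, rfl⟩
  rw [Pi.basisFun_apply]
  exact ⟨this 0 i, this 1 i, this 2 i⟩

theorem ex_phi (N : Fin 3 → End k W) (h : ∀ i j, Commute (N i) (N j)) :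
    ∃ φ : MvPolynomial (Fin 3) k →ₐ[k] End k W, ∀ i, φ (.X i) = N i := by
  haveI := Algebra.isMulCommutative_adjoin k (s := Set.range N) (by
    rintro _ ⟨i, rfl⟩ _ ⟨j, rfl⟩; exact h i j)
  letI : CommRing (Algebra.adjoin k (Set.range N)) := { mul_comm := mul_comm' }
  exact ⟨(Algebra.adjoin k (Set.range N)).val.comp
    (MvPolynomial.aeval fun i => ⟨N i, Algebra.subset_adjoin ⟨i, rfl⟩⟩), by simp⟩

theorem rk2 (H : Matrix (Fin 3) (Fin 3) k) (i j : Fin 3) (h : H i i * H j j ≠ H i j * H j i) :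
    2 ≤ H.rank := by
  have := Matrix.rank_of_isUnit (H.submatrix ![i, j] ![i, j]) ((Matrix.isUnit_iff_isUnit_det _).2
    (by rw [Matrix.det_fin_two]; simpa [sub_eq_zero] using h))
  exact this.ge.trans (Matrix.rank_submatrix_le ..)

end Pool.Agent.Lib.MP_02ae3d_ag
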