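import Pool.Agent.Lib.MP_02ae3d_ag.H11D

set_option autoImplicit false
set_option linter.unusedSectionVars false
set_option maxHeartbeats 400000

namespace Pool.Agent.Lib.MP_02ae3d_ag.H11
open Module Sum
open LinearMap hiding inl inr

def qa : Fin 6 → Fin 3 := ![0, 0, 0, 1, 1, 2]
def qb : Fin 6 → Fin 3 := ![0, 1, 2, 1, 2, 2]
def q2 : Fin 3 → Fin 3 → Fin 6 := ![![0, 1, 2], ![1, 3, 4], ![2, 4, 5]]
def ca : Fin 10 → Fin 3 := ![0, 0, 0, 0, 0, 0, 1, 1, 1, 2]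
def cb : Fin 10 → Fin 3 := ![0, 0, 0, 1, 1, 2, 1, 1, 2, 2]
def cc : Fin 10 → Fin 3 := ![0, 1, 2, 1, 2, 2, 1, 2, 2, 2]
def c3 : Fin 3 → Fin 6 → Fin 10 := ![![0, 1, 2, 3, 4, 5], ![1, 3, 4, 6, 7, 8], ![2, 4, 5, 7, 8, 9]]

theorem qq {α : Type} (f : Fin 3 → Fin 3 → α) (h : ∀ i j, f i j = f j i) (l m : Fin 3) :
    f (qa (q2 l m)) (qb (q2 l m)) = f l m := by
  fin_cases l <;> fin_cases m <;> first | rfl | exact h _ _

theorem ccc {R : Type} [CommRing R] (f : Fin 3 → R) (l : Fin 3) (j : Fin 6) :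
    f (ca (c3 l j)) * f (cb (c3 l j)) * f (cc (c3 l j)) = f l * (f (qa j) * f (qb j)) := by
  fin_cases l <;> fin_cases j <;> simp [ca, cb, cc, c3, qa, qb] <;> ring

abbrev I := Unit ⊕ Fin 3 ⊕ Fin 6 ⊕ Fin 4

def deg : I → ℕ
  | inl _ => 0
  | inr (inl _) => 1
  | inr (inr (inl _)) => 2
  | inr (inr (inr _)) => 3

variable {k : Type} [Field k] [IsAlgClosed k] [CharZero k]

/-- the graded algebra given by four functionals on cubic forms -/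
def T (G : Fin 4 → Fin 10 → k) (l : Fin 3) : Matrix I I k
  | inr (inl i), inl _ => if l = i then 1 else 0
  | inr (inr (inl i)), inr (inl j) => if q2 l j = i then 1 else 0
  | inr (inr (inr a)), inr (inr (inl j)) => G a (c3 l j)
  | _, _ => 0

def SmT (G : Fin 4 → Fin 10 → k) : Prop := Sm (T G 0).toLin' (T G 1).toLin' (T G 2).toLin'

theorem T_deg (G : Fin 4 → Fin 10 → k) (l : Fin 3) (i j : I) (h : deg i ≠ deg j + 1) :
    T G l i j = 0 := by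
  rcases i with _ | _ | _ | _ <;> rcases j with _ | _ | _ | _ <;> first | rfl | simp [deg] at h

theorem T_cl {G : Fin 4 → Fin 10 → k} (h : G ∈ cl k {G | SmT G}) : SmT G := by
  have p0 : ∀ l i j, IsP k fun G : Fin 4 → Fin 10 → k => T G l i j := fun l i j => by
    rcases i with _ | _ | _ | a <;> rcases j with _ | _ | j | _ <;> simp only [T] <;>
      first | exact .const _ | exact (IsP.id.ap a).ap (c3 l j)
  have p : ∀ l, IsP k fun G : Fin 4 → Fin 10 → k => (T G l).toLin' := fun l =>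
    IsP.lin (Φ := (T · l)) (Matrix.toLin' (R := k)).toLinearMap (.pi fun i => .pi (p0 l i))
  exact ((p 0).mk ((p 1).mk (p 2))).map_cl (fun a ha => ha) h

variable {B : Type} [AddCommGroup B] [Module k B] [FiniteDimensional k B]

theorem T_gr (b : Basis I k B) {X : Fin 3 → End k B} {G : Fin 4 → Fin 10 → k}
    (h1 : ∀ l, X l (b (inl ())) = b (inr (inl l)))
    (h2 : ∀ l j, X l (b (inr (inl j))) = b (inr (inr (inl (q2 l j)))))
    (h3 : ∀ l j a, b.repr (X l (b (inr (inr (inl j))))) (inr (inr (inr a))) = G a (c3 l j))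
    (l : Fin 3) (i j : I) (h : deg j ≤ 1 ∨ deg j + 1 ≤ deg i) :
    toMatrix b b (X l) i j = T G l i j := by
  rcases i with _ | _ | _ | _ <;> rcases j with _ | _ | _ | _ <;> simp [deg] at h <;>
    simp [toMatrix_apply, T, h1, h2, h3, Finsupp.single_apply]

/-- the fat point with Hilbert function `(1,3,3)` -/
def N (Q : Fin 3 → Fin 3 → Fin 3 → k) (l : Fin 3) : End k (k × (Fin 3 → k) × (Fin 3 → k)) where
  toFun v := (0, Pi.single l v.1, fun a => ∑ j, v.2.1 j * Q a l j)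
  map_add' u v := by ext <;> simp [Pi.single_add, add_mul, Finset.sum_add_distrib]
  map_smul' c v := by ext <;> simp [Pi.single_apply, Finset.mul_sum, mul_assoc]

theorem NN (Q : Fin 3 → Fin 3 → Fin 3 → k) (l m : Fin 3) (v) :
    N Q l (N Q m v) = (0, 0, fun a => v.1 * Q a l m) := by
  simp [N, Pi.single_apply]

theorem fat {Q : Fin 3 → Fin 3 → Fin 3 → k} (hQ : ∀ a i j, Q a i j = Q a j i) :
    Sm (N Q 0) (N Q 1) (N Q 2) := by
  obtain ⟨φ, hφ⟩ := ex_phi (N Q) fun i j => LinearMap.ext fun v => by simp [NN, hQ _ i j]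
  let L : (Fin 6 → k) →ₗ[k] (Fin 3 → k) := Matrix.toLin' (.of fun a j => Q a (qa j) (qb j))
  have k1 : ∀ i j, ∃ c : Fin 6 → k, c ≠ 0 ∧ L c = 0 ∧ c i = 0 ∧ c j = 0 := fun i j => by
    obtain ⟨c, h, c0⟩ := (Submodule.ne_bot_iff _).1 (ker_ne_bot_of_finrank_lt
      (f := L.prod ((proj i : (Fin 6 → k) →ₗ[k] k).prod (proj j))) (by simp))
    exact ⟨c, c0, by simpa using h⟩
  obtain ⟨c, hc, h⟩ : ∃ c, L c = 0 ∧ (4 * c 0 * c 3 ≠ c 1 ^ 2 ∨ 4 * c 0 * c 5 ≠ c 2 ^ 2 ∨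
      4 * c 3 * c 5 ≠ c 4 ^ 2) := by
    by_contra a
    push Not at a
    obtain ⟨c, c0, c1, c2, c3⟩ := k1 0 3
    obtain ⟨e, e0, e1, e2, e3⟩ := k1 0 5
    have a1 := a c c1
    have a2 := a e e1
    have a3 := (a (c + e) (by simp [c1, e1])).2.2
    simp [c2, c3, e2, e3, eq_comm (a := (0 : k))] at a1 a2
    simp [c2, c3, e2, e3, a1, a2] at a3
    rcases a3 with a3 | a3
    · exact e0 (funext fun i => by fin_cases i <;> simp [*])
    · exact c0 (funext fun i => by fin_cases i <;> simp [*])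
  rw [← hφ, ← hφ, ← hφ]
  refine H88.typeA φ fun p _ => ⟨∑ j, c j • (.X (qa j) * .X (qb j)), LinearMap.ext fun v => ?_,
    .inr ?_⟩
  · simp only [map_sum, map_smul, map_mul, hφ, LinearMap.sum_apply, LinearMap.smul_apply,
      End.mul_apply, NN]
    ext a
    · simp [Prod.fst_sum]
    · simp [Prod.fst_sum, Prod.snd_sum]
    · simpa [Prod.snd_sum, L, Matrix.mulVec, dotProduct, Finset.mul_sum, mul_comm, mul_left_comm]
        using congrArg (v.1 * ·) (congrFun hc a)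
  · rcases h with h | h | h
    exacts [rk2 _ 0 1 (by simp [Fin.sum_univ_six, qa, qb]; grind),
      rk2 _ 0 2 (by simp [Fin.sum_univ_six, qa, qb]; grind),
      rk2 _ 1 2 (by simp [Fin.sum_univ_six, qa, qb]; grind)]

abbrev Par (k : Type) := (Fin 7 → Fin 3 → k) × (Fin 4 → Fin 7 → k)

/-- four combinations of seven cubes -/
def Ph (w : Par k) : Fin 4 → Fin 10 → k := fun a c =>
  ∑ i, w.2 a i * (w.1 i (ca c) * w.1 i (cb c) * w.1 i (cc c))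

def M6 (p : Fin 6 → Fin 3 → k) : Matrix (Fin 6) (Fin 6) k := .of fun i j => p i (qa j) * p i (qb j)

def U4 (u : Fin 4 → Fin 7 → k) : Matrix (Fin 4) (Fin 4) k := .of fun a c => u a (c.castAdd 3)

theorem smooth {p : Fin 7 → Fin 3 → k} {u : Fin 4 → Fin 7 → k}
    (hp : ∀ i : Fin 7, (M6 fun j => p (i.succAbove j)).det ≠ 0) (h0 : ∀ i, u 0 i ≠ 0)
    (hu : (U4 u).det ≠ 0) : SmT (Ph (p, u)) := by
  obtain ⟨ρ, r1, i0, r0⟩ := Fintype.not_linearIndependent_iff.1 fun h : LinearIndependent k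
    fun (i : Fin 7) (j : Fin 6) => p i (qa j) * p i (qb j) => by
      simpa using h.fintype_card_le_finrank
  have r2 : ∀ i, ρ i ≠ 0 := fun i e => r0 (by
    rw [Fin.sum_univ_succAbove _ i, e, zero_smul, zero_add] at r1
    have := Matrix.eq_zero_of_vecMul_eq_zero (hp i) (v := fun j => ρ (i.succAbove j))
      (funext fun j => by simpa [Matrix.vecMul, dotProduct, M6] using congrFun r1 j)
    induction i0 using Fin.succAboveCases i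
    exacts [e, congrFun this _])
  obtain ⟨s, s0, s1⟩ : ∃ s : Fin 7 → k, (∀ i, s i ≠ 0) ∧ ∀ i, u 0 i = ρ i * s i :=
    ⟨fun i => u 0 i / ρ i, fun i => div_ne_zero (h0 i) (r2 i), fun i => by field_simp [r2 i]⟩
  let q : Fin 3 → Fin 7 → k := fun l i => s i * p i l
  let r : Fin 4 → Fin 7 → k := fun a i => u a i / s i ^ 3
  let Q : Fin 4 → Fin 3 → Fin 3 → k := fun a l m => ∑ i, r a i * (q l i * q m i)
  have sy : ∀ a l m, Q a l m = Q a m l := fun a l m => by simp [Q, mul_comm]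
  have Q0 : ∀ j, Q 0 (qa j) (qb j) = 0 := fun j => by
    refine (Finset.sum_congr rfl fun i _ => ?_).trans (by simpa using congrFun r1 j)
    simp only [r, q, s1]
    field_simp [s0 i]
  let X := fun l => (N (fun a => Q a.succ) l).prodMap (mulLeft k (q l))
  let β : Fin 4 → Fin 7 → k := fun a => ∑ c : Fin 4, (U4 u)⁻¹ c a •
    Pi.single (c.castAdd 3) (s (c.castAdd 3) ^ 3)
  let b : I → (k × (Fin 3 → k) × (Fin 3 → k)) × (Fin 7 → k) := Sum.elim (fun _ => ((1, 0, 0), 1))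
    (Sum.elim (fun l => ((0, Pi.single l 1, 0), q l)) (Sum.elim (fun j =>
      ((0, 0, fun a => Q a.succ (qa j) (qb j)), q (qa j) * q (qb j))) fun a => (0, β a)))
  let g : Fin 4 → ((k × (Fin 3 → k) × (Fin 3 → k)) × (Fin 7 → k)) →ₗ[k] k := fun a =>
    { toFun := fun v => ∑ i, r a i * v.2 i - v.1.1 * ∑ i, r a i -
        ∑ l, v.1.2.1 l * ∑ i, r a i * q l i - (Fin.cons 0 v.1.2.2 : Fin 4 → k) a
      map_add' := fun v w => by
        induction a using Fin.cases <;> simp [mul_add, add_mul, Finset.sum_add_distrib] <;> ring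
      map_smul' := fun c v => by
        induction a using Fin.cases <;> simp [mul_sub, Finset.mul_sum, mul_assoc, mul_left_comm] }
  have gb : ∀ a j, g a (b j) = if inr (inr (inr a)) = j then 1 else 0 := fun a j => by
    rcases j with _ | j | j | c
    · induction a using Fin.cases <;> simp [g, b]
    · induction a using Fin.cases <;> simp [g, b, Pi.single_apply]
    · induction a using Fin.cases
      · simpa [g, b] using Q0 j
      · simp [g, b, Q]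
    · have : ∑ i, r a i * β c i = (U4 u * (U4 u)⁻¹) a c := by
        simp only [β, Finset.sum_apply, Finset.mul_sum]
        rw [Finset.sum_comm]
        refine (Finset.sum_congr rfl fun e _ => ?_).trans Matrix.mul_apply.symm
        simp [Pi.single_apply, r, U4]
        field_simp [s0]
      rw [Matrix.mul_nonsing_inv _ (Ne.isUnit hu), Matrix.one_apply] at this
      induction a using Fin.cases <;> simpa [g, b] using this
  have li : LinearIndependent k b := Fintype.linearIndependent_iff.2 fun c h => by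
    have c3 : ∀ a, c (inr (inr (inr a))) = 0 := fun a => by
      simpa [gb] using congrArg (g a) h
    have c0 : c (inl ()) = 0 := by simpa [b, Prod.fst_sum] using congrArg (·.1.1) h
    have c1 : ∀ l, c (inr (inl l)) = 0 := fun l => by
      simpa [b, Prod.fst_sum, Prod.snd_sum, Pi.single_apply] using congrArg (·.1.2.1 l) h
    have c2 := Matrix.eq_zero_of_mulVec_eq_zero (hp 0) (v := fun j => c (inr (inr (inl j))))
      (funext fun i => mul_left_cancel₀ (pow_ne_zero 2 (s0 i.succ)) (by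
        have := congrArg (·.2 i.succ) h
        simp [b, Prod.snd_sum, c0, c1, c3, q] at this
        simp only [Matrix.mulVec, dotProduct, Finset.mul_sum, Pi.zero_apply, mul_zero]
        exact (Finset.sum_congr rfl fun j _ => by simp [M6]; ring).trans this))
    rintro (_ | _ | j | _)
    exacts [c0, c1 _, congrFun c2 j, c3 _]
  let b' := basisOfLinearIndependentOfCardEqFinrank li (by simp)
  have e : ∀ j, b' j = b j := by simp [b']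
  have rg : ∀ a v, b'.repr v (inr (inr (inr a))) = g a v := fun a v =>
    congr($(b'.ext (f₁ := b'.coord (inr (inr (inr a)))) (f₂ := g a) fun j => by
      rw [e, gb, ← e]; simp [Finsupp.single_apply, eq_comm]) v)
  refine sm_gr deg (fun l i j h => T_gr b' (X := X) ?_ ?_ ?_ l i j (.inr h)) (T_deg _)
    ((sm_mat b').1 (sm_prod (Y := fun l => mulLeft k (q l)) (fat fun a => sy a.succ) (sm_diag q)))
  · simp [e, b, X, N, Pi.zero_def]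
  · intro l j
    simp [e, b, X, N, Pi.single_apply, qq _ (sy _), qq (fun l m => q l * q m) fun _ _ => mul_comm ..]
  · intro l j a
    rw [rg, e]
    have : ∑ i, r a i * (q l i * (q (qa j) i * q (qb j) i)) = Ph (p, u) a (c3 l j) :=
      Finset.sum_congr rfl fun i _ => by
        rw [ccc (p i)]
        simp only [r, q]
        field_simp [s0 i]
    induction a using Fin.cases <;> simpa [g, b, X, N] using this

theorem Ph_isP : IsP k (Ph (k := k)) := .pi fun a => .pi fun _ => .sum _ fun i =>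
  ((IsP.id.snd.ap a).ap i).mulk ((((IsP.id.fst.ap i).ap _).mulk ((IsP.id.fst.ap i).ap _)).mulk
    ((IsP.id.fst.ap i).ap _))

theorem Ph_cl (w : Par k) : Ph w ∈ cl k {G | SmT G} := by
  let p6 : Fin 6 → Fin 3 → k := ![![1, 0, 0], ![0, 1, 0], ![0, 0, 1], ![1, 1, 0], ![1, 0, 1], ![0, 1, 1]]
  refine gen_cl (ι := Fin 7 ⊕ Fin 7 ⊕ Unit) (h := Sum.elim
    (fun i w => (M6 fun j => w.1 (i.succAbove j)).det) (Sum.elim (fun i w => w.2 0 i)
      fun _ w => (U4 w.2).det)) ?_ ?_ Ph_isP (fun w h => subset_cl ?_) w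
  rotate_right
  · simp only [Sum.forall, Sum.elim_inl, Sum.elim_inr] at h
    exact smooth h.1 h.2.1 (h.2.2 ())
  · rintro (i | i | i)
    exacts [.mdet (Φ := fun w : Par k => M6 fun j => w.1 (i.succAbove j)) fun a c =>
      ((IsP.id.fst.ap (i.succAbove a)).ap (qa c)).mulk ((IsP.id.fst.ap (i.succAbove a)).ap (qb c)),
      (IsP.id.snd.ap 0).ap i, .mdet (Φ := fun w : Par k => U4 w.2) fun a c =>
        (IsP.id.snd.ap a).ap (c.castAdd 3)]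
  · rintro (i | i | i)
    · refine ⟨(i.insertNth 0 p6, 0), fun h => ?_⟩
      simp only [Sum.elim_inl, Fin.insertNth_apply_succAbove] at h
      obtain ⟨v, v0, hv⟩ := Matrix.exists_mulVec_eq_zero_iff.2 h
      simp [funext_iff, Fin.forall_fin_succ, Matrix.mulVec, dotProduct, Fin.sum_univ_six, M6, p6,
        qa, qb] at hv v0
      grind
    · exact ⟨(0, 1), by simp⟩
    · refine ⟨(0, fun a i => if a.castAdd 3 = i then 1 else 0), ?_⟩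
      have : U4 (fun a i => if a.castAdd 3 = i then (1 : k) else 0) = 1 := by
        ext a c
        simp [U4, Matrix.one_apply, Fin.ext_iff]
      simp [this]

def p0 : Fin 7 → Fin 3 → ℤ :=
  ![![1, 0, 0], ![0, 1, 0], ![0, 0, 1], ![0, 1, 1], ![1, 1, 0], ![1, 1, 1], ![1, 0, 1]]

def u0 : Fin 4 → Fin 7 → ℤ := ![![0, 1, 0, 1, 0, 0, -1], ![0, 0, -1, -1, 0, 0, 0],
  ![0, 1, 0, 1, 1, 1, -1], ![1, 0, 0, 1, 0, 0, 0]]

def RL : List (List ℤ) := [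
  [0,0,0,0,0,0,0,0,0,0,0,0,0,0,0,0,0,0,0,0,0,0,0,0,0,0,0,0,0,0,0,0,0,0,0,0,0,0,0,0],
  [0,0,0,0,0,0,0,0,0,0,0,1,0,-1,0,0,0,0,0,0,0,0,0,0,0,0,0,0,0,0,0,1,0,-1,0,0,0,0,0,0],
  [0,0,0,0,0,0,0,0,0,0,0,1,0,-1,0,0,0,0,0,0,0,0,0,0,0,0,0,0,0,0,0,0,1,0,0,-1,0,0,0,0],
  [0,-1,0,1,0,0,0,-1,1,0,0,-1,0,1,0,0,0,0,0,0,0,0,0,0,0,0,0,0,0,0,0,0,0,0,0,0,0,1,-1,0],
  [0,0,0,0,0,0,0,0,0,0,0,0,0,0,0,0,0,0,0,0,0,0,0,0,0,0,0,0,0,0,0,0,0,0,0,0,0,0,0,0],
  [0,0,0,0,0,0,0,0,0,0,0,0,0,0,0,0,0,0,0,0,0,0,0,0,0,0,0,0,0,0,0,0,0,0,0,0,0,0,0,0],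
  [0,0,0,0,0,0,0,0,0,0,0,-1,1,1,0,-1,0,0,0,0,0,0,0,0,0,0,0,0,0,0,0,0,0,0,0,0,0,0,0,0],
  [0,0,0,0,0,0,0,0,0,0,0,0,0,0,0,0,0,1,-1,0,0,0,0,0,0,0,0,0,0,0,0,0,0,0,0,0,0,1,-1,0],
  [0,0,0,0,0,0,0,0,0,0,0,0,0,0,0,0,0,0,0,0,0,0,0,0,0,0,0,0,0,0,0,0,0,0,0,0,0,0,0,0],
  [0,0,0,0,0,0,0,0,0,0,0,1,0,-1,0,0,0,0,0,0,0,0,0,0,0,0,0,0,0,0,0,0,0,0,0,0,0,0,0,0],
  [0,0,0,0,0,0,0,0,0,0,0,0,0,0,0,0,0,0,0,0,0,0,0,0,0,0,0,0,0,0,0,0,0,0,0,0,0,0,0,0],
  [0,0,0,0,0,0,0,0,0,0,0,0,0,0,0,0,0,0,0,0,0,0,0,0,0,0,0,0,0,0,0,0,0,0,0,0,0,-1,1,0],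
  [0,-1,1,1,0,-1,0,-1,1,0,0,0,0,0,0,0,0,0,0,0,0,1,-1,-1,0,1,0,1,-1,0,0,0,0,0,0,0,0,0,0,0],
  [0,0,0,0,0,0,0,0,0,0,0,0,0,0,0,0,0,0,0,0,0,0,0,0,0,0,0,0,0,0,0,0,0,0,0,0,0,0,0,0],
  [0,0,0,0,0,0,0,0,0,0,0,0,0,0,0,0,0,0,0,0,0,0,0,0,0,0,0,0,0,0,0,0,0,0,0,0,0,0,0,0],
  [0,0,-1,0,0,1,0,0,0,0,0,0,0,0,0,0,0,0,0,0,0,0,1,0,0,-1,0,0,0,0,0,0,0,0,0,0,0,0,0,0],
  [0,0,0,0,0,0,0,-1,1,0,0,0,0,0,0,0,0,0,0,0,0,0,0,0,0,0,0,1,-1,0,0,0,0,0,0,0,0,0,0,0],
  [0,0,0,0,0,0,0,0,0,0,0,0,0,0,0,0,0,0,0,0,0,0,0,0,0,0,0,0,0,0,0,0,0,0,0,0,0,0,0,0],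
  [0,0,-1,0,0,1,0,0,0,0,0,-1,0,1,0,0,0,0,0,0,0,0,0,0,0,0,0,0,0,0,0,0,0,0,0,0,0,0,0,0],
  [0,0,0,0,0,0,0,1,-1,0,0,0,0,0,0,0,0,0,0,0,0,0,0,0,0,0,0,0,0,0,0,0,0,0,0,0,0,-1,1,0],
  [0,0,0,0,0,0,0,0,0,0,0,0,0,0,0,0,0,0,0,0,0,0,0,0,0,0,0,0,0,0,0,0,0,0,0,0,0,0,0,0],
  [1,-1,-2,0,1,1,0,0,0,0,0,-2,0,2,0,0,0,0,0,0,0,0,0,0,0,0,0,0,0,0,0,0,0,0,0,0,0,0,0,0],
  [0,-1,0,0,1,0,1,-1,0,0,0,-1,0,1,0,0,0,0,0,0,0,0,0,0,0,0,0,0,0,0,0,0,0,0,0,0,0,-1,1,0],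
  [0,0,1,0,1,-2,0,0,-1,1,0,1,0,-1,0,0,0,0,0,0,0,0,0,0,0,0,0,0,0,0,0,0,0,0,0,0,0,1,-1,0],
  [0,0,0,0,-1,0,0,0,1,0,0,1,0,-1,0,0,0,0,0,0,0,0,0,0,0,0,0,0,0,0,0,0,0,0,0,0,0,2,-2,0],
  [0,1,0,0,-1,0,0,0,0,0,0,1,0,-1,0,0,0,0,0,0,0,0,0,0,0,0,0,0,0,0,0,0,0,0,0,0,0,0,0,0],
  [0,0,0,0,1,0,0,1,-1,0,0,-1,0,1,0,0,0,0,0,0,0,0,0,0,0,0,0,0,0,0,0,0,0,0,0,0,0,-1,1,0],
  [0,0,-1,0,-1,2,0,-1,1,0,0,-1,0,1,0,0,0,0,0,0,0,0,0,0,0,0,0,0,0,0,0,0,0,0,0,0,0,1,-1,0],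
  [0,0,0,0,0,0,0,0,0,0,1,0,-1,-1,1,0,0,0,0,0,0,0,0,0,0,0,0,0,0,0,0,0,0,0,0,0,0,0,0,0],
  [0,0,0,0,0,0,0,0,0,0,0,0,0,-1,1,0,1,-1,0,0,0,0,0,0,0,0,0,0,0,0,0,0,0,0,0,0,0,1,-1,0],
  [0,0,0,0,0,0,0,0,0,0,0,1,-1,-1,1,0,0,-1,0,1,0,0,0,0,0,0,0,0,0,0,0,0,0,0,0,0,0,-2,2,0],
  [0,0,0,0,0,0,0,0,0,0,0,-1,0,1,-1,0,0,1,0,0,0,0,0,0,0,0,0,0,0,0,0,0,0,0,0,0,0,-1,1,0],
  [0,0,0,0,0,0,0,0,0,0,0,0,0,1,-1,0,0,0,0,0,0,0,0,0,0,0,0,0,0,0,0,0,0,0,0,0,0,0,0,0],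
  [0,0,0,0,0,0,0,0,0,0,0,1,0,-1,1,0,0,0,0,0,0,0,0,0,0,0,0,0,0,0,0,0,0,0,0,0,0,0,0,0],
  [0,0,0,0,0,0,0,0,0,0,0,-1,1,1,-1,0,0,0,0,0,0,0,0,0,0,0,0,0,0,0,0,0,0,0,0,0,0,0,0,0],
  [0,1,-2,-1,0,2,0,1,-1,0,0,-2,0,2,0,0,0,0,0,0,1,-2,0,1,1,-1,0,-1,1,0,0,0,0,0,0,0,0,0,0,0],
  [0,-2,1,2,0,-1,0,-1,1,0,0,-1,0,1,0,0,0,0,0,0,0,1,-1,-2,1,1,1,0,-1,0,0,0,0,0,0,0,0,-1,1,0],
  [0,0,1,0,0,-1,0,0,0,0,0,1,0,-1,0,0,0,0,0,0,0,0,0,0,1,-1,0,0,-1,1,0,0,0,0,0,0,0,1,-1,0],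
  [0,0,-1,0,0,1,0,0,0,0,0,1,0,-1,0,0,0,0,0,0,0,0,1,0,-1,-1,0,0,1,0,0,0,0,0,0,0,0,2,-2,0],
  [0,2,-1,-2,0,1,0,2,-2,0,0,1,0,-1,0,0,0,0,0,0,0,-1,1,2,-1,-1,0,-2,2,0,0,0,0,0,0,0,0,0,0,0],
  [0,0,1,0,0,-1,0,2,-2,0,0,-1,0,1,0,0,0,0,0,0,0,0,-1,0,1,1,0,-1,1,0,0,0,0,0,0,0,0,-1,1,0],
  [0,0,-1,0,0,1,0,-2,2,0,0,-1,0,1,0,0,0,0,0,0,0,0,0,0,-1,1,0,1,-1,0,0,0,0,0,0,0,0,1,-1,0],
  [0,0,0,0,0,0,0,0,0,0,0,1,0,-1,0,0,0,0,0,0,0,0,0,0,0,0,0,0,0,0,1,0,0,-1,1,-1,0,0,0,0],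
  [0,0,0,0,0,0,0,0,0,0,0,0,0,0,0,0,0,0,0,0,0,0,0,0,0,0,0,0,0,0,0,0,0,-1,1,0,1,-2,1,0],
  [0,0,0,0,0,0,0,0,0,0,0,0,0,0,0,0,0,0,0,0,0,0,0,0,0,0,0,0,0,0,0,0,0,0,1,-1,0,1,-2,1],
  [0,0,0,0,0,0,0,0,0,0,0,1,0,-1,0,0,0,0,0,0,0,0,0,0,0,0,0,0,0,0,0,0,0,0,-1,0,0,2,-1,0],
  [0,0,0,0,0,0,0,0,0,0,0,0,0,0,0,0,0,0,0,0,0,0,0,0,0,0,0,0,0,0,0,0,0,1,-1,0,0,0,0,0],
  [0,0,0,0,0,0,0,0,0,0,0,-1,0,1,0,0,0,0,0,0,0,0,0,0,0,0,0,0,0,0,0,0,0,0,1,0,0,0,0,0],
  [0,0,0,0,0,0,0,0,0,0,0,0,0,0,0,0,0,0,0,0,0,0,0,0,0,0,0,0,0,0,0,0,0,0,-1,1,0,0,0,0]]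

def Rp (x : Fin 4 × Fin 10) (i : Fin 7) (l : Fin 3) : ℤ :=
  (RL.getD (3 * i + l) []).getD (10 * x.1 + x.2) 0

def Ru (x : Fin 4 × Fin 10) (a : Fin 4) (i : Fin 7) : ℤ :=
  (RL.getD (21 + 7 * a + i) []).getD (10 * x.1 + x.2) 0

/-- the difference quotient of `Ph` -/
def dq {R : Type} [CommRing R] (p P δ : Fin 7 → Fin 3 → R) (u ε : Fin 4 → Fin 7 → R) (a : Fin 4)
    (c : Fin 10) (i : Fin 7) : R :=
  ε a i * (P i (ca c) * P i (cb c) * P i (cc c)) + u a i * (δ i (ca c) * P i (cb c) * P i (cc c) +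
    p i (ca c) * δ i (cb c) * P i (cc c) + p i (ca c) * p i (cb c) * δ i (cc c))

theorem cert : ∀ x a c, ∑ i, dq p0 p0 (Rp x) u0 (Ru x) a c i = if x = (a, c) then 1 else 0 := by
  decide +kernel

theorem smT (G : Fin 4 → Fin 10 → k) : SmT G := by
  let p : Fin 7 → Fin 3 → k := fun i l => p0 i l
  let u : Fin 4 → Fin 7 → k := fun a i => u0 a i
  refine T_cl (dom (Ph (p, u)) (fun y => ?_) G)
  let δ : Fin 7 → Fin 3 → k := fun i l => ∑ x : Fin 4 × Fin 10, y x.1 x.2 * Rp x i l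
  let ε : Fin 4 → Fin 7 → k := fun a i => ∑ x : Fin 4 × Fin 10, y x.1 x.2 * Ru x a i
  refine ⟨fun t a c => ∑ i, dq p (p + t • δ) δ u ε a c i, .pi fun a => .pi fun c => .sum _ fun i => ?_,
    ?_, fun t => ?_⟩
  · simp only [dq, Pi.add_apply, Pi.smul_apply]
    fun_prop
  · ext a c
    have : ∀ i, dq p (p + (0 : k) • δ) δ u ε a c i =
        ∑ x : Fin 4 × Fin 10, y x.1 x.2 * (dq p0 p0 (Rp x) u0 (Ru x) a c i : ℤ) := fun i => by
      simp only [dq, δ, ε, p, u, zero_smul, add_zero, Finset.sum_mul, Finset.mul_sum, mul_add,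
        ← Finset.sum_add_distrib]
      exact Finset.sum_congr rfl fun x _ => by push_cast; ring
    simp only [this]
    rw [Finset.sum_comm]
    simp [← Finset.mul_sum, ← Int.cast_sum, cert]
  · convert Ph_cl (p + t • δ, u + t • ε) using 1
    ext a c
    simp only [Ph, dq, Pi.add_apply, Pi.smul_apply, smul_eq_mul, Finset.mul_sum,
      ← Finset.sum_add_distrib]
    exact Finset.sum_congr rfl fun i _ => by ring

variable {A : Type} [CommRing A] [Algebra k A] [FiniteDimensional k A] {m : Ideal A} {x y z : A}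

/-- algebras with Hilbert function `(1,3,6,4)` are smoothable -/
theorem vc4 (L : Loc k m) (G : Gen k m x y z) (h4 : m ^ 4 = ⊥) (hd : finrank k A = 14)
    (hq : ∀ l0 l1 l2 a b c d e f : k, l0 • x + l1 • y + l2 • z + a • x ^ 2 + b • y ^ 2 + c • z ^ 2 +
      d • (x * y) + e • (x * z) + f • (y * z) ∈ m ^ 3 →
      l0 = 0 ∧ l1 = 0 ∧ l2 = 0 ∧ a = 0 ∧ b = 0 ∧ c = 0 ∧ d = 0 ∧ e = 0 ∧ f = 0) (a b c : A) :
    Sm (Algebra.lmul k A a) (Algebra.lmul k A b) (Algebra.lmul k A c) := by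
  refine H88.adj _ ?_ (G.nak L) a b c
  let n : Fin 3 → A := ![x, y, z]
  have hn : ∀ l, n l ∈ m ^ 1 := fun l => p1 (by fin_cases l; exacts [G.1, G.2.1, G.2.2.1])
  let b0 : Unit ⊕ Fin 3 ⊕ Fin 6 → A := Sum.elim (fun _ => 1) (Sum.elim n fun j => n (qa j) * n (qb j))
  let m3 := (m ^ 3).restrictScalars k
  have low : ∀ c : Unit ⊕ Fin 3 ⊕ Fin 6 → k, ∑ j, c j • b0 j ∈ m ^ 3 → ∀ j, c j = 0 := fun c h => by
    have c0 : c (inl ()) = 0 := by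
      by_contra e
      simp only [Fintype.sum_sum_type, b0, Sum.elim_inl, Sum.elim_inr] at h
      have := sm (c (inl ()))⁻¹ ((m.add_mem_iff_left (add_mem (m.sum_mem fun j _ => sm _ (by
        simpa using hn j)) (m.sum_mem fun j _ => sm _ (m.mul_mem_right _ (by simpa using hn _))))).1
        (d1 h (by omega)))
      simp [smul_smul, e, ← Ideal.eq_top_iff_one] at this
      rw [this, Ideal.top_pow] at h4
      haveI := (Submodule.subsingleton_iff A).1 (subsingleton_of_bot_eq_top h4.symm)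
      simp [finrank_zero_of_subsingleton] at hd
    have := hq (c (inr (inl 0))) (c (inr (inl 1))) (c (inr (inl 2))) (c (inr (inr 0)))
      (c (inr (inr 3))) (c (inr (inr 5))) (c (inr (inr 1))) (c (inr (inr 2))) (c (inr (inr 4))) (by
        convert h using 1
        simp [b0, n, c0, Fin.sum_univ_six, Fin.sum_univ_three, qa, qb, sq]
        abel)
    rintro (_ | j | j)
    · exact c0
    all_goals fin_cases j <;> simp [this]
  have sp : Submodule.span k (Set.range b0) ⊔ m3 = ⊤ := Submodule.eq_top_iff'.2 fun w => by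
    obtain ⟨α, h0⟩ := L.1 w
    obtain ⟨a1, a2, a3, h1⟩ := G.2.2.2 _ h0
    obtain ⟨s, s1, t, t1, γ, h2⟩ := G.dec 1 _ h1
    obtain ⟨b1, b2, b3, h3⟩ := G.2.2.2 s (by simpa using s1)
    obtain ⟨c1, c2, c3, h5⟩ := G.2.2.2 t (by simpa using t1)
    refine Submodule.mem_sup.2 ⟨_, (Submodule.mem_span_range_iff_exists_fun k).2 ⟨Sum.elim (fun _ => α)
      (Sum.elim ![a1, a2, a3] ![b1, b2 + c1, b3, c2, c3, γ]), rfl⟩, _, add_mem (add_mem h2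
        (mp 3 (hn 0) h3 le_rfl)) (mp 3 (hn 1) h5 le_rfl), ?_⟩
    simp [b0, n, Fin.sum_univ_six, Fin.sum_univ_three, qa, qb, Algebra.smul_def]
    ring
  obtain ⟨f, hf⟩ := exists_linearIndependent_of_le_finrank (R := k) (M := m3) (n := 4) (by
    have a := Submodule.finrank_add_le_finrank_add_finrank (Submodule.span k (Set.range b0)) m3
    have b := finrank_range_le_card (R := k) b0
    rw [sp] at a
    simp [hd, Set.finrank] at a b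
    omega)
  let b1 : I → A := Sum.elim (fun _ => 1) (Sum.elim n (Sum.elim (fun j => n (qa j) * n (qb j))
    fun a => f a))
  let ι : Unit ⊕ Fin 3 ⊕ Fin 6 → I := Sum.map (·) (Sum.map (·) inl)
  have key : ∀ c : I → k, ∑ j, c j • b1 j ∈ m ^ 3 → ∀ j, c (ι j) = 0 := fun c h => low (c ∘ ι) (by
    convert sub_mem h (Ideal.sum_mem _ fun a (_ : a ∈ Finset.univ) =>
      sm (c (inr (inr (inr a)))) (f a).2) using 1
    simp [b0, b1, ι]
    abel)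
  have li : LinearIndependent k b1 := Fintype.linearIndependent_iff.2 fun c h => by
    have e := key c (h ▸ zero_mem _)
    have e0 : c (inl ()) = 0 := e (inl ())
    have e1 : ∀ j, c (inr (inl j)) = 0 := fun j => e (inr (inl j))
    have e2 : ∀ j, c (inr (inr (inl j))) = 0 := fun j => e (inr (inr j))
    rintro (_ | _ | _ | a)
    exacts [e0, e1 _, e2 _, Fintype.linearIndependent_iff.1 hf (fun a => c (inr (inr (inr a))))
      (Subtype.ext (by simpa [b1, e0, e1, e2] using h)) a]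
  let b' := basisOfLinearIndependentOfCardEqFinrank li (by simp [hd])
  have e : ∀ j, b' j = b1 j := by simp [b']
  let X := fun l => Algebra.lmul k A (n l)
  let G' : Fin 4 → Fin 10 → k := fun a c => b'.repr (n (ca c) * n (cb c) * n (cc c)) (inr (inr (inr a)))
  have gr := T_gr b' (X := X) (G := G') (by simp [e, b1, X])
    (fun l j => by simp [e, b1, X, qq (fun l m => n l * n m) fun _ _ => mul_comm ..])
    fun l j a => by simp [e, b1, X, G', ccc n]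
  have : ∀ l, toMatrix b' b' (X l) = T G' l := fun l => Matrix.ext fun i j => by
    by_cases h : deg j ≤ 1 ∨ deg j + 1 ≤ deg i
    · exact gr l i j h
    rw [T_deg _ _ _ _ (by omega), toMatrix_apply]
    rcases j with _ | _ | j | a
    · simp [deg] at h
    · simp [deg] at h
    · have := key (b'.repr (X l (b' (inr (inr (inl j)))))) (by
        simp only [← e, b'.sum_repr]
        simpa [e, b1, X] using mp 3 (hn l) (mp 2 (hn (qa j)) (hn (qb j)) le_rfl) le_rfl)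
      rcases i with _ | i | i | _
      exacts [this (inl ()), this (inr (inl i)), this (inr (inr i)), by simp [deg] at h]
    · have := mp 4 (hn l) (f a).2 le_rfl
      rw [h4, Ideal.mem_bot] at this
      simp [e, b1, X, this]
  exact (sm_mat b' (X := X)).2 (by simpa only [this, SmT] using smT G')

end Pool.Agent.Lib.MP_02ae3d_ag.H11
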