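import Pool.Agent.Lib.MP_02ae3d_ag.H88HC

set_option autoImplicit false
set_option linter.unusedSectionVars false

namespace Pool.Agent.Lib.MP_02ae3d_ag.H88
open MvPolynomial Module LinearMap H11

variable {k : Type} [Field k] [IsAlgClosed k] [CharZero k]
  {A : Type} [CommRing A] [Algebra k A] [FiniteDimensional k A] {π : P k →ₐ[k] A}

theorem Pres.dimI [Nontrivial A] (h : Pres π) (nq : ∀ c, π (qf c) ∈ nilradical A ^ 3 → c = 0) :
    10 + finrank k (T3' k A) ≤ finrank k A := by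
  have := rank_le ((Algebra.linearMap k A).coprod (π.toLinearMap ∘ₗ qf)) (T3' k A) fun d e => by
    have e : algebraMap k A d.1 + π (qf d.2) ∈ nilradical A ^ 3 := e
    have a : d.1 = 0 := c0 (A := A) ((add_mem_cancel_right (d1 (h.mem (p1 (qf_mem _))) (by omega))).1 (d1 e (by omega)))
    rw [a, map_zero, zero_add] at e
    exact Prod.ext a (nq _ e)
  simpa using this

theorem li_cases {T : Type} [AddCommGroup T] [Module k T] {a : End k T} (h : a ≠ 0) (b : End k T) :
    LinearIndependent k ![a, b] ∧ LinearIndependent k ![b, a] ∨ ∃ s : k, s • a = b :=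
  (em (LinearIndependent k ![a, b])).imp (fun h => ⟨h, LinearIndependent.pair_symm_iff.1 h⟩)
    fun a => by simpa [LinearIndependent.pair_iff' h] using a

/-- algebras with Hilbert function `(1,3,6,4)` are smoothable -/
def VC4 (k : Type) [Field k] : Prop := ∀ (A : Type) [CommRing A] [Algebra k A]
  [FiniteDimensional k A] (π : P k →ₐ[k] A), Pres π → (∀ c, π (qf c) ∈ nilradical A ^ 3 → c = 0) →
  nilradical A ^ 4 = ⊥ → finrank k A = 14 → SmA k A

theorem Pres.iD (h : Pres π) (nq : ∀ c, π (qf c) ∈ nilradical A ^ 3 → c = 0) :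
    ∃ i : (Fin 6 → k) × T3' k A →ₗ[k] A, (∀ t, i (0, t) = t) ∧ (∀ d, i d ∈ nilradical A ^ 2) ∧
      ∀ d, d.1 ≠ 0 → i d ∉ nilradical A ^ 3 := by
  let i : (Fin 6 → k) × T3' k A →ₗ[k] A := (Fintype.linearCombination k ![π (X 0 * X 0),
    π (X 1 * X 1), π (X 2 * X 2), π (X 0 * X 1), π (X 0 * X 2), π (X 1 * X 2)]).coprod
      (Submodule.subtype _)
  have hi : ∀ d, i d = π (qf ![0, 0, 0, d.1 0, d.1 1, d.1 2, d.1 3, d.1 4, d.1 5]) + d.2 :=
    fun d => by simp [i, Fintype.linearCombination_apply, Fin.sum_univ_succ, qf_apply, add_assoc]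
  refine ⟨i, by simp [i], fun d => ?_, fun d d0 e => d0 ?_⟩
  · have := h.mem (q2 ![0, 0, 0, d.1 0, d.1 1, d.1 2, d.1 3, d.1 4, d.1 5])
    rw [hi]
    exact add_mem (by simpa using this) (dn 2 (show d.2.1 ∈ nilradical A ^ 3 from d.2.2) (by omega))
  · rw [hi] at e
    have := nq _ ((add_mem_cancel_right (show d.2.1 ∈ nilradical A ^ 3 from d.2.2)).1 e)
    refine _root_.funext fun j => ?_
    fin_cases j
    exacts [congrFun this 3, congrFun this 4, congrFun this 5, congrFun this 6, congrFun this 7,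
      congrFun this 8]

theorem Pres.caseI [Nontrivial A] (h : Pres π)
    (nq : ∀ π' : P k →ₐ[k] A, Pres π' → ∀ c, π' (qf c) ∈ nilradical A ^ 3 → c = 0)
    (hd : finrank k A ≤ 13 ∨ finrank k A = 14 ∧ VC4 k)
    (next : ∀ (φ : P k →ₐ[k] End k A) (v : A), (∀ u, ∃ F, φ F v = u) → (∃ f, Two (φ f)) ∨
      (∀ i, IsNilpotent (φ (X i))) ∧ (∃ F ∉ M0 k ^ 3, φ F = 0) →
      Sm (φ (X 0)) (φ (X 1)) (φ (X 2))) : SmA k A := by
  have := h.dimI (nq π h)
  obtain ⟨i, i0, i2, i3⟩ := h.iD (nq π h)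
  have G := h.gen
  have fin : ∀ x y z, Gen k (nilradical A) x y z → ∀ w, (w ∉ nilradical A ^ 3 ∨ x * w ≠ 0 ∧
      ∀ u ∈ nilradical A ^ 3, y * u = 0 ∧ z * u = 0) → y * w = 0 → z * w = 0 → SmA k A :=
    fun x y z G w a b c => (h.of G).defX (nq _ (h.of G)) (w := w) (by simpa using a)
      (by simpa using b) (by simpa using c) next
  rcases hd with hd | ⟨hd, vc⟩
  · have h3 : finrank k (T3' k A) ≤ 3 := by omega
    have := absI (ker (fst k (Fin 6 → k) (T3' k A))) (mD i i2 G.1) (mD i i2 G.2.1)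
      (mD i i2 G.2.2.1) rank_ker_fst.le h3 (by rw [finrank_prod, finrank_fin_fun, add_comm])
    obtain ⟨d, d0, a, b⟩ := this
    replace a : π (X 2) * i d = 0 := congrArg Subtype.val a
    rcases b with b | ⟨c, b⟩
    · exact fin _ _ _ G _ (.inl (i3 d d0)) (congrArg Subtype.val b) a
    replace b : π (X 0) * i d = c • (π (X 1) * i d) := congrArg Subtype.val b
    exact fin (π (X 1)) (π (X 0) - c • π (X 1)) (π (X 2))
      ⟨G.2.1, sub_mem G.1 (sm c G.2.1), G.2.2.1, fun w hw => by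
        obtain ⟨α, β, γ, e⟩ := G.2.2.2 w hw
        exact ⟨β + α * c, α, γ, by convert e using 2; module⟩⟩ _ (.inl (i3 d d0))
      (by simp [sub_mul, b]) a
  have h4 : finrank k (T3' k A) ≤ 4 := by omega
  have l1 : ∀ x y z, Gen k (nilradical A) x y z →
      LinearIndependent k ![(mT y : End k (T3' k A)), mT z] → SmA k A := fun x y z G li => by
    have := absI4 (mD i i2 G.2.1) (mD i i2 G.2.2.1) (a := mT y) (b := mT z)
      (fun t => Subtype.ext (congrArg (y * ·) (i0 t))) (fun t => Subtype.ext (congrArg (z * ·) (i0 t)))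
      (fun d => Subtype.ext (mul_left_comm z y (i d))) li h4 (by simp)
    obtain ⟨d, d0, a, b⟩ := this
    exact fin _ _ _ G _ (.inl (i3 d d0)) (congrArg Subtype.val a) (congrArg Subtype.val b)
  have l2 : ∀ x y z, Gen k (nilradical A) x y z → (mT x : End k (T3' k A)) ≠ 0 → SmA k A :=
    fun x y z G x0 => by
      rcases li_cases x0 (mT y) with a | ⟨s, a⟩
      · exact l1 _ _ _ G.rot.rot a.1
      rcases li_cases x0 (mT z) with b | ⟨t, b⟩
      · exact l1 _ _ _ G.rot b.2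
      obtain ⟨w, hw⟩ := DFunLike.ne_iff.1 x0
      have : ∀ u ∈ nilradical A ^ 3, (y - s • x) * u = 0 ∧ (z - t • x) * u = 0 := fun u hu =>
        ⟨by rw [sub_mul, smul_mul_assoc, sub_eq_zero]; exact congr(($a ⟨u, hu⟩).1).symm,
          by rw [sub_mul, smul_mul_assoc, sub_eq_zero]; exact congr(($b ⟨u, hu⟩).1).symm⟩
      exact fin x (y - s • x) (z - t • x) ⟨G.1, sub_mem G.2.1 (sm s G.1), sub_mem G.2.2.1 (sm t G.1),
        fun w hw => by
          obtain ⟨α, β, γ, e⟩ := G.2.2.2 w hw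
          exact ⟨α + β * s + γ * t, β, γ, by convert e using 2; module⟩⟩ w
        (.inr ⟨fun e => hw (Subtype.ext e), this⟩) (this _ w.2).1 (this _ w.2).2
  by_cases x0 : (mT (π (X 0)) : End k (T3' k A)) = 0
  swap
  · exact l2 _ _ _ G x0
  by_cases y0 : (mT (π (X 1)) : End k (T3' k A)) = 0
  swap
  · exact l2 _ _ _ G.rot y0
  by_cases z0 : (mT (π (X 2)) : End k (T3' k A)) = 0
  swap
  · exact l2 _ _ _ G.rot.rot z0
  refine vc A π h (nq π h) ?_ hd
  rw [pow_succ' _ 3, eq_bot_iff, Ideal.mul_le]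
  intro r hr u hu
  obtain ⟨F, hF, rfl⟩ := (Ideal.mem_map_iff_of_surjective _ h.1).1 (h.map.ge hr)
  obtain ⟨c, rfl⟩ := Ideal.mem_span_range_iff_exists_fun.1 hF
  simp [Fin.sum_univ_three, add_mul, mul_assoc, show π (X 0) * u = 0 from congr(($x0 ⟨u, hu⟩).1),
    show π (X 1) * u = 0 from congr(($y0 ⟨u, hu⟩).1),
    show π (X 2) * u = 0 from congr(($z0 ⟨u, hu⟩).1)]

theorem hilbG (n : ℕ) (hn : n ≤ 13 ∨ n = 14 ∧ VC4 k) : ∀ (V : Type) [AddCommGroup V] [Module k V]
    [FiniteDimensional k V] (φ : P k →ₐ[k] End k V) (v : V), finrank k V = n →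
    (∀ u, ∃ F, φ F v = u) → Sm (φ (X 0)) (φ (X 1)) (φ (X 2)) := by
  induction n using Nat.strong_induction_on with | _ n ih => ?_
  have next : ∀ (V : Type) [AddCommGroup V] [Module k V] [FiniteDimensional k V] [Nontrivial V],
      finrank k V = n → ∀ (φ : P k →ₐ[k] End k V) (v : V), (∀ u, ∃ F, φ F v = u) →
      (∃ f, Two (φ f)) ∨ (∀ i, IsNilpotent (φ (X i))) ∧ (∃ F ∉ M0 k ^ 3, φ F = 0) →
      Sm (φ (X 0)) (φ (X 1)) (φ (X 2)) := by
    rintro V _ _ _ _ rfl φ v hv (⟨f, t⟩ | ⟨a, F, b, c⟩)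
    · obtain ⟨n, a, b, c⟩ := t.fit
      have cm : ∀ f g, Commute (φ f) (φ g) := fun f g => (Commute.all f g).map φ
      have : ∀ (p q : Submodule k V) (s : ∀ f, ∀ v ∈ p, φ f v ∈ p), (∀ f, ∀ v ∈ q, φ f v ∈ q) →
          IsCompl p q → p ≠ ⊤ → Sm (res φ p s (X 0)) (res φ p s (X 1)) (res φ p s (X 2)) :=
        fun p q s s' c p0 => by
          obtain ⟨x, y, rfl, -⟩ := Submodule.existsUnique_add_of_isCompl c v
          refine ih _ (Submodule.finrank_lt p0) (.inl (by have := Submodule.finrank_lt p0; omega)) p _ x rfl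
            fun u => (hv u).imp fun F e => Subtype.ext (sub_eq_zero.1 (Submodule.disjoint_def.1
              c.disjoint _ (sub_mem (s _ _ x.2) u.2) ?_))
          simpa [← e] using s' F _ y.2
      have s := fun g => comm_ker ((cm f g).pow_left (n + 1))
      have s' := fun g => comm_range ((cm f g).pow_left (n + 1))
      exact Sm.sum a (s _) (s _) (s _) (s' _) (s' _) (s' _) (this _ _ s s' a b)
        (this _ _ s' s a.symm c)
    · haveI := (Ideal.kerLiftAlg φ).toRingHom.domain_nontrivial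
      refine cyc_red hv fun e => ?_
      obtain ⟨c, c0, f⟩ := ((pres_ker a).ord2 (Ideal.Quotient.eq_zero_iff_mem.2 c)).resolve_left b
      exact (pres_ker a).low (by omega) c0 f
  intro V _ _ _ φ v hV hv
  rcases subsingleton_or_nontrivial V with _ | _
  · exact Sm.small (by simp [finrank_zero_of_subsingleton])
  by_cases t : ∃ f, Two (φ f)
  · exact next V hV φ v hv (.inl t)
  have : ∀ i, ∃ c : k, IsNilpotent (φ (X i - C c)) := fun i => by
    obtain ⟨c, v, v0, hv⟩ := eig (φ (X i))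
    refine ⟨c, by_contra fun a => t ⟨_, a, fun u => v0 ?_⟩⟩
    exact ker_eq_bot'.1 ((isUnit_iff_ker_eq_bot _).1 u) v (by simp [hv])
  choose p hp using this
  let ψ := φ.comp (aeval fun i => X i - C (p i))
  have e : ∀ i, φ (X i) - p i • 1 = ψ (X i) := by simp [ψ, Algebra.algebraMap_eq_smul_one]
  have a : ∀ i, IsNilpotent (ψ (X i)) := by simpa [ψ] using hp
  refine .shift (p 0) (p 1) (p 2) ?_
  rw [e, e, e]
  haveI := (Ideal.kerLiftAlg ψ).toRingHom.domain_nontrivial
  refine cyc_red (v := v) (fun u => ?_) fun e => ?_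
  · obtain ⟨F, rfl⟩ := hv u
    exact ⟨aeval (fun i => X i + C (p i)) F, congr($(show ψ.comp (aeval fun i => X i + C (p i)) = φ
      from algHom_ext (by simp [ψ])) F v)⟩
  by_cases! nq : ∃ π' : P k →ₐ[k] P k ⧸ RingHom.ker ψ, Pres π' ∧ ∃ c,
    π' (qf c) ∈ nilradical _ ^ 3 ∧ c ≠ 0
  · obtain ⟨π', a, c, b, c0⟩ := nq
    exact a.low (by omega) c0 b
  · exact (pres_ker a).caseI nq (by rwa [e, hV]) (next _ (e.trans hV))

theorem hilb (n : ℕ) (hn : n ≤ 13) : ∀ (V : Type) [AddCommGroup V] [Module k V]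
    [FiniteDimensional k V] (φ : P k →ₐ[k] End k V) (v : V), finrank k V = n →
    (∀ u, ∃ F, φ F v = u) → Sm (φ (X 0)) (φ (X 1)) (φ (X 2)) := hilbG n (.inl hn)

end Pool.Agent.Lib.MP_02ae3d_ag.H88
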