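import Pool.Agent.Lib.MP_02ae3d_ag.H11V
import Pool.Agent.Lib.MP_02ae3d_ag.H88HD

set_option autoImplicit false

namespace Pool.Agent.Lib.MP_02ae3d_ag.H88
open Module

theorem vc4 {k : Type} [Field k] [IsAlgClosed k] [CharZero k] : VC4 k :=
  fun A _ _ _ π h nq m4 hd => by
    haveI : Nontrivial A := nontrivial_of_finrank_pos (R := k) (by omega)
    refine H11.vc4 h.loc h.gen m4 hd fun l0 l1 l2 a b c d e f r => ?_
    simpa [funext_iff, Fin.forall_fin_succ] using nq ![l0, l1, l2, a, b, c, d, e, f]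
      (by simpa [qf_apply, sq, add_assoc] using r)

end Pool.Agent.Lib.MP_02ae3d_ag.H88
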