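import Pool.Agent.Lib.MP_02ae3d_ag.Zar

set_option autoImplicit false
set_option linter.unusedSectionVars false
set_option maxHeartbeats 400000

namespace Pool.Agent.Lib.MP_02ae3d_ag
open Module LinearMap Submodule Polynomial

variable {k : Type} [Field k] [IsAlgClosed k] {V W : Type} [AddCommGroup V] [Module k V]
  [FiniteDimensional k V] [AddCommGroup W] [Module k W] [FiniteDimensional k W]

theorem eig [Nontrivial V] (A : End k V) : ∃ (c : k) (v : V), v ≠ 0 ∧ A v = c • v := by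
  obtain ⟨c, v, hv⟩ := (End.exists_eigenvalue A).imp fun _ h => h.exists_hasEigenvector
  exact ⟨c, v, hv.2, hv.apply_eq_smul⟩

theorem pencil0 [Nontrivial V] (y z : V →ₗ[k] W) (h : finrank k W ≤ finrank k V) :
    ∃ (b c : k) (v : V), ¬ (b = 0 ∧ c = 0) ∧ v ≠ 0 ∧ b • y v + c • z v = 0 := by
  by_cases a : Function.Injective z
  · let e := linearEquivOfInjective z a ((finrank_le_finrank_of_injective a).antisymm h)
    obtain ⟨c, v, h1, h2⟩ := eig (e.symm.toLinearMap ∘ₗ y)
    exact ⟨1, -c, v, by simp, h1, by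
      simpa [e, add_neg_eq_zero] using e.symm_apply_eq.1 h2⟩
  · obtain ⟨v, h1, h2⟩ := exists_mem_ne_zero_of_ne_bot (mt ker_eq_bot.1 a)
    exact ⟨0, 1, v, by simp, h2, by simpa using h1⟩

theorem rank_mkQ {P P' : Submodule k V} (h : P ≤ P') :
    finrank k (map P.mkQ P') + finrank k P = finrank k P' := by
  rw [← (P.mkQ.domRestrict P').finrank_range_add_finrank_ker, range_domRestrict, ker_domRestrict,
    ker_mkQ, (comapSubtypeEquivOfLe h).finrank_eq]

theorem pencil (y z : End k V) {P P' Q Q' : Submodule k V} (h : P < P') (h' : Q ≤ Q')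
    (y1 : P ≤ comap y Q) (z1 : P ≤ comap z Q) (y2 : P' ≤ comap y Q') (z2 : P' ≤ comap z Q')
    (hd : finrank k Q' + finrank k P ≤ finrank k P' + finrank k Q) :
    ∃ (b c : k) (v : V), ¬ (b = 0 ∧ c = 0) ∧ v ∉ P ∧ b • y v + c • z v ∈ Q := by
  have a := rank_mkQ h.le
  have b := rank_mkQ h'
  have c := finrank_lt_finrank_of_lt h
  haveI : Nontrivial (map P.mkQ P') := nontrivial_of_finrank_pos (R := k) (by omega)
  obtain ⟨b, c, ⟨_, v, hv, rfl⟩, h1, h2, h3⟩ := pencil0
    ((mapQ P Q y y1).restrict (p := map P.mkQ P') (q := map Q.mkQ Q') (by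
      rintro _ ⟨v, hv, rfl⟩; exact ⟨_, y2 hv, rfl⟩))
    ((mapQ P Q z z1).restrict (p := map P.mkQ P') (q := map Q.mkQ Q') (by
      rintro _ ⟨v, hv, rfl⟩; exact ⟨_, z2 hv, rfl⟩)) (by omega)
  exact ⟨b, c, v, h1, by simpa using h2, (Submodule.Quotient.mk_eq_zero Q).1 congr($h3.1)⟩

theorem hopf [Nontrivial V] (A B C : V →ₗ[k] W) (h : finrank k W = finrank k V + 1)
    (hA : Function.Injective A) :
    ∃ (a b c : k) (v : V), ¬ (b = 0 ∧ c = 0) ∧ v ≠ 0 ∧ a • A v + b • B v + c • C v = 0 := by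
  have a0 := finrank_range_of_inj hA
  obtain ⟨l, l0, l1⟩ := (range A).exists_le_ker_of_lt_top (lt_top_of_finrank_lt_finrank (by omega))
  have l2 : range A = ker l := eq_of_le_of_finrank_le l1 (by
    have := finrank_lt (mt ker_eq_top.1 l0)
    omega)
  obtain ⟨r, hr⟩ := A.exists_leftInverse_of_injective (ker_eq_bot.2 hA)
  let e := finBasis k V
  let D : (V →ₗ[k] W) → k := fun F =>
    (Matrix.of fun i j : Fin (finrank k V) => l (F (((r ∘ₗ F : End k V) ^ i.1) (e j)))).det
  have d1 : ∀ F, D F = 0 → ∃ (a : k) (v : V), v ≠ 0 ∧ a • A v + F v = 0 := fun F hF => by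
    obtain ⟨c, c0, hc⟩ := Matrix.exists_mulVec_eq_zero_iff.2 hF
    let U := ⨅ i : ℕ, ker (l ∘ₗ F ∘ₗ ((r ∘ₗ F : End k V) ^ i))
    have u1 : e.equivFun.symm c ∈ U := (mem_iInf _).2 fun n => by
      rw [pow_eq_aeval_mod_charpoly, aeval_eq_sum_range' (n := finrank k V)
        ((natDegree_modByMonic_lt _ (charpoly_monic _) fun a => finrank_pos.ne' (by
          rw [← charpoly_natDegree (r ∘ₗ F), a, natDegree_one])).trans_eq (charpoly_natDegree _)),
        Finset.sum_range]
      simp only [mem_ker, comp_apply, LinearMap.sum_apply, map_sum, LinearMap.smul_apply, map_smul]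
      refine Finset.sum_eq_zero fun i _ => smul_eq_zero_of_right _ ?_
      simpa [Matrix.mulVec, dotProduct, mul_comm] using congrFun hc i
    haveI : Nontrivial U := ⟨⟨_, u1⟩, 0, by simpa [-Basis.equivFun_symm_apply] using c0⟩
    obtain ⟨a, v, v0, hv⟩ := eig ((r ∘ₗ F).restrict (p := U) (q := U) fun v hv =>
      (mem_iInf _).2 fun n => by simpa [pow_succ] using (mem_iInf _).1 hv (n + 1))
    obtain ⟨w, hw⟩ : F v ∈ range A := by simpa [l2] using (mem_iInf _).1 v.2 0
    have : w = a • v := by simpa [← hw, show ∀ x, r (A x) = x from fun x => congr($hr x)]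
      using congr($hv.1)
    exact ⟨-a, v, by simpa using v0, by simp [← hw, this]⟩
  have d2 : IsP k D := .mdet fun i j => .lin l (IsP.id.app
    (.lin (applyₗ (e j)) (.pow (.lin (llcomp k V W V r) .id) i)))
  have d3 : ∀ (t : k) F, D (t • F) = (∏ i : Fin (finrank k V), t ^ (i.1 + 1)) * D F := fun t F => by
    rw [← Matrix.det_mul_column]
    simp [D, comp_smul, _root_.smul_pow, pow_succ, mul_assoc, mul_left_comm]
  by_cases a : ∃ s : k, D (B + s • C) = 0
  · obtain ⟨s, a⟩ := a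
    obtain ⟨a, v, v0, hv⟩ := d1 _ a
    exact ⟨a, 1, s, v, by simp, v0, by simpa [add_assoc] using hv⟩
  obtain ⟨p, hp⟩ := (d2.comp (Φ := fun s : k => B + s • C) (by fun_prop)).poly
  obtain ⟨c, rfl⟩ := natDegree_eq_zero.1 (natDegree_eq_zero_iff_degree_le_zero.2 (le_of_eq
    (by_contra fun b => a ((IsAlgClosed.exists_root p b).imp fun s e => (hp s).trans e))))
  have d4 : IsP k fun t : k => D (t • B + C) - (∏ i : Fin (finrank k V), t ^ (i.1 + 1)) * c :=
    (d2.comp (by fun_prop)).sub (.mulk (isP_iff.2 (by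
      simpa [Finset.prod_fn, Pi.pow_def] using (Pol k k).prod_mem fun (i : Fin (finrank k V))
        (_ : i ∈ Finset.univ) => pow_mem (isP_iff.1 .id) (i.1 + 1))) (.const c))
  obtain ⟨a, v, v0, hv⟩ := d1 C (by
    simpa [(finrank_pos (R := k) (M := V)).ne'] using d4.zero (((Set.finite_singleton
      0).infinite_compl).mono fun t (ht : t ≠ 0) => by
        rw [Set.mem_ofPred, ← eval_C (a := c) (x := t⁻¹), ← hp, ← d3, smul_add, smul_inv_smul₀ ht,
          sub_self]) 0)
  exact ⟨a, 0, 1, v, by simp, v0, by simpa using hv⟩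

variable {X Y Z : End k V}

theorem near (hc : Commute Y Z) (h1 : range Y ⊔ range Z ≤ ker X) (h2 : range X ≤ ker Y ⊓ ker Z)
    (h3 : ker Y ⊓ ker Z ≤ range Y ⊔ range Z) (h4 : 2 ≤ finrank k V)
    (h5 : finrank k ↥(ker Y ⊓ ker Z) + finrank k ↥(range Y ⊔ range Z) = finrank k V + 1)
    (h6 : finrank k (range X) + finrank k ↥(range Y ⊔ range Z) = finrank k V) :
    ∃ a b c : k, ¬ (b = 0 ∧ c = 0) ∧
      finrank k (range X) + finrank k (range (a • X + b • Y + c • Z)) + 2 ≤ finrank k V := by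
  set S := ker Y ⊓ ker Z
  set M := range Y ⊔ range Z
  suffices ∃ (a b c : k) (v : V), ¬ (b = 0 ∧ c = 0) ∧ v ∉ S ∧ a • X v + b • Y v + c • Z v = 0 by
    obtain ⟨a, b, c, v, e, e1, e2⟩ := this
    have := finrank_lt_finrank_of_lt (SetLike.lt_iff_le_and_exists.2 ⟨fun w (hw : w ∈ S) =>
      (by simp [mem_ker.1 hw.1, mem_ker.1 hw.2, mem_ker.1 (h1 (h3 hw))] :
        w ∈ ker (a • X + b • Y + c • Z)), v, e2, e1⟩)
    have := (a • X + b • Y + c • Z).finrank_range_add_finrank_ker
    exact ⟨a, b, c, e, by omega⟩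
  by_contra H
  simp only [not_exists, not_and_not_right, not_and (a := ¬ _), imp_not_comm (a := _ ∉ _),
    not_not] at H
  by_cases a : M ≤ S
  · obtain ⟨T, hT⟩ := S.exists_isCompl
    have b := finrank_add_eq_of_isCompl hT
    have c := finrank_mono a
    have d := finrank_mono h3
    have e := X.finrank_range_add_finrank_ker
    haveI : Nontrivial T := nontrivial_of_finrank_pos (R := k) (by omega)
    have f : ∀ v : T, v.1 ∈ S → v = 0 := fun v hv => Subtype.ext (disjoint_def.1 hT.1 _ hv v.2)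
    obtain ⟨a, b, c, v, e, e1, e2⟩ := hopf (X.restrict (p := T) fun v _ => h2 ⟨v, rfl⟩)
      (Y.restrict (p := T) fun v _ => a (mem_sup_left ⟨v, rfl⟩))
      (Z.restrict (p := T) fun v _ => a (mem_sup_right ⟨v, rfl⟩)) (by omega)
      (ker_eq_bot.1 (ker_eq_bot'.2 fun v hv => f v (a
        ((eq_of_le_of_finrank_le h1 (by omega)).ge congr($hv.1)))))
    exact e1 (f v (H a b c v e congr($e2.1)))
  have b : comap Y S ⊓ comap Z S < ⊤ := lt_top_iff_ne_top.2 fun e => a (sup_le
    (by rintro _ ⟨v, rfl⟩; exact (e.ge (mem_top (x := v))).1)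
    (by rintro _ ⟨v, rfl⟩; exact (e.ge (mem_top (x := v))).2))
  have c : finrank k V + finrank k S < finrank k M + finrank k ↥(comap Y S ⊓ comap Z S) :=
    lt_of_not_ge fun c => by
      obtain ⟨b, c, v, e, e1, e2⟩ := pencil Y Z b h3 inf_le_left inf_le_right
        (fun v _ => mem_sup_left ⟨v, rfl⟩) (fun v _ => mem_sup_right ⟨v, rfl⟩) (by simpa using c)
      have yz : ∀ v, Y (Z v) = Z (Y v) := fun v => congr($hc.eq v)
      exact e1 ⟨H 0 b c _ e (by simpa [yz] using mem_ker.1 e2.1),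
        H 0 b c _ e (by simpa [yz] using mem_ker.1 e2.2)⟩
  have d := finrank_le M
  obtain ⟨b, c, v, e, e1, e2⟩ := pencil Y Z (P := S) (Q := ⊥) (lt_of_le_of_ne (fun v hv => by
    simp [mem_ker.1 hv.1, mem_ker.1 hv.2]) fun e => by rw [← e] at c; omega) bot_le inf_le_left
    inf_le_right inf_le_left inf_le_right (by simp; omega)
  exact e1 (H 0 b c v e (by simpa using e2))

theorem near' (hc : Commute Y Z) (h1 : range Y ⊔ range Z ≤ ker X) (h2 : range X ≤ ker Y ⊓ ker Z)
    (h3 : ker Y ⊓ ker Z ≤ range Y ⊔ range Z) (h4 : 2 ≤ finrank k V)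
    (h5 : finrank k ↥(ker Y ⊓ ker Z) + finrank k ↥(range Y ⊔ range Z) + 1 = finrank k V)
    (h6 : finrank k (range X) = finrank k ↥(ker Y ⊓ ker Z)) :
    ∃ a b c : k, ¬ (b = 0 ∧ c = 0) ∧
      finrank k (range X) + finrank k (range (a • X + b • Y + c • Z)) + 2 ≤ finrank k V := by
  have s : ker Y.dualMap ⊓ ker Z.dualMap = (range Y ⊔ range Z).dualAnnihilator := by
    simp only [ker_dualMap_eq_dualAnnihilator_range, dualAnnihilator_sup_eq]
  have m : range Y.dualMap ⊔ range Z.dualMap = (ker Y ⊓ ker Z).dualAnnihilator := by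
    simp only [range_dualMap_eq_dualAnnihilator_ker, Subspace.dualAnnihilator_inf_eq]
  have a := Subspace.finrank_add_finrank_dualAnnihilator_eq (range Y ⊔ range Z)
  have b := Subspace.finrank_add_finrank_dualAnnihilator_eq (ker Y ⊓ ker Z)
  obtain ⟨a, b, c, e, e'⟩ := near (X := X.dualMap) (Y := Y.dualMap) (Z := Z.dualMap)
    congr(dualMap $hc.symm.eq)
    (by rw [m, ker_dualMap_eq_dualAnnihilator_range]; exact dualAnnihilator_anti h2)
    (by rw [s, range_dualMap_eq_dualAnnihilator_ker]; exact dualAnnihilator_anti h1)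
    (by rw [s, m]; exact dualAnnihilator_anti h3) (by simpa) (by rw [s, m]; simp; omega)
    (by rw [m, finrank_range_dualMap_eq_finrank_range]; simp; omega)
  refine ⟨a, b, c, e, ?_⟩
  rwa [show a • X.dualMap + b • Y.dualMap + c • Z.dualMap = (a • X + b • Y + c • Z).dualMap by
    ext; simp, finrank_range_dualMap_eq_finrank_range, finrank_range_dualMap_eq_finrank_range,
    Subspace.dual_finrank_eq] at e'

end Pool.Agent.Lib.MP_02ae3d_ag
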