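import Pool.Agent.Lib.MP_02ae3d_ag.GP
import Pool.Agent.Lib.MP_02ae3d_ag.Hopf

set_option autoImplicit false
set_option linter.unusedSectionVars false
set_option maxHeartbeats 400000

namespace Pool.Agent.Lib.MP_02ae3d_ag
open Module LinearMap Submodule Polynomial
open Filter (cofinite)

variable {k : Type} [Field k] [IsAlgClosed k] [CharZero k] {V : Type} [AddCommGroup V] [Module k V]
  [FiniteDimensional k V] {X Y Z : End k V}

structure PL (X Y Z : End k V) : Prop where
  xy : X * Y = 0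
  yx : Y * X = 0
  xz : X * Z = 0
  zx : Z * X = 0
  yz : Commute Y Z

def IH (k : Type) [Field k] (d : ℕ) : Prop := ∀ (V : Type) [AddCommGroup V] [Module k V]
  [FiniteDimensional k V], finrank k V < d → ∀ X Y Z : End k V, PL X Y Z → Sm X Y Z

theorem PL.swap (h : PL X Y Z) : PL X Z Y := ⟨h.xz, h.zx, h.xy, h.yx, h.yz.symm⟩

theorem PL.cy (h : PL X Y Z) : Commute X Y := h.xy.trans h.yx.symm

theorem rk0 : finrank k (range (0 : End k V)) = 0 :=
  finrank_eq_zero.2 range_zero

theorem cyc (hz : IsNilpotent Z) (h : Commute Y Z) (hd : finrank k V ≤ finrank k (range Z) + 1)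
    [Nontrivial V] : ∃ q : k[X], Y = aeval Z q := by
  obtain ⟨e, -, he⟩ := SetLike.exists_of_lt (lt_top_iff_ne_top.2 fun a =>
    hz.not_isUnit ((isUnit_iff_range_eq_top Z).2 a))
  have a : range Z ⊔ span k {e} = ⊤ := eq_top_of_finrank_eq ((finrank_le _).antisymm (hd.trans
    (finrank_lt_finrank_of_lt (SetLike.lt_iff_le_and_exists.2
      ⟨le_sup_left, e, mem_sup_right (mem_span_singleton_self e), he⟩))))
  have b : ∀ n v, ∃ (q : k[X]) (w : V), v = aeval Z q e + (Z ^ n) w := fun n v => by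
    induction n with
    | zero => exact ⟨0, v, by simp⟩
    | succ n ih =>
      obtain ⟨q, w, rfl⟩ := ih
      obtain ⟨_, ⟨u, rfl⟩, _, hw, rfl⟩ := mem_sup.1 (a.ge (mem_top (x := w)))
      obtain ⟨c, rfl⟩ := mem_span_singleton.1 hw
      exact ⟨q + C c * Polynomial.X ^ n, u, by simp [pow_succ, add_assoc, add_comm]⟩
  obtain ⟨n, hn⟩ := hz
  have c : ∀ v, ∃ q : k[X], v = aeval Z q e := fun v => by simpa [hn] using b n v
  obtain ⟨q, hq⟩ := c (Y e)
  refine ⟨q, LinearMap.ext fun v => ?_⟩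
  obtain ⟨p, rfl⟩ := c v
  have : Commute Y (aeval Z p) := by
    rw [aeval_eq_sum_range]
    exact .sum_right _ _ _ fun i _ => (h.pow_right i).smul_right _
  rw [← End.mul_apply, this.eq, End.mul_apply, hq, ← End.mul_apply, ← map_mul, mul_comm, map_mul,
    End.mul_apply]

theorem Two.lift {T : Type} [AddCommGroup T] [Module k T] [FiniteDimensional k T] {π : V →ₗ[k] T}
    (hπ : Function.Surjective π) {E : End k V} {F : End k T} (h : ∀ v, π (E v) = F (π v))
    (hF : Two F) : Two E := by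
  refine ⟨fun ⟨n, hn⟩ => hF.1 ⟨n, LinearMap.ext fun v => ?_⟩, fun a => hF.2
    ((isUnit_iff_range_eq_top _).2 (range_eq_top.2 fun v => ?_))⟩
  · obtain ⟨v, rfl⟩ := hπ v
    simpa [← End.pow_apply, hn] using (Function.Semiconj.iterate_right h n v).symm
  · obtain ⟨v, rfl⟩ := hπ v
    obtain ⟨v, rfl⟩ := range_eq_top.1 ((isUnit_iff_range_eq_top _).1 a) v
    exact ⟨_, (h v).symm⟩

theorem unit_of {A : End k V} {c : k} (h : IsNilpotent (A - c • 1)) (hc : c ≠ 0) : IsUnit A := by
  simpa using h.isUnit_add_left_of_commute (u := c • 1) (isUnit_one.smul (Units.mk0 c hc))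
    ((Commute.one_right _).smul_right c)

variable (ih : IH k (finrank k V))
include ih

theorem fsplit {W : End k V} (hW : Two W) (x : Commute W X) (y : Commute W Y) (z : Commute W Z)
    (xy : Commute X Y) (xz : X * Z = 0) (zx : Z * X = 0) (yz : Commute Y Z) {c c' : k}
    (h1 : ∀ n v, (W ^ n) v = 0 → X (Y v) = c • X v) (h2 : ∀ v, X (Y (W v)) = c' • X (W v)) :
    Sm X Y Z := by
  have key : ∀ (p : Submodule k V) (c : k) x y z, p ≠ ⊤ → (∀ v ∈ p, X (Y v) = c • X v) →
      Sm (X.restrict (p := p) x) (Y.restrict (p := p) y) (Z.restrict (p := p) z) :=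
    fun p c x y z a b => .shift 0 c 0 (by
      have yx : ∀ v, Y (X v) = X (Y v) := fun v => congr($xy.symm.eq v)
      simpa using ih p (finrank_lt a) _ _ _ ⟨by ext v; simp [b v v.2, sub_eq_zero],
        by ext v; simp [yx, b v v.2, sub_eq_zero], by ext v; simpa using congr($xz v),
        by ext v; simpa using congr($zx v), .sub_left (by ext v; simpa using congr($yz.eq v))
          ((Commute.one_left _).smul_left c)⟩)
  obtain ⟨n, a, b, d⟩ := hW.fit
  exact .sum a _ _ _ _ _ _ (key _ c (comm_ker (x.pow_left _)) (comm_ker (y.pow_left _))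
    (comm_ker (z.pow_left _)) b (h1 _)) (key _ c' (comm_range (x.pow_left _))
    (comm_range (y.pow_left _)) (comm_range (z.pow_left _)) d (by
      rintro _ ⟨v, rfl⟩
      rw [pow_succ']
      exact h2 _))

theorem PL.split (h : PL X Y Z) {W : End k V} (hW : Two W) (x : Commute W X) (y : Commute W Y)
    (z : Commute W Z) : Sm X Y Z :=
  fsplit ih hW x y z h.cy h.xz h.zx h.yz (c := 0) (c' := 0)
    (fun _ v _ => by simpa using congr($h.xy v)) fun v => by simpa using congr($h.xy (W v))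

theorem PL.two (h : PL X Y Z) {c : k} (hW : Two (Y - c • 1)) : Sm X Y Z :=
  h.split ih hW (h.cy.symm.sub_left ((Commute.one_left _).smul_left c))
    (.sub_left rfl ((Commute.one_left _).smul_left c))
    (h.yz.sub_left ((Commute.one_left _).smul_left c))

theorem PL.twox (h : PL X Y Z) {c : k} (hW : Two (X - c • 1)) : Sm X Y Z :=
  h.split ih hW (.sub_left rfl ((Commute.one_left _).smul_left c))
    (h.cy.sub_left ((Commute.one_left _).smul_left c))
    (h.swap.cy.sub_left ((Commute.one_left _).smul_left c))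

theorem PL.move (h : PL X Y Z) {E : End k V} (z : Commute Z E) (x : Commute X E) (hE : Two E) :
    Sm X Y Z := by
  obtain ⟨e, e1, e2, e3, e4⟩ := hE.idem
  have ex := e4 X x.symm
  have ez := e4 Z z.symm
  suffices Sm X (Y + (0 : k) • e) Z by simpa
  refine Sm.curve (X := fun _ => X) (Y := fun t : k => Y + t • e) (Z := fun _ => Z) (by fun_prop)
    (by fun_prop) (by fun_prop) ?_
  filter_upwards [phi_line Y e1 e2 e3, Filter.eventually_cofinite_ne 0] with t a b
  have xy := h.cy.add_right (ex.symm.smul_right t)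
  have yz := h.yz.add_left (ez.smul_left t)
  have c : X * (Y + t • e - t • 1) * (Y + t • e) = 0 := by
    have : X * e * Y = 0 := by rw [← ex.eq, mul_assoc, h.xy, mul_zero]
    simp [mul_add, add_mul, mul_sub, sub_mul, h.xy, this, mul_assoc X e e, e1.eq]
  generalize Y + t • e = U at *
  by_cases d : IsUnit U
  · obtain ⟨m, hm⟩ := phi_two a
    have c1 := (d.mul_left_eq_zero).1 c
    have c2 := xy.sub_right ((Commute.one_right _).smul_right t)
    refine .shift 0 t 0 (by
      simpa using PL.two ih ⟨c1, c2.symm.eq.trans c1, h.xz, h.zx,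
        yz.sub_left ((Commute.one_left _).smul_left t)⟩ (c := m - t) (by simpa [sub_smul] using hm))
  refine fsplit ih ⟨fun n => a (phi_nil n), d⟩ xy.symm rfl yz xy h.xz h.zx yz (c := 0) (c' := t)
    (fun n v hv => ?_) fun v => by simpa [sub_eq_zero] using congr($c v)
  have f : ∀ n, (U ^ n) (X (U v)) = t ^ n • X (U v) := fun n => by
    induction n with
    | zero => simp
    | succ n i =>
      rw [pow_succ', End.mul_apply, i, map_smul, pow_succ, mul_smul]
      congr 1
      simpa [sub_eq_zero, show ∀ v, U (X v) = X (U v) from fun v => congr($xy.symm.eq v)]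
        using congr($c v)
  have g := f n
  rw [← End.mul_apply X, ← End.mul_apply,
    ((xy.symm.mul_right (.refl U)).pow_left n).eq, End.mul_apply, hv, map_zero] at g
  simpa [b] using g.symm

theorem PL.gp (h : PL X Y Z) (hz : IsNilpotent Z)
    (hd : finrank k (range X) + finrank k (range Z) + 2 ≤ finrank k V) : Sm X Y Z :=
  let ⟨_, a, b, c⟩ := Pool.Agent.Lib.MP_02ae3d_ag.gp h.xz h.zx hz hd
  h.move ih a b c

variable (hd : 2 ≤ finrank k V)
include hd

theorem plane (h : Commute Y Z) (hz : IsNilpotent Z) : Sm 0 Y Z := by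
  haveI : Nontrivial V := nontrivial_of_finrank_pos (R := k) (by omega)
  by_cases a : finrank k V ≤ finrank k (range Z) + 1
  · obtain ⟨q, rfl⟩ := cyc hz h a
    exact (PL.gp ih (X := 0) (Y := Z) (Z := 0) ⟨by simp, by simp, by simp, by simp, .zero_right _⟩
      .zero (by rwa [rk0])).map .x (Ex.y.aeval q) .y
  · exact PL.gp ih ⟨by simp, by simp, by simp, by simp, h⟩ hz (by rw [rk0]; omega)

theorem PL.band (h : PL X Y Z) (hz : IsNilpotent Z) {b : ℕ} (h0 : Z ^ b ≠ 0) (h1 : Z ^ b * Z = 0)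
    (h2 : Z ^ b * Y = 0) (h3 : finrank k ↥(ker Y ⊓ ker Z) + finrank k ↥(range Y ⊔ range Z) =
      finrank k V) : Sm X Y Z := by
  obtain ⟨φ⟩ : Nonempty ((V ⧸ (range Y ⊔ range Z)) ≃ₗ[k] ↥(ker Y ⊓ ker Z)) :=
    FiniteDimensional.nonempty_linearEquiv_of_finrank_eq (by
      have := finrank_quotient_add_finrank (range Y ⊔ range Z)
      omega)
  have π1 := mkQ_surjective (range Y ⊔ range Z)
  have π2 := ker_mkQ (range Y ⊔ range Z)
  have j1 : ker ((ker Y ⊓ ker Z).subtype ∘ₗ φ.toLinearMap) = ⊥ :=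
    ker_eq_bot.2 ((injective_subtype _).comp φ.injective)
  have j2 : range ((ker Y ⊓ ker Z).subtype ∘ₗ φ.toLinearMap) = ker Y ⊓ ker Z := by
    simp [range_comp]
  generalize (ker Y ⊓ ker Z).subtype ∘ₗ φ.toLinearMap = j at *
  generalize mkQ (range Y ⊔ range Z) = π at *
  obtain ⟨σ, hσ⟩ := π.exists_rightInverse_of_surjective (range_eq_top.2 π1)
  obtain ⟨ρ, hρ⟩ := j.exists_leftInverse_of_injective j1
  replace hσ : ∀ v, π (σ v) = v := fun v => congr($hσ v)
  replace hρ : ∀ v, ρ (j v) = v := fun v => congr($hρ v)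
  have fac : ∀ A : End k V, A * Y = 0 → A * Z = 0 → Y * A = 0 → Z * A = 0 →
      ∃ a, A = j ∘ₗ a ∘ₗ π := fun A a1 a2 a3 a4 => ⟨ρ ∘ₗ A ∘ₗ σ, LinearMap.ext fun v => by
    obtain ⟨w, hw⟩ : A v ∈ range j := j2.ge ⟨congr($a3 v), congr($a4 v)⟩
    have := sup_le (range_le_ker_iff.2 a1) (range_le_ker_iff.2 a2)
      (π2.le (show σ (π v) - v ∈ ker π by simp [hσ]))
    rw [mem_ker, map_sub, sub_eq_zero] at this
    simp [this, ← hw, hρ]⟩
  have py : ∀ v, π (Y v) = 0 := fun v => π2.ge (mem_sup_left ⟨v, rfl⟩)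
  have pz : ∀ v, π (Z v) = 0 := fun v => π2.ge (mem_sup_right ⟨v, rfl⟩)
  have pl : ∀ a, PL (j ∘ₗ a ∘ₗ π) Y Z := fun a => ⟨by ext; simp [py], LinearMap.ext fun v =>
    (j2.le ⟨_, rfl⟩).1, by ext; simp [pz], LinearMap.ext fun v => (j2.le ⟨_, rfl⟩).2, h.yz⟩
  obtain ⟨c, hc⟩ := fac (Z ^ b) h2 h1 ((h.yz.pow_right b).eq.trans h2)
    (((Commute.refl Z).pow_right b).eq.trans h1)
  have mv : ∀ a θ, a * θ * c = c * θ * a → Two (θ * c) → Sm (j ∘ₗ a ∘ₗ π) Y Z := fun a θ e t =>
    (pl a).move ih (E := blk Z b (σ ∘ₗ θ ∘ₗ ρ)) (blk_comm (by simp [pow_succ, h1])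
      (by simp [pow_succ, h1])) (by
        rw [commute_iff_eq, mul_blk (pl a).xz, blk_mul (pl a).zx, hc]
        ext v
        simpa [hσ, hρ] using congr(j ($e (π v)))) (t.lift π1 fun v => by
      obtain ⟨w, hw⟩ := blk_mem (l := Z) (b := b) (Θ := σ ∘ₗ θ ∘ₗ ρ) v
      rw [← sub_add_cancel (blk _ _ _ v), ← hw, map_add, pz, hc]
      simp [hσ, hρ])
  obtain ⟨x, rfl⟩ := fac X h.xy h.xz h.yx h.zx
  suffices ∀ x, IsUnit x → Sm (j ∘ₗ x ∘ₗ π) Y Z by
    have e := Sm.curve (X := fun t : k => j ∘ₗ (x + t • 1) ∘ₗ π) (Y := fun _ => Y) (Z := fun _ => Z)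
      (.lin (llcomp k _ _ _ j ∘ₗ lcomp k _ π) (.add (.const _) (by fun_prop))) (by fun_prop)
      (by fun_prop) ?_
    · simpa using e
    refine (Set.Finite.eventually_cofinite_notMem (End.finite_spectrum (-x))).mono fun t a =>
      this _ ?_
    simpa [spectrum.notMem_iff, Algebra.algebraMap_eq_smul_one, add_comm] using a
  rintro _ ⟨x, rfl⟩
  by_cases a : ∀ w, (x⁻¹.1 * c) w ∈ span k {w}
  · obtain ⟨m, hm⟩ := exists_eq_smul_id_of_forall_notLinearIndependent (f := x⁻¹.1 * c) fun v e =>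
      let ⟨s, hs⟩ := mem_span_singleton.1 (a v)
      one_ne_zero (e.eq_zero_of_pair (s := -s) (t := 1) (by simp [hs])).2
    have e : Z ^ b = m • j ∘ₗ x.1 ∘ₗ π := by
      rw [hc, ← x.mul_inv_cancel_left c, hm]
      ext
      simp
    have m0 : m ≠ 0 := fun a => h0 (by simp [e, a])
    simpa [e, m0] using (plane ih hd h.yz hz).map ((Ex.z.aeval (Polynomial.X ^ b)).smul m⁻¹) .y .z
  push Not at a
  obtain ⟨w, a⟩ := a
  obtain ⟨ξ, a1, a2⟩ : ∃ ξ : Dual k _, ξ ((x⁻¹.1 * c) w) = 1 ∧ ξ w = 0 := by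
    obtain ⟨ξ, a1, a2⟩ := exists_le_ker_of_notMem a
    exact ⟨(ξ ((x⁻¹.1 * c) w))⁻¹ • ξ, inv_mul_cancel₀ a1, by
      simp [mem_ker.1 (a2 (mem_span_singleton_self w))]⟩
  have e := Sm.curve (X := fun t : k => j ∘ₗ (x.1 * (1 - t • ξ.smulRight w)) ∘ₗ π)
    (Y := fun _ => Y) (Z := fun _ => Z)
    (.lin (llcomp k _ _ _ j ∘ₗ lcomp k _ π) (.mul (.const _) (by fun_prop))) (by fun_prop)
    (by fun_prop) ?_
  · simpa using e
  refine (phi_line (x⁻¹.1 * c) (e := ξ.smulRight w * (x⁻¹.1 * c)) (LinearMap.ext fun v => by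
    simp only [End.mul_apply] at a1
    simp [a1]) (fun e => a ?_) fun e => a ?_).mono fun t f => ?_
  · have : w = 0 := by simpa [-End.mul_apply, End.mul_apply (ξ.smulRight w), a1] using congr($e w)
    simp [this]
  · rw [← End.one_apply (R := k) ((x⁻¹.1 * c) w), ← e]
    exact smul_mem _ _ (mem_span_singleton_self w)
  obtain ⟨u, u1, u2⟩ : ∃ u : (End k (V ⧸ (range Y ⊔ range Z)))ˣ,
      u.1 = x.1 * (1 - t • ξ.smulRight w :) ∧
      u⁻¹.1 = (1 + t • ξ.smulRight w :) * x⁻¹.1 := by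
    have : ξ.smulRight w * ξ.smulRight w = 0 := by ext; simp [a2]
    exact ⟨x * ⟨1 - t • ξ.smulRight w, 1 + t • ξ.smulRight w, by simp [mul_add, sub_mul, this],
      by simp [add_mul, mul_sub, this]⟩, rfl, rfl⟩
  rw [← u1]
  rw [← smul_mul_assoc, ← one_add_mul, ← mul_assoc, ← u2] at f
  by_cases g : IsUnit (u⁻¹.1 * c)
  · obtain ⟨m, m1, m2⟩ := phi_two f
    refine mv _ ((u⁻¹.1 * c - m • 1) * u⁻¹.1) (by simp [mul_sub, sub_mul, mul_assoc]) ?_
    rw [mul_assoc]
    exact ⟨fun n => m1 ((g.isNilpotent_mul_unit_of_commute_iff (.sub_left rfl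
      ((Commute.one_left _).smul_left m))).1 n), fun n => m2 (isUnit_of_mul_isUnit_left n)⟩
  · exact mv _ u⁻¹.1 (by simp) ⟨fun n => f (phi_nil n), g⟩

theorem PL.core (h : PL X Y Z) (hx : IsNilpotent X) (hy : IsNilpotent Y) (hz : IsNilpotent Z) :
    Sm X Y Z := by
  by_cases a : ker Y ⊓ ker Z ≤ range Y ⊔ range Z
  swap
  · obtain ⟨w, ⟨w1, w2⟩, a⟩ := SetLike.not_le_iff_exists.1 a
    obtain ⟨ξ, a1, a2⟩ : ∃ ξ : Dual k V, ξ w = 1 ∧ range Y ⊔ range Z ≤ ker ξ := by
      obtain ⟨ξ, a1, a2⟩ := exists_le_ker_of_notMem a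
      exact ⟨(ξ w)⁻¹ • ξ, inv_mul_cancel₀ a1, a2.trans (ker_le_ker_smul _ _)⟩
    have y : ∀ v, ξ (Y v) = 0 := fun v => a2 (mem_sup_left ⟨v, rfl⟩)
    have z : ∀ v, ξ (Z v) = 0 := fun v => a2 (mem_sup_right ⟨v, rfl⟩)
    suffices Sm (X + (0 : k) • ξ.smulRight w) Y Z by simpa
    refine Sm.curve (X := fun t : k => X + t • ξ.smulRight w) (Y := fun _ => Y) (Z := fun _ => Z)
      (by fun_prop) (by fun_prop) (by fun_prop) ((phi_line X (e := ξ.smulRight w)
      (LinearMap.ext fun v => by simp [a1]) (fun e => a ?_) fun e => ?_).mono fun t f => ?_)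
    · simp [show w = 0 by simpa [a1] using congr($e w)]
    · exact absurd (finrank_le_one w fun v => ⟨ξ v, congr($e v)⟩) (by omega)
    obtain ⟨m, hm⟩ := phi_two f
    refine PL.twox ih ⟨?_, ?_, ?_, ?_, h.yz⟩ hm <;>
      simp only [add_mul, mul_add, h.xy, h.yx, h.xz, h.zx] <;> ext v <;>
      simp [y, z, mem_ker.1 w1, mem_ker.1 w2]
  have key : (∃ a b c : k, ¬ (b = 0 ∧ c = 0) ∧ finrank k (range X) +
      finrank k (range (a • X + b • Y + c • Z)) + 2 ≤ finrank k V) → Sm X Y Z := by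
    suffices ∀ Y Z, PL X Y Z → IsNilpotent Y → IsNilpotent Z → ∀ a b c : k, c ≠ 0 →
        a = 0 ∨ X * X = 0 → finrank k (range X) + finrank k (range (a • X + b • Y + c • Z)) + 2 ≤
          finrank k V → Sm X Y Z by
      have x : X * X = 0 := LinearMap.ext fun v =>
        sup_le (range_le_ker_iff.2 h.xy) (range_le_ker_iff.2 h.xz) (a ⟨congr($h.yx v), congr($h.zx v)⟩)
      rintro ⟨a, b, c, e, f⟩
      by_cases c0 : c = 0
      · exact (this Z Y h.swap hz hy a c b (fun b0 => e ⟨b0, c0⟩) (.inr x)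
          (by rwa [add_right_comm (a • X)])).swap
      · exact this Y Z h hy hz a b c c0 (.inr x) f
    intro Y Z h hy hz a b c c0 x f
    have x : a • (X * X) = 0 := x.elim (by simp [·]) (by simp [·])
    have := (PL.gp ih (Y := Y) ⟨h.xy, h.yx, by simp [mul_add, h.xy, h.xz, x],
      by simp [add_mul, h.yx, h.zx, x], .add_right (.add_right (h.cy.symm.smul_right a)
        (.smul_right rfl b)) (h.yz.smul_right c)⟩ (Commute.isNilpotent_add (.add_left
          ((h.swap.cy.smul_left a).smul_right c) ((h.yz.smul_left b).smul_right c))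
          (((h.cy.smul_left a).smul_right b).isNilpotent_add (hx.smul a) (hy.smul b))
          (hz.smul c)) f).map .x .y ((Ex.z.add ((Ex.x.smul (-a)).add (Ex.y.smul (-b)))).smul c⁻¹)
    convert this using 1
    simp [c0]
    abel
  have x1 : range Y ⊔ range Z ≤ ker X := sup_le (range_le_ker_iff.2 h.xy) (range_le_ker_iff.2 h.xz)
  have x2 : range X ≤ ker Y ⊓ ker Z := le_inf (range_le_ker_iff.2 h.yx) (range_le_ker_iff.2 h.zx)
  have r1 := finrank_mono x1
  have r2 := finrank_mono x2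
  have r3 := finrank_mono (le_sup_right : range Z ≤ range Y ⊔ range Z)
  have r4 := finrank_mono (inf_le_right : ker Y ⊓ ker Z ≤ ker Z)
  have r5 := X.finrank_range_add_finrank_ker
  have r6 := Z.finrank_range_add_finrank_ker
  by_cases b : finrank k (range X) + finrank k (range Z) + 2 ≤ finrank k V
  · exact h.gp ih hz b
  rcases lt_trichotomy (finrank k ↥(ker Y ⊓ ker Z) + finrank k ↥(range Y ⊔ range Z)) (finrank k V)
    with c | c | c
  · exact key (near' h.yz x1 x2 a hd (by omega) (by omega))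
  swap
  · exact key (near h.yz x1 x2 a hd (by omega) (by omega))
  classical
  haveI : Nontrivial V := nontrivial_of_finrank_pos (R := k) (by omega)
  have ex : ∃ n, ∀ t : k, (Z + t • Y) ^ n = 0 := by
    obtain ⟨m, hm⟩ := hy
    obtain ⟨n, hn⟩ := hz
    exact ⟨_, fun t => (h.yz.symm.smul_right t).add_pow_eq_zero_of_add_le_succ_of_pow_eq_zero hn
      (by rw [_root_.smul_pow, hm, smul_zero]) (Nat.le_succ _)⟩
  obtain ⟨b, hb⟩ := Nat.exists_eq_add_one_of_ne_zero (n := Nat.find ex) fun e => by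
    simpa [e] using Nat.find_spec ex 0
  obtain ⟨t, ht⟩ := not_forall.1 (Nat.find_min ex (m := b) (by omega))
  have f := hb ▸ Nat.find_spec ex
  have yz := (h.yz.add_right ((Commute.refl Y).smul_right t))
  have g : (Z + t • Y) ^ b * Y = 0 := by
    generalize hl : Z + t • Y = l at yz
    have p : IsP k fun s : k =>
        (∑ i ∈ Finset.range (b + 1), (s • Y + l) ^ i * l ^ (b + 1 - 1 - i)) * Y :=
      .mul (.sum _ fun i => by fun_prop) (.const _)
    have := (forall_dual_apply_eq_zero_iff k _).1 fun φ => (p.lin φ).zero (((Set.finite_singleton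
      0).infinite_compl).mono fun s (hs : s ≠ 0) => by
        have := (yz.smul_left s).geom_sum₂_mul_add (b + 1)
        rw [← hl, f, add_zero, add_left_comm, ← add_smul, f, mul_smul_comm, smul_eq_zero_iff_right hs,
          add_smul, add_left_comm, hl] at this
        rw [Set.mem_ofPred, this, map_zero]) 0
    rw [Finset.sum_congr rfl (g := fun _ => l ^ b) fun i hi => by
      rw [zero_smul, zero_add, ← pow_add, add_tsub_cancel_right,
        add_tsub_cancel_of_le (Nat.lt_succ_iff.1 (Finset.mem_range.1 hi))]] at this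
    simpa [← Nat.cast_smul_eq_nsmul k, Nat.cast_add_one_ne_zero] using this
  have := (PL.band ih hd (Y := Y) ⟨h.xy, h.yx, by simp [mul_add, h.xy, h.xz],
    by simp [add_mul, h.yx, h.zx], yz⟩ ⟨_, f t⟩ ht (f t) g ?_).map .x .y (Ex.z.add (Ex.y.smul (-t)))
  · simpa using this
  have e1 : ker Y ⊓ ker (Z + t • Y) = ker Y ⊓ ker Z := by
    ext v
    simp +contextual
  have e2 : range Y ⊔ range (Z + t • Y) = range Y ⊔ range Z := by
    refine le_antisymm (sup_le le_sup_left ?_) (sup_le le_sup_left ?_) <;> rintro _ ⟨v, rfl⟩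
    · exact add_mem (mem_sup_right ⟨v, rfl⟩) (mem_sup_left ⟨t • v, by simp⟩)
    · rw [← add_sub_cancel_right (Z v) (t • Y v)]
      exact sub_mem (mem_sup_right ⟨v, rfl⟩) (mem_sup_left ⟨t • v, by simp⟩)
  rwa [e1, e2]

omit ih hd

theorem PL.sm (h : PL X Y Z) : Sm X Y Z := by
  induction hn : finrank k V using Nat.strong_induction_on generalizing V with | _ n i => ?_
  subst hn
  have ih : IH k (finrank k V) := fun V _ _ _ a X Y Z h => i _ a h rfl
  by_cases hd : finrank k V ≤ 1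
  · exact .small hd
  rw [not_le] at hd
  haveI : Nontrivial V := nontrivial_of_finrank_pos (R := k) (by omega)
  have d : ∀ A : End k V, ∃ c : k, Two (A - c • 1) ∨ IsNilpotent (A - c • 1) := fun A => by
    obtain ⟨c, v, v0, hv⟩ := eig A
    exact ⟨c, or_iff_not_imp_right.2 fun a => ⟨a, fun b => v0 (ker_eq_bot'.1
      ((isUnit_iff_ker_eq_bot _).1 b) v (by simp [hv]))⟩⟩
  obtain ⟨a, x | x⟩ := d X
  · exact h.twox ih x
  obtain ⟨b, y | y⟩ := d Y
  · exact h.two ih y
  obtain ⟨c, z | z⟩ := d Z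
  · exact (h.swap.two ih z).swap
  by_cases x0 : X = 0
  · exact .shift 0 0 c (by
      simpa [x0] using plane ih hd (h.yz.sub_right ((Commute.one_right _).smul_right c)) z)
  obtain rfl : b = 0 := by_contra fun e => x0 ((unit_of y e).mul_left_eq_zero.1 h.xy)
  obtain rfl : c = 0 := by_contra fun e => x0 ((unit_of z e).mul_left_eq_zero.1 h.xz)
  by_cases a0 : a = 0
  · exact h.core ih hd (by simpa [a0] using x) (by simpa using y) (by simpa using z)
  obtain rfl := (unit_of x a0).mul_right_eq_zero.1 h.xy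
  obtain rfl := (unit_of x a0).mul_right_eq_zero.1 h.xz
  exact (plane ih hd (.zero_right X) .zero).map .y .x .z

end Pool.Agent.Lib.MP_02ae3d_ag
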