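import Pool.Agent.Lib.MP_02ae3d_ag.H88Iso
import Pool.Agent.Lib.MP_02ae3d_ag.Main

set_option autoImplicit false
set_option linter.unusedSectionVars false

namespace Pool.Agent.Lib.MP_02ae3d_ag.H88
open MvPolynomial Module LinearMap Matrix

variable {k : Type} [Field k]

abbrev S (k : Type) [Field k] := MvPolynomial (Fin 2) k

/-- linear substitution of the two variables -/
noncomputable def act (g : Matrix (Fin 2) (Fin 2) k) : S k →ₐ[k] S k :=
  aeval fun i => ∑ j, C (g j i) * X j

theorem act_mul (g h : Matrix (Fin 2) (Fin 2) k) (f : S k) : act (g * h) f = act g (act h f) := by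
  have : act (g * h) = (act g).comp (act h) := by
    refine algHom_ext fun i => ?_
    simp [act, Matrix.mul_apply]
    ring
  exact congr($this f)

theorem act_one (f : S k) : act 1 f = f := by
  have : act (1 : Matrix (Fin 2) (Fin 2) k) = AlgHom.id k _ := by
    refine algHom_ext fun i => ?_
    fin_cases i <;> simp [act]
  exact congr($this f)

theorem eval_act (p : Fin 2 → k) (g : Matrix (Fin 2) (Fin 2) k) (f : S k) :
    eval p (act g f) = eval (p ᵥ* g) f := by
  have : (aeval p).comp (act g) = aeval (p ᵥ* g) := by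
    refine algHom_ext fun i => ?_
    simp [act, vecMul, dotProduct, mul_comm]
  exact congr($this f)

/-- linear forms -/
noncomputable def lin : (Fin 2 → k) →ₗ[k] S k := Fintype.linearCombination k X

theorem lin_single (i : Fin 2) : lin (Pi.single i (1 : k)) = X i := by
  simp [lin, Fintype.linearCombination_apply_single]

theorem act_lin (g : Matrix (Fin 2) (Fin 2) k) (a : Fin 2 → k) :
    act g (lin a) = lin (g *ᵥ a) := by
  simp [act, lin, Fintype.linearCombination_apply, mulVec, dotProduct, smul_eq_C_mul]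
  ring

theorem dec (f : S k) : ∃ a b, f = C (eval 0 f) + X 0 * a + X 1 * b := by
  induction f using MvPolynomial.induction_on with
  | C c => exact ⟨0, 0, by simp⟩
  | add p q a b =>
    obtain ⟨a, a', e⟩ := a
    obtain ⟨b, b', e'⟩ := b
    exact ⟨a + b, a' + b', by rw [map_add, map_add]; linear_combination e + e'⟩
  | mul_X p i _ =>
    fin_cases i
    · exact ⟨p, 0, by simp [mul_comm]⟩
    · exact ⟨0, p, by simp [mul_comm]⟩

theorem alt {N : Type} [AddCommGroup N] [Module k N] (B : (Fin 2 → k) →ₗ[k] (Fin 2 → k) →ₗ[k] N)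
    {s : Matrix (Fin 2) (Fin 2) k} (h : s.det = 1) :
    B (s *ᵥ Pi.single 0 1) (s *ᵥ Pi.single 1 1) - B (s *ᵥ Pi.single 1 1) (s *ᵥ Pi.single 0 1) =
      B (Pi.single 0 1) (Pi.single 1 1) - B (Pi.single 1 1) (Pi.single 0 1) := by
  have e : ∀ i, s *ᵥ Pi.single i 1 = s 0 i • Pi.single 0 1 + s 1 i • Pi.single 1 1 := fun i => by
    ext j
    fin_cases j <;> simp
  rw [det_fin_two] at h
  simp only [e, map_add, map_smul, LinearMap.add_apply, LinearMap.smul_apply]
  linear_combination (norm := module) h • B (Pi.single 0 1) (Pi.single 1 1) -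
    h • B (Pi.single 1 1) (Pi.single 0 1)

variable {V : Type} [AddCommGroup V] [Module k V] [FiniteDimensional k V]

/-- evaluation of a polynomial at a pair of maps -/
noncomputable def ev (a b : End k V) : S k →ₗ[k] End k V :=
  (basisMonomials (Fin 2) k).constr k fun m => a ^ m 0 * b ^ m 1

theorem ev_mon (a b : End k V) (m : Fin 2 →₀ ℕ) (c : k) :
    ev a b (monomial m c) = c • (a ^ m 0 * b ^ m 1) := by
  rw [← mul_one c, ← smul_eq_mul, ← smul_monomial, map_smul, smul_eq_mul, mul_one]
  exact congrArg _ ((basisMonomials (Fin 2) k).constr_basis k _ m)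

theorem ev_isP {W : Type} [AddCommGroup W] [Module k W] {a b : W → End k V} (ha : IsP k a)
    (hb : IsP k b) (f : S k) : IsP k fun w => ev (a w) (b w) f := by
  induction f using MvPolynomial.induction_on' with
  | monomial m c => simp only [ev_mon]; fun_prop
  | add p q hp hq => simpa using hp.add hq

theorem ex_pow {Φ : T3 k V → End k V} (h : Ex Φ) (n : ℕ) : Ex fun T => Φ T ^ n := by
  simpa using h.aeval (Polynomial.X ^ n)

theorem ev_ex (f : S k) : Ex fun T : T3 k V => ev T.2.1 T.2.2 f := by
  induction f using MvPolynomial.induction_on' with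
  | monomial m c => simpa only [ev_mon] using ((ex_pow .y _).mul (ex_pow .z _)).smul c
  | add p q hp hq => simpa using hp.add hq

theorem ev_eq (ψ : S k →ₐ[k] End k V) (f : S k) : ev (ψ (X 0)) (ψ (X 1)) f = ψ f := by
  induction f using MvPolynomial.induction_on' with
  | monomial m c =>
    rw [ev_mon, monomial_eq, Finsupp.prod_fintype _ _ (by simp)]
    simp [Algebra.algebraMap_eq_smul_one]
  | add p q hp hq => simp [hp, hq]

/-- the algebra map given by a commuting pair -/
noncomputable def mk {a b : End k V} (c : Commute a b) : S k →ₐ[k] End k V :=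
  .ofLinearMap (ev a b) (by simpa using ev_mon a b 0 1) fun f g => by
    induction f using MvPolynomial.induction_on' with
    | add p q hp hq => simp [add_mul, hp, hq]
    | monomial m x =>
      induction g using MvPolynomial.induction_on' with
      | add p q hp hq => simp [mul_add, hp, hq]
      | monomial n y =>
        simp only [monomial_mul, ev_mon, Finsupp.add_apply, pow_add, smul_mul_smul_comm, mul_assoc]
        rw [← mul_assoc (a ^ n 0), (c.pow_pow _ _).eq, mul_assoc]

theorem mk_apply {a b : End k V} (c : Commute a b) (f : S k) : mk c f = ev a b f := rfl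

theorem mk_X0 {a b : End k V} (c : Commute a b) : mk c (X 0) = a := by
  simp [mk_apply, X, ev_mon]

theorem mk_X1 {a b : End k V} (c : Commute a b) : mk c (X 1) = b := by
  simp [mk_apply, X, ev_mon]

theorem cm (ψ : S k →ₐ[k] End k V) (f g : S k) : Commute (ψ f) (ψ g) := (Commute.all f g).map ψ

/-- restriction to a stable subspace -/
noncomputable def res {A : Type} [CommRing A] [Algebra k A] (ψ : A →ₐ[k] End k V)
    (p : Submodule k V) (h : ∀ f, ∀ v ∈ p, ψ f v ∈ p) : A →ₐ[k] End k p :=
  .ofLinearMap ⟨⟨fun f => (ψ f).restrict (h f), fun _ _ => by ext; simp⟩, fun _ _ => by ext; simp⟩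
    (by ext; simp) fun _ _ => by ext; simp

@[simp] theorem res_apply {A : Type} [CommRing A] [Algebra k A] (ψ : A →ₐ[k] End k V)
    (p : Submodule k V) (h : ∀ f, ∀ v ∈ p, ψ f v ∈ p) (f : A) (v : p) :
    (res ψ p h f v : V) = ψ f v := rfl

theorem two_gen [IsAlgClosed k] [CharZero k] (ψ : S k →ₐ[k] End k V) (a b c : S k) :
    Sm (ψ a) (ψ b) (ψ c) := by
  simpa [ev_eq] using (PL.sm (X := 0) ⟨by simp, by simp, by simp, by simp,
    cm ψ (X 0) (X 1)⟩).map (ev_ex a) (ev_ex b) (ev_ex c)

variable {A B : Type} [AddCommGroup A] [Module k A] [FiniteDimensional k A] [AddCommGroup B]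
  [Module k B] [FiniteDimensional k B]

theorem sm_equiv (e : A →ₗ[k] B) (he : Function.Bijective e) {X Y Z : End k A} {X' Y' Z' : End k B}
    (x : ∀ v, e (X v) = X' (e v)) (y : ∀ v, e (Y v) = Y' (e v)) (z : ∀ v, e (Z v) = Z' (e v))
    (h : Sm X' Y' Z') : Sm X Y Z := by
  obtain ⟨e, rfl⟩ : ∃ e' : A ≃ₗ[k] B, e' = e := ⟨.ofBijective e he, rfl⟩
  let c := e.symm.conj.toLinearMap
  have hc : ∀ T v, c T (e.symm v) = e.symm (T v) := by simp [c, LinearEquiv.conj_apply]
  have key : ∀ (X : End k A) (X' : End k B), (∀ v, e (X v) = X' (e v)) → X = c X' := fun X X' h =>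
    LinearMap.ext fun v => by simp [c, LinearEquiv.conj_apply, ← h]
  rw [Sm, key X X' x, key Y Y' y, key Z Z' z]
  refine IsP.map_cl (Φ := fun T : T3 k B => (c T.1, c T.2.1, c T.2.2)) (by fun_prop)
    (fun T hT => subset_cl (top_unique ?_)) h
  rw [← e.symm.range, range_eq_map, ← show _ = ⊤ from hT, Submodule.map_span]
  refine Submodule.span_mono ?_
  rintro _ ⟨v, ⟨⟨a, a1⟩, ⟨b, b1⟩, c, c1⟩, rfl⟩
  exact ⟨⟨a, by simp [*]⟩, ⟨b, by simp [*]⟩, c, by simp [*]⟩

theorem trace_ses (i : A →ₗ[k] V) (q : V →ₗ[k] B) (hi : Function.Injective i)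
    (hq : Function.Surjective q) (h : ker q = range i) {T : End k V} {a : End k A} {b : End k B}
    (h1 : ∀ v, T (i v) = i (a v)) (h2 : ∀ v, q (T v) = b (q v)) :
    trace k V T = trace k A a + trace k B b := by
  obtain ⟨s, hs⟩ := q.exists_rightInverse_of_surjective (range_eq_top.2 hq)
  obtain ⟨r, hr⟩ := i.exists_leftInverse_of_injective (ker_eq_bot.2 hi)
  replace hs : ∀ v, q (s v) = v := fun v => congr($hs v)
  replace hr : ∀ v, r (i v) = v := fun v => congr($hr v)
  have q0 : ∀ v, q (i v) = 0 := fun v => h.ge ⟨v, rfl⟩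
  have e : T = (T ∘ₗ i) ∘ₗ (r ∘ₗ (1 - s ∘ₗ q)) + (T ∘ₗ s) ∘ₗ q := LinearMap.ext fun v => by
    obtain ⟨w, hw⟩ := h.le (show v - s (q v) ∈ ker q by simp [hs])
    simp [← hw, hr, -map_sub]
    simp [hw]
  rw [e, map_add, trace_comp_comm', trace_comp_comm' q]
  congr 2 <;> ext v <;> simp [h1, h2, hs, hr, q0]

theorem nz_eig [IsAlgClosed k] {T : End k V} (h : ¬ IsNilpotent T) :
    ∃ (c : k) (w : V), c ≠ 0 ∧ w ≠ 0 ∧ T w = c • w := by
  by_contra a
  push Not at a
  have m := minpoly.monic (LinearMap.isIntegral T)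
  have : ∀ c ∈ (minpoly k T).roots, c = 0 := fun c hc => by_contra fun c0 => by
    obtain ⟨w, hw⟩ := (End.hasEigenvalue_iff_isRoot.2
      (Polynomial.isRoot_of_mem_roots hc)).exists_hasEigenvector
    exact a c w c0 hw.2 hw.apply_eq_smul
  have e := minpoly.aeval k T
  rw [(IsAlgClosed.splits _).eq_prod_roots_of_monic m, Multiset.eq_replicate_card.2 this] at e
  exact h ⟨_, by simpa using e⟩

theorem nil_pow {T : End k V} (h : IsNilpotent T) {n : ℕ} (hn : finrank k V ≤ n) : T ^ n = 0 := by
  have := T.aeval_self_charpoly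
  rw [h.charpoly_eq_X_pow_finrank, map_pow, Polynomial.aeval_X] at this
  exact pow_eq_zero_of_le hn this

end Pool.Agent.Lib.MP_02ae3d_ag.H88
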