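import Pool.Agent.Lib.MP_02ae3d_ag.H88Ind

set_option autoImplicit false
set_option linter.unusedSectionVars false

namespace Pool.Agent.Lib.MP_02ae3d_ag.H88
open Module LinearMap Representation

variable {k : Type} [Field k] [IsAlgClosed k] [CharZero k] {G : Type} [Group G] [Fintype G]
  {V W : Type} [AddCommGroup V] [Module k V] [FiniteDimensional k V] [AddCommGroup W] [Module k W]
  [FiniteDimensional k W] {π : Representation k G V} {τ : Representation k G W} {χ φ ξ : G → k}

/-- characters -/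
def IsCh (χ : G → k) : Prop := ∃ (W : Type) (_ : AddCommGroup W) (_ : Module k W)
  (_ : FiniteDimensional k W) (τ : Representation k G W), τ.character = χ

noncomputable def ip (χ φ : G → k) : k := (Nat.card G : k)⁻¹ * ∑ g, χ g⁻¹ * φ g

noncomputable def N (χ φ : G → k) : ℕ := Function.invFun Nat.cast (ip χ φ)

open Classical in
noncomputable def reg : G → k := Pi.single 1 (Nat.card G)

def Irr (φ : G → k) : Prop := IsCh φ ∧ φ ≠ 0 ∧ ∀ χ, IsCh χ → N φ χ ≠ 0 → IsCh (χ - φ)

theorem isCh (π : Representation k G V) : IsCh π.character := ⟨V, _, _, inferInstance, π, rfl⟩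

theorem N_of {n : ℕ} (h : ip χ φ = n) : N χ φ = n := by
  rw [N, h, Function.leftInverse_invFun Nat.cast_injective]

theorem ip_rep : ip π.character τ.character = finrank k (linHom π τ).invariants := by
  simp only [ip, ← char_linHom, card_inv_mul_sum_char_eq_finrank]

theorem N_eq (h : IsCh χ) (h' : IsCh φ) : (N χ φ : k) = ip χ φ := by
  obtain ⟨_, _, _, _, _, rfl⟩ := h
  obtain ⟨_, _, _, _, _, rfl⟩ := h'
  rw [N_of ip_rep, ip_rep]

theorem N_comm : N χ φ = N φ χ := by
  rw [N, ip, ← Equiv.sum_comp (Equiv.inv G)]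
  simp [mul_comm, N, ip]

theorem ip_reg : ip χ reg = χ 1 := by
  classical
  simp [ip, reg, Pi.single_apply, mul_comm (χ 1)]

theorem D_rep : N π.character reg = finrank k V := N_of (by rw [ip_reg, char_one])

theorem isCh_reg : IsCh (reg : G → k) := by
  classical
  refine ⟨G → k, _, _, inferInstance, ⟨⟨fun g => funLeft k k (· * g), by ext; simp⟩,
    fun _ _ => by ext; simp [mul_assoc]⟩, funext fun g => ?_⟩
  rw [character, trace_eq_matrix_trace k (Pi.basisFun k G)]
  by_cases h : g = 1 <;> simp [Matrix.trace, toMatrix_apply, reg, Pi.single_apply, h]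

theorem isCh_one : IsCh (1 : G → k) :=
  ⟨k, _, _, inferInstance, 1, funext fun g => by simp [character]⟩

theorem isCh_zero : IsCh (0 : G → k) :=
  ⟨PUnit, _, _, inferInstance, 1, funext fun g => by simp [character, finrank_zero_of_subsingleton]⟩

theorem IsCh.add (h : IsCh χ) (h' : IsCh φ) : IsCh (χ + φ) := by
  obtain ⟨_, _, _, _, π, rfl⟩ := h
  obtain ⟨_, _, _, _, τ, rfl⟩ := h'
  exact ⟨_, _, _, inferInstance, π.prod τ, funext fun g => trace_prodMap' _ _⟩

theorem IsCh.mul (h : IsCh χ) (h' : IsCh φ) : IsCh (χ * φ) := by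
  obtain ⟨_, _, _, _, π, rfl⟩ := h
  obtain ⟨_, _, _, _, τ, rfl⟩ := h'
  exact ⟨_, _, _, inferInstance, π.tprod τ, char_tensor _ _⟩

theorem N_add (h : IsCh χ) (h' : IsCh φ) (h'' : IsCh ξ) : N ξ (χ + φ) = N ξ χ + N ξ φ :=
  N_of (by simp [N_eq, *, ip, mul_add, Finset.sum_add_distrib])

theorem N_add' (h : IsCh χ) (h' : IsCh φ) (h'' : IsCh ξ) : N (χ + φ) ξ = N χ ξ + N φ ξ := by
  simp only [@N_comm _ _ _ _ _ _ _ _ ξ, N_add h h' h'']

theorem N_le (h : IsCh χ) (h' : IsCh φ) : N χ φ ≤ N χ reg * N φ reg := by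
  obtain ⟨_, _, _, _, _, rfl⟩ := h
  obtain ⟨_, _, _, _, _, rfl⟩ := h'
  rw [N_of ip_rep, D_rep, D_rep, ← finrank_linearMap]
  exact Submodule.finrank_le _

theorem IsCh.eq0 (h : IsCh χ) (e : N χ reg = 0 ∨ N χ χ = 0) : χ = 0 := by
  obtain ⟨W, _, _, _, π, rfl⟩ := h
  have : Subsingleton W := by
    rcases e with e | e
    · rwa [D_rep, finrank_zero_iff] at e
    · rw [N_of ip_rep, Submodule.finrank_eq_zero] at e
      exact ⟨fun a b => by
        have := e.le (mem_L.2 fun g => by simp : (1 : End k W) ∈ _)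
        exact congr($this a).trans congr($this b).symm⟩
  exact funext fun g => by simp [character, Subsingleton.elim (π g) 0]

theorem ch_sub (j : V →ₗ[k] W) (hj : Function.Injective j) (e : ∀ g v, τ g (j v) = j (π g v)) :
    IsCh (τ.character - π.character) :=
  ⟨_, _, _, inferInstance, τ.quotient (range j) fun g => by rintro _ ⟨v, rfl⟩; exact ⟨_, (e g v).symm⟩,
    funext fun g => eq_sub_of_add_eq' (trace_ses j (range j).mkQ hj (Submodule.mkQ_surjective _)
      (Submodule.ker_mkQ _) (e g) fun _ => rfl).symm⟩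

theorem IsCh.dec (h : IsCh χ) : χ = 0 ∨ ∃ φ, Irr φ ∧ IsCh (χ - φ) := by
  obtain ⟨W, _, _, _, π, rfl⟩ := h
  rcases subsingleton_or_nontrivial W with _ | _
  · exact .inl ((isCh π).eq0 (.inl (by rw [D_rep, finrank_zero_of_subsingleton])))
  obtain ⟨I, ⟨I0, s⟩, m⟩ := exists_minimal_of_wellFoundedLT
    (fun p : Submodule k W => p ≠ ⊥ ∧ ∀ g, p ≤ p.comap (π g)) ⟨⊤, top_ne_bot, fun _ => by simp⟩
  refine .inr ⟨_, ⟨isCh (π.subrepresentation I s), fun e => I0 ?_, ?_⟩,
    ch_sub I.subtype I.injective_subtype fun _ _ => rfl⟩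
  · simpa using congrFun e 1
  rintro _ ⟨V, _, _, _, τ, rfl⟩ h
  rw [N_of ip_rep, Ne, Submodule.finrank_eq_zero] at h
  obtain ⟨j, hj, j0⟩ := Submodule.exists_mem_ne_zero_of_ne_bot h
  have e : ∀ g v, τ g (j v) = j (π.subrepresentation I s g v) := by
    generalize π.subrepresentation I s = ρ at hj
    exact fun g v => by simpa using congr($(hj g) (ρ g v))
  refine ch_sub j (ker_eq_bot.1 (by_contra fun a => j0 (LinearMap.ext fun v => ?_))) e
  obtain ⟨w, hw, e⟩ := m (y := (ker j).map I.subtype) ⟨fun b => a (Submodule.map_injective_of_injective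
    I.injective_subtype (b.trans (Submodule.map_bot _).symm)), fun g => by
    rintro _ ⟨v, hv, rfl⟩
    exact ⟨π.subrepresentation I s g v, (e g v).symm.trans (by simp [mem_ker.1 hv]), rfl⟩⟩
    (Submodule.map_subtype_le ..) v.2
  exact Subtype.ext e ▸ hw

theorem IsCh.ind {p : (G → k) → Prop} (h0 : p 0) (h : ∀ φ ξ, Irr φ → IsCh ξ → p ξ → p (φ + ξ))
    (hχ : IsCh χ) : p χ := by
  induction hn : N χ reg using Nat.strong_induction_on generalizing χ with | _ n ih => ?_
  rcases hχ.dec with rfl | ⟨φ, a, b⟩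
  · exact h0
  have := N_add' a.1 b isCh_reg
  have c := mt (fun e => a.1.eq0 (.inl e)) a.2.1
  rw [add_sub_cancel] at this
  simpa using h _ _ a b (ih _ (by omega) b rfl)

theorem IsCh.emb (h : IsCh χ) : ∀ F, IsCh F → (∀ φ, IsCh φ → N φ χ ≤ N φ F) → IsCh (F - χ) := by
  refine h.ind (p := fun χ => ∀ F, IsCh F → (∀ φ, IsCh φ → N φ χ ≤ N φ F) → IsCh (F - χ))
    (by simp +contextual) fun φ ξ a b ih F hF le => ?_
  have c := mt (fun e => a.1.eq0 (.inr e)) a.2.1
  have d := a.2.2 F hF (by have := le φ a.1; rw [N_add a.1 b a.1] at this; omega)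
  rw [← sub_sub]
  refine ih _ d fun ψ hψ => ?_
  have := le ψ hψ
  have e := N_add a.1 d hψ
  rw [add_sub_cancel] at e
  rw [N_add a.1 b hψ] at this
  omega

theorem irr_one : Irr (1 : G → k) := by
  rcases (isCh_one (k := k) (G := G)).dec with e | ⟨φ, a, b⟩
  · simpa using congrFun e 1
  have := N_add' a.1 b isCh_reg
  have c := mt (fun e => a.1.eq0 (.inl e)) a.2.1
  rw [add_sub_cancel, N_of (n := 1) (by simp [ip_reg])] at this
  rwa [sub_eq_zero.1 (b.eq0 (.inl (by omega)))]

end Pool.Agent.Lib.MP_02ae3d_ag.H88
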