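import Mathlib

set_option autoImplicit false
set_option linter.unusedSectionVars false

namespace Pool.Agent.Lib.MP_02ae3d_ag.H88
open MvPolynomial

variable {k : Type} [Field k]

theorem ht_step {R : Type} [CommRing R] [IsNoetherianRing R] (P : Ideal (Polynomial R))
    [P.IsPrime] : (P.comap Polynomial.C).height ≤ P.height ∧
      (P ≠ (P.comap Polynomial.C).map Polynomial.C →
        (P.comap Polynomial.C).height + 1 ≤ P.height) := by
  have key : ∀ (p : Ideal R) [p.IsPrime] (Q : Ideal (Polynomial R)) [Q.IsPrime] [Q.LiesOver p],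
      p.height ≤ Q.height := fun p _ Q _ _ => by
    rw [Ideal.height_eq_height_add_of_liesOver_of_hasGoingDown p Q]
    exact le_self_add
  set p := P.comap Polynomial.C with hp
  have : p.IsPrime := Ideal.comap_isPrime _ _
  have : P.LiesOver p := ⟨rfl⟩
  refine ⟨key p P, fun h => ?_⟩
  have : (p.map Polynomial.C).IsPrime := Ideal.isPrime_map_C_of_isPrime
  have : (p.map (Polynomial.C : R →+* Polynomial R)).LiesOver p :=
    ⟨le_antisymm Ideal.le_comap_map fun x hx => Ideal.map_comap_le (K := P) hx⟩
  exact (add_le_add_left (key p _) 1).trans (Ideal.height_add_one_le_of_lt_of_isPrime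
    (lt_of_le_of_ne Ideal.map_comap_le (Ne.symm h)))

theorem ht_ge {K : Type} [Field K] [Algebra k K] (n : ℕ) (t : Fin n → K) :
    ∃ (r : ℕ) (j : Fin r → Fin n), AlgebraicIndependent k (t ∘ j) ∧
      (n : ℕ∞) ≤ (RingHom.ker (aeval (R := k) t)).height + r := by
  induction n with
  | zero => exact ⟨0, Fin.elim0, algebraicIndependent_empty_type, by simp⟩
  | succ n ih =>
    obtain ⟨r, j, hj, hr⟩ := ih (t ∘ Fin.succ)
    let φ : Polynomial (MvPolynomial (Fin n) k) →+* K :=
      Polynomial.eval₂RingHom (aeval (R := k) (t ∘ Fin.succ)).toRingHom (t 0)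
    have e : ∀ f, φ (finSuccEquiv k n f) = aeval t f := fun f => by
      have : φ.comp (finSuccEquiv k n).toRingEquiv.toRingHom = (aeval (R := k) t).toRingHom := by
        ext i
        · simp [φ, finSuccEquiv_apply]
        · refine Fin.cases ?_ (fun i => ?_) i <;> simp [φ, finSuccEquiv_X_zero, finSuccEquiv_X_succ]
      exact congr($this f)
    have e1 : (RingHom.ker (aeval (R := k) t)).height = (RingHom.ker φ).height := by
      rw [← (finSuccEquiv k n).toRingEquiv.height_comap]
      congr 1
      ext f
      simp [← e]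
    have e2 : (RingHom.ker φ).comap Polynomial.C = RingHom.ker (aeval (R := k) (t ∘ Fin.succ)) := by
      ext f
      simp [φ]
    have : (RingHom.ker φ).IsPrime := RingHom.ker_isPrime _
    obtain ⟨a, b⟩ := ht_step (RingHom.ker φ)
    rw [e2] at a b
    rw [e1]
    by_cases c : RingHom.ker φ = (RingHom.ker (aeval (R := k) (t ∘ Fin.succ))).map Polynomial.C
    · refine ⟨r + 1, Fin.cons 0 (Fin.succ ∘ j), ?_, ?_⟩
      · have tr : Transcendental (Algebra.adjoin k (Set.range ((t ∘ Fin.succ) ∘ j))) (t 0) := by
          rintro ⟨q, q0, hq⟩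
          have s : ∀ x : Algebra.adjoin k (Set.range ((t ∘ Fin.succ) ∘ j)),
              ∃ f, aeval (R := k) (t ∘ Fin.succ) f = x := fun x =>
            (Algebra.adjoin_range_eq_range_aeval k (t ∘ Fin.succ)).le
              (Algebra.adjoin_mono (Set.range_comp_subset_range _ _) x.2)
          choose l hl using s
          have m : (∑ i ∈ q.support, Polynomial.monomial i (l (q.coeff i))) ∈ RingHom.ker φ := by
            rw [RingHom.mem_ker, map_sum, ← hq, Polynomial.aeval_def, Polynomial.eval₂_eq_sum,
              Polynomial.sum_def]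
            exact Finset.sum_congr rfl fun i _ => by simp [φ, hl]
          rw [c, Ideal.mem_map_C_iff] at m
          obtain ⟨i, hi⟩ := Polynomial.support_nonempty.2 q0
          have := m i
          rw [Polynomial.finsetSum_coeff, Finset.sum_eq_single i (fun b _ h => by
            simp [Polynomial.coeff_monomial, h]) (fun h => (h hi).elim), Polynomial.coeff_monomial,
            if_pos rfl, RingHom.mem_ker, hl] at this
          exact Polynomial.mem_support_iff.1 hi (Subtype.ext this)
        have := (AlgebraicIndependent.option_iff.2 ⟨hj, tr⟩).comp _ (_root_.finSuccEquiv r).injective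
        convert this using 1
        ext i
        refine Fin.cases ?_ (fun i => ?_) i <;> simp
      · push_cast
        rw [← add_assoc]
        gcongr
        exact hr.trans (by gcongr)
    · refine ⟨r, Fin.succ ∘ j, hj, ?_⟩
      push_cast
      calc (n : ℕ∞) + 1 ≤ _ + r + 1 := by gcongr
        _ = _ + 1 + r := add_right_comm _ _ _
        _ ≤ _ := by gcongr; exact b c

open scoped IntermediateField.algebraAdjoinAdjoin in
theorem exists_der [CharZero k] {K : Type} [Field K] [Algebra k K] {ι : Type} {x : ι → K}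
    (hx : AlgebraicIndependent k x) (c : ι → K) : ∃ D : Derivation k K K, ∀ i, D (x i) = c i := by
  classical
  obtain ⟨s, hs, hb⟩ := exists_isTranscendenceBasis_superset hx.to_subtype_range
  let c' : s → K := fun b => if h : ∃ i, x i = b then c h.choose else 0
  let B := Algebra.adjoin k (Set.range ((↑) : s → K))
  let F := IntermediateField.adjoin k (Set.range ((↑) : s → K))
  have : CharZero F := algebraRat.charZero _
  have : Algebra.IsAlgebraic F K := hb.isAlgebraic_field
  have : Algebra.FormallySmooth B F := .of_isLocalization (nonZeroDivisors _)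
  have : Algebra.FormallyEtale F K := .of_isSeparable _ _
  have : Algebra.FormallySmooth B K := .comp B F K
  let φ : B →ₐ[k] TrivSqZeroExt K K := (aeval fun b : s =>
    TrivSqZeroExt.inl (b : K) + TrivSqZeroExt.inr (c' b)).comp hb.1.aevalEquiv.symm.toAlgHom
  have hφ : ∀ f, φ (hb.1.aevalEquiv f) = aeval (fun b : s =>
    TrivSqZeroExt.inl (b : K) + TrivSqZeroExt.inr (c' b)) f := fun f => by simp [φ]
  have h1 : ∀ b, (φ b).fst = b := fun b => by
    obtain ⟨f, rfl⟩ := hb.1.aevalEquiv.surjective b
    have : (TrivSqZeroExt.fstHom k K K).comp (aeval fun b : s =>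
      TrivSqZeroExt.inl (b : K) + TrivSqZeroExt.inr (c' b)) = aeval ((↑) : s → K) := by
      ext; simp
    rw [hφ]
    exact congr($this f).trans (hb.1.algebraMap_aevalEquiv f).symm
  let : Algebra B (TrivSqZeroExt K K) := φ.toRingHom.toAlgebra
  let g : TrivSqZeroExt K K →ₐ[B] K := ⟨(TrivSqZeroExt.fstHom k K K).toRingHom, h1⟩
  have hg : IsNilpotent (RingHom.ker g) := ⟨2, by
    rw [Submodule.pow_succ, Submodule.pow_one, Ideal.zero_eq_bot, eq_bot_iff, Ideal.mul_le]
    intro a (ha : a.fst = 0) b (hb : b.fst = 0)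
    exact TrivSqZeroExt.ext (by simp [ha]) (by simp [ha, hb])⟩
  let L := Algebra.FormallySmooth.liftOfSurjective (AlgHom.id B K) g
    (fun a => ⟨TrivSqZeroExt.inl a, rfl⟩) hg
  have l1 : ∀ a, (L a).fst = a := Algebra.FormallySmooth.liftOfSurjective_apply _ g _ hg
  have l2 : ∀ b : B, L b = φ b := L.commutes
  have l3 : ∀ a : k, L (algebraMap k K a) = algebraMap k _ a := fun a =>
    (l2 (algebraMap k B a)).trans (φ.commutes a)
  refine ⟨Derivation.mk' ⟨⟨fun a => (L a).snd, by simp⟩, fun a b => ?_⟩ fun a b => ?_, fun i => ?_⟩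
  · change (L (a • b)).snd = a • (L b).snd
    rw [Algebra.smul_def, map_mul, l3, ← Algebra.smul_def]
    rfl
  · simp [l1, mul_comm]
  · have e : x i = hb.1.aevalEquiv (X ⟨x i, hs ⟨i, rfl⟩⟩) :=
      ((hb.1.algebraMap_aevalEquiv (X ⟨x i, hs ⟨i, rfl⟩⟩)).trans (aeval_X _ _)).symm
    have h : ∃ j, x j = x i := ⟨i, rfl⟩
    change (L (x i)).snd = _
    rw [e, l2, hφ]
    simp [c', h, hx.injective h.choose_spec]

theorem dens [IsAlgClosed k] [CharZero k] {n s : ℕ} {κ : Type} (f : Fin s → MvPolynomial (Fin n) k)
    (h : κ → MvPolynomial (Fin n) k)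
    (iso : ∀ (K : Type) [Field K] [Algebra k K] (t : Fin n → K), (∀ j, aeval t (f j) = 0) →
      (∀ j, aeval t (h j) = 0) → ∀ (r : ℕ) (j : Fin r → Fin n) (D : Fin r → Derivation k K K),
      (∀ a b, D a (t (j b)) = if a = b then 1 else 0) → s + r < n)
    {p : Fin n → k} (hp : ∀ j, eval p (f j) = 0) {F : MvPolynomial (Fin n) k}
    (hF : ∀ q, (∀ j, eval q (f j) = 0) → (∃ j, eval q (h j) ≠ 0) → eval q F = 0) :
    eval p F = 0 := by
  classical
  by_contra c
  have : (RingHom.ker (eval p)).IsPrime := RingHom.ker_isPrime _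
  obtain ⟨P, hP, hle⟩ := Ideal.exists_minimalPrimes_le (I := Ideal.span (Set.range f))
    (J := RingHom.ker (eval p)) (Ideal.span_le.2 (by rintro _ ⟨j, rfl⟩; exact hp j))
  have pr : P.IsPrime := hP.1.1
  have m : ∀ j, h j ∈ P := fun j => by
    have : F * h j ∈ (Ideal.span (Set.range f)).radical := by
      rw [← vanishingIdeal_zeroLocus_eq_radical (K := k), mem_vanishingIdeal_iff]
      intro q hq
      by_cases a : eval q (h j) = 0
      · simp [coe_aeval_eq_eval, a]
      · simp [coe_aeval_eq_eval, hF q (fun i => hq _ (Ideal.subset_span ⟨i, rfl⟩)) ⟨j, a⟩]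
    exact (pr.mem_or_mem (pr.radical_le_iff.2 hP.1.2 this)).resolve_left fun a => c (hle a)
  let K := P.ResidueField
  let t : Fin n → K := fun i => algebraMap _ K (X i : MvPolynomial (Fin n) k)
  have e : ∀ g, aeval t g = algebraMap _ K g := fun g => by
    have : aeval t = IsScalarTower.toAlgHom k (MvPolynomial (Fin n) k) K := by ext; simp [t]
    exact congr($this g)
  have e1 : RingHom.ker (aeval (R := k) t) = P := by
    ext g
    rw [RingHom.mem_ker, e, Ideal.algebraMap_residueField_eq_zero]
  obtain ⟨r, j, hj, hr⟩ := ht_ge (k := k) n t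
  choose D hD using fun a : Fin r => exists_der hj fun b => if a = b then 1 else 0
  have a := iso K t (fun j => e1.ge (hP.1.2 (Ideal.subset_span ⟨j, rfl⟩))) (fun j => e1.ge (m j))
    r j D hD
  have b := Ideal.height_le_card_of_mem_minimalPrimes_span_finset (p := P)
    (s := Finset.univ.image f) (by simpa using hP)
  rw [e1] at hr
  have d : (n : ℕ∞) ≤ ((s + r : ℕ) : ℕ∞) := hr.trans (by
    push_cast
    gcongr
    exact b.trans (by exact_mod_cast Finset.card_image_le.trans (by simp)))
  exact absurd (by exact_mod_cast d) a.not_ge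

end Pool.Agent.Lib.MP_02ae3d_ag.H88
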