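import Pool.Agent.Lib.MP_02ae3d_ag.H11A

set_option autoImplicit false
set_option linter.unusedSectionVars false

namespace Pool.Agent.Lib.MP_02ae3d_ag.H88
open MvPolynomial Module LinearMap H11

variable {k : Type} [Field k] [IsAlgClosed k] [CharZero k]
  {D T : Type} [AddCommGroup D] [Module k D] [FiniteDimensional k D] [AddCommGroup T] [Module k T]
  [FiniteDimensional k T]

theorem big {K T0 : Submodule k D} (h : finrank k T0 < finrank k K) : ∃ d ∈ K, d ∉ T0 := by
  by_contra! a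
  exact h.not_ge (Submodule.finrank_mono a)

theorem ker_ge (f : D →ₗ[k] T) : finrank k D ≤ finrank k T + finrank k (ker f) :=
  f.finrank_range_add_finrank_ker ▸ Nat.add_le_add_right (Submodule.finrank_le _) _

theorem absI (T0 : Submodule k D) (x y z : D →ₗ[k] T) (h0 : finrank k T0 ≤ finrank k T)
    (h3 : finrank k T ≤ 3) (hD : finrank k T + 6 ≤ finrank k D) :
    ∃ d ∉ T0, z d = 0 ∧ (y d = 0 ∨ ∃ c : k, x d = c • y d) := by
  by_cases h : ker (z.prod y) ≤ T0
  swap
  · obtain ⟨d, a, b⟩ := SetLike.not_le_iff_exists.1 h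
    exact ⟨d, b, congrArg Prod.fst a, .inl (congrArg Prod.snd a)⟩
  have a := (z.prod y).finrank_range_add_finrank_ker
  have b := Submodule.finrank_mono h
  have c := (range (z.prod y)).finrank_le
  rw [finrank_prod] at c
  obtain ⟨s, hs⟩ := (z.prod y).exists_rightInverse_of_surjective
    (Submodule.eq_top_of_finrank_eq (by rw [finrank_prod]; omega))
  have : Nontrivial T := finrank_pos_iff.1 (show 0 < finrank k T by omega)
  obtain ⟨c, v, v0, hv⟩ := eig (x ∘ₗ s ∘ₗ inr k T T)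
  have e : (z.prod y) (s (0, v)) = (0, v) := congr($hs _)
  refine ⟨s (0, v), fun f => v0 ?_, congrArg Prod.fst e, .inr ⟨c, hv.trans ?_⟩⟩
  · rw [← Submodule.eq_of_le_of_finrank_le h (by omega), mem_ker, e] at f
    exact congrArg Prod.snd f
  · exact congrArg _ (congrArg Prod.snd e).symm

theorem absI4 {W : Type} [AddCommGroup W] [Module k W] [FiniteDimensional k W]
    (y z : W × T →ₗ[k] T) {a b : End k T} (ya : ∀ t, y (0, t) = a t) (zb : ∀ t, z (0, t) = b t)
    (h : ∀ d, b (y d) = a (z d)) (li : LinearIndependent k ![a, b]) (h4 : finrank k T ≤ 4)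
    (hW : 6 ≤ finrank k W) : ∃ d : W × T, d.1 ≠ 0 ∧ y d = 0 ∧ z d = 0 := by
  let δ := b.coprod (-a)
  have e := δ.finrank_range_add_finrank_ker
  let Φ : W × T →ₗ[k] ker δ := (y.prod z).codRestrict _ fun d => by simp [δ, h]
  have f := ker_ge Φ
  rw [finrank_prod] at e f
  have n : finrank k ((ker (a.prod b)).map (inr k W T)) = finrank k (ker (a.prod b)) :=
    (Submodule.equivMapOfInjective _ inr_injective _).finrank_eq.symm
  have g : finrank k (ker (a.prod b)) < finrank k (range δ) + 6 - finrank k T := by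
    have r := (a.prod b).finrank_range_add_finrank_ker
    by_contra! c
    have a0 : finrank k (range (a.prod b)) ≠ 0 := fun z => li.ne_zero 0 (LinearMap.ext fun t =>
      congrArg Prod.fst ((Submodule.finrank_eq_zero.1 z).le ⟨t, rfl⟩))
    have a1 : finrank k (range δ) ≠ 0 := fun z => li.ne_zero 1 (LinearMap.ext fun t => by
      simpa [δ] using (Submodule.finrank_eq_zero.1 z).le ⟨(t, 0), rfl⟩)
    obtain ⟨⟨⟨u, v⟩, t, ht⟩, hw⟩ := finrank_le_one_iff.1
      (show finrank k (range (a.prod b)) ≤ 1 by omega)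
    obtain ⟨w, hu⟩ := finrank_le_one_iff.1 (show finrank k (range δ) ≤ 1 by omega)
    obtain ⟨p, hp⟩ := hu ⟨u, (0, -t), by simpa [δ] using congrArg Prod.fst ht⟩
    obtain ⟨q, hq⟩ := hu ⟨v, (t, 0), by simpa [δ] using congrArg Prod.snd ht⟩
    have : ∀ s, ∃ c : k, a s = (c * p) • w.1 ∧ b s = (c * q) • w.1 := fun s => by
      obtain ⟨c, e⟩ := hw ⟨_, s, rfl⟩
      exact ⟨c, by simpa [mul_smul, show p • w.1 = u from congr(($hp).1)] using congr(($e).1.1).symm,
        by simpa [mul_smul, show q • w.1 = v from congr(($hq).1)] using congr(($e).1.2).symm⟩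
    obtain ⟨q0, p0⟩ := LinearIndependent.pair_iff.1 li q (-p) (LinearMap.ext fun s => by
      obtain ⟨c, e, f⟩ := this s
      simp [e, f, smul_smul, mul_comm, mul_left_comm])
    exact li.ne_zero 0 (LinearMap.ext fun s => by
      obtain ⟨c, e, -⟩ := this s
      simpa [neg_eq_zero.1 p0] using e)
  obtain ⟨d, p, q⟩ := big (K := ker Φ) (T0 := (ker (a.prod b)).map (inr k W T)) (by omega)
  have p1 : y d = 0 := congr(($p).1.1)
  have p2 : z d = 0 := congr(($p).1.2)
  refine ⟨d, fun d0 => q ⟨d.2, ?_, Prod.ext d0.symm rfl⟩, p1, p2⟩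
  obtain ⟨_, t⟩ := d
  obtain rfl := d0
  simpa [← ya, ← zb] using And.intro p1 p2

theorem absII {W : Type} [AddCommGroup W] [Module k W] [FiniteDimensional k W]
    (x y : W × T →ₗ[k] T) {a b : End k T} (xa : ∀ t, x (0, t) = a t) (yb : ∀ t, y (0, t) = b t)
    (ha : IsNilpotent a) (hb : IsNilpotent b) (c : Commute a b) (h : ∀ d, b (x d) = a (y d))
    (h5 : finrank k T ≤ 5) (hW : 5 ≤ finrank k W) :
    ∃ d : W × T, d.1 ≠ 0 ∧ a (x d) = 0 ∧ b (x d) = 0 ∧ b (y d) = 0 := by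
  let δ := b.coprod (-a)
  have e := δ.finrank_range_add_finrank_ker
  have h0 : finrank k (ker (fst k W T)) = finrank k T := by
    rw [ker_fst, finrank_range_of_inj inr_injective]
  rw [finrank_prod] at e
  by_cases g : finrank k (range δ) ≤ 1
  · let Θ : W × T →ₗ[k] range δ × range δ × range δ :=
      ((a ∘ₗ x).codRestrict (range δ) fun d => ⟨(0, -x d), by simp [δ]⟩).prod
        (((b ∘ₗ x).codRestrict (range δ) fun d => ⟨(x d, 0), by simp [δ]⟩).prod
          ((b ∘ₗ y).codRestrict (range δ) fun d => ⟨(y d, 0), by simp [δ]⟩))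
    have := ker_ge Θ
    simp only [finrank_prod] at this
    obtain ⟨d, p, q⟩ := big (K := ker Θ) (T0 := ker (fst k W T)) (by omega)
    exact ⟨d, q, congr(($p).1.1), congr(($p).2.1.1), congr(($p).2.2.1)⟩
  let ω : T →ₗ[k] range δ × range δ := (a.codRestrict (range δ) fun d => ⟨(0, -d), by simp [δ]⟩).prod
    (b.codRestrict (range δ) fun d => ⟨(d, 0), by simp [δ]⟩)
  have hω : ∀ t, t ∈ ker ω ↔ a t = 0 ∧ b t = 0 := fun t => ⟨fun p => ⟨congr(($p).1.1),
    congr(($p).2.1)⟩, fun p => Prod.ext (Subtype.ext p.1) (Subtype.ext p.2)⟩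
  have κ : 0 < finrank k (ker ω) := by
    have := (range δ).finrank_le
    have : Nontrivial T := finrank_pos_iff.1 (show 0 < finrank k T by omega)
    obtain ⟨v, hv⟩ := exists_ne (0 : T)
    obtain ⟨i, a1, a2⟩ := nil_ker ha hv
    obtain ⟨j, s0, sb⟩ := nil_ker hb a1
    exact finrank_pos_iff.2 ⟨⟨_, (hω _).2 ⟨comm_ker (c.pow_right j) _ a2, sb⟩⟩, 0, by simpa⟩
  let Φ : (W × T) × ker ω × ker ω →ₗ[k] ker δ := ((x.prod y).coprod ((Submodule.subtype _).prodMap
    (Submodule.subtype _))).codRestrict _ fun d => by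
      simp [δ, h, (hω _).1 d.2.1.2, (hω _).1 d.2.2.2]
  have hΦ : ∀ d ∈ ker Φ, x d.1 + d.2.1 = 0 ∧ y d.1 + d.2.2 = 0 := fun d p =>
    ⟨congr(($p).1.1), congr(($p).1.2)⟩
  have := ker_ge Φ
  simp only [finrank_prod] at this
  have f : finrank k ((ker Φ).map (fst k (W × T) _)) = finrank k (ker Φ) := by
    rw [← range_domRestrict]
    refine finrank_range_of_inj ((injective_iff_map_eq_zero _).2 fun ⟨⟨d, p, q⟩, r⟩ u => ?_)
    obtain rfl : d = 0 := u
    simpa [Prod.ext_iff] using hΦ _ r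
  have sol : ∀ d ∈ (ker Φ).map (fst k (W × T) _), a (x d) = 0 ∧ b (x d) = 0 ∧ b (y d) = 0 := by
    rintro _ ⟨d, p, rfl⟩
    obtain ⟨p, r⟩ := hΦ d p
    simp [eq_neg_of_add_eq_zero_left p, eq_neg_of_add_eq_zero_left r, (hω _).1 d.2.1.2,
      (hω _).1 d.2.2.2]
  by_contra! no
  have le : (ker Φ).map (fst k (W × T) _) ≤ ker (fst k W T) := fun d p => by_contra fun q =>
    no d q (sol d p).1 (sol d p).2.1 (sol d p).2.2
  have := Submodule.finrank_mono le
  have cc : ∀ t, b (a t) = a (b t) := fun t => congr($c.eq t).symm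
  have u : ¬ range δ ≤ ker ω := fun u => by have := Submodule.finrank_mono u; omega
  have r := ω.finrank_range_add_finrank_ker
  have r' : finrank k (range ω) < finrank k (range δ × range δ) := Submodule.finrank_lt fun z =>
    u fun v hv => by
      obtain ⟨t, ht⟩ := z.ge (Submodule.mem_top (x := (⟨v, hv⟩, 0)))
      obtain ⟨s, hs⟩ := z.ge (Submodule.mem_top (x := (0, ⟨v, hv⟩)))
      exact (hω v).2 ⟨by rw [← show b s = v from congr(($hs).2.1), ← cc,
        show a s = 0 from congr(($hs).1.1), map_zero], by rw [← show a t = v from congr(($ht).1.1),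
          cc, show b t = 0 from congr(($ht).2.1), map_zero]⟩
  rw [finrank_prod] at r'
  refine u ?_
  rintro _ ⟨⟨s, t⟩, rfl⟩
  have p := sol (0, s) ((Submodule.eq_of_le_of_finrank_le le (by omega)).ge rfl)
  have q := sol (0, t) ((Submodule.eq_of_le_of_finrank_le le (by omega)).ge rfl)
  simp only [xa, yb] at p q
  simp [hω, δ, p, q, ← cc]

abbrev P (k : Type) [Field k] := MvPolynomial (Fin 3) k

/-- the ideal of the origin -/
noncomputable def M0 (k : Type) [Field k] : Ideal (P k) := Ideal.span (Set.range X)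

theorem X_mem (i : Fin 3) : X i ∈ M0 k := Ideal.subset_span ⟨i, rfl⟩

/-- linear and quadratic forms -/
noncomputable def qf : (Fin 9 → k) →ₗ[k] P k := Fintype.linearCombination k
  ![X 0, X 1, X 2, X 0 * X 0, X 1 * X 1, X 2 * X 2, X 0 * X 1, X 0 * X 2, X 1 * X 2]

theorem qf_apply (c : Fin 9 → k) : qf c = c 0 • X 0 + c 1 • X 1 + c 2 • X 2 + (c 3 • (X 0 * X 0) +
    c 4 • (X 1 * X 1) + c 5 • (X 2 * X 2) + c 6 • (X 0 * X 1) + c 7 • (X 0 * X 2) +
    c 8 • (X 1 * X 2)) := by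
  simp [qf, Fintype.linearCombination_apply, Fin.sum_univ_succ, add_assoc]

theorem q2 (c : Fin 9 → k) : qf c - (c 0 • X 0 + c 1 • X 1 + c 2 • X 2) ∈ M0 k ^ 2 := by
  have : ∀ (a : k) i j, a • (X i * X j) ∈ M0 k ^ 2 := fun a i j =>
    sm a (mp 2 (p1 (X_mem i)) (p1 (X_mem j)) (by omega))
  rw [qf_apply, add_sub_cancel_left]
  exact add_mem (add_mem (add_mem (add_mem (add_mem (this _ _ _) (this _ _ _)) (this _ _ _)) (this _ _ _))
    (this _ _ _)) (this _ _ _)

theorem jet (F : P k) : ∃ a c, F - (C a + qf c) ∈ M0 k ^ 3 := by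
  induction F using MvPolynomial.induction_on with
  | C a => exact ⟨a, 0, by simp⟩
  | add F G a b =>
    obtain ⟨a, c, e⟩ := a
    obtain ⟨b, d, f⟩ := b
    exact ⟨a + b, c + d, by convert add_mem e f using 1; simp only [map_add]; ring⟩
  | mul_X F i a =>
    obtain ⟨a, c, e⟩ := a
    have := add_mem (Ideal.mul_mem_right (X i) _ e) (mp 3 (q2 c) (p1 (X_mem i)) (by omega))
    fin_cases i
    · exact ⟨0, ![a, 0, 0, c 0, 0, 0, c 1, c 2, 0], by
        convert this using 1; simp [qf_apply, smul_eq_C_mul]; ring⟩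
    · exact ⟨0, ![0, a, 0, 0, c 1, 0, c 0, 0, c 2], by
        convert this using 1; simp [qf_apply, smul_eq_C_mul]; ring⟩
    · exact ⟨0, ![0, 0, a, 0, 0, c 2, 0, c 0, c 1], by
        convert this using 1; simp [qf_apply, smul_eq_C_mul]; ring⟩

theorem qf_mem (c : Fin 9 → k) : qf c ∈ M0 k := by
  simpa using add_mem (d1 (q2 c) (by omega))
    (add_mem (add_mem (sm (c 0) (X_mem 0)) (sm (c 1) (X_mem 1))) (sm (c 2) (X_mem 2)))

variable {A : Type} [CommRing A] [Algebra k A] {π : P k →ₐ[k] A}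

/-- presentations of a local algebra -/
def Pres (π : P k →ₐ[k] A) : Prop := Function.Surjective π ∧ ∀ i, IsNilpotent (π (X i))

theorem c0 [Nontrivial A] {a : k} (h : algebraMap k A a ∈ nilradical A) : a = 0 :=
  by_contra fun a0 => IsNilpotent.not_isUnit h ((IsUnit.mk0 _ a0).map (algebraMap k A))

theorem Pres.map (h : Pres π) : (M0 k).map π = nilradical A := by
  have l : (M0 k).map π ≤ nilradical A :=
    Ideal.map_le_iff_le_comap.2 (Ideal.span_le.2 (by rintro _ ⟨i, rfl⟩; exact h.2 i))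
  refine l.antisymm fun w hw => ?_
  rcases subsingleton_or_nontrivial A with _ | _
  · exact Subsingleton.elim 0 w ▸ zero_mem _
  obtain ⟨F, rfl⟩ := h.1 w
  obtain ⟨a, c, e⟩ := jet F
  have e : F - C a ∈ M0 k := by convert add_mem (d1 e (by omega)) (qf_mem c) using 1; ring
  have f := Ideal.mem_map_of_mem π e
  rwa [c0 (a := a) (by simpa using sub_mem hw (l f)), map_zero, sub_zero] at f

theorem Pres.mem (h : Pres π) {j : ℕ} {F : P k} (e : F ∈ M0 k ^ j) : π F ∈ nilradical A ^ j := by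
  rw [← h.map, ← Ideal.map_pow]
  exact Ideal.mem_map_of_mem π e

theorem Pres.lift (h : Pres π) {j : ℕ} {w : A} (e : w ∈ nilradical A ^ j) :
    ∃ F ∈ M0 k ^ j, π F = w := by
  rwa [← h.map, ← Ideal.map_pow, Ideal.mem_map_iff_of_surjective _ h.1] at e

theorem Pres.jet (h : Pres π) (w : A) :
    ∃ a c, w - (algebraMap k A a + π (qf c)) ∈ nilradical A ^ 3 := by
  obtain ⟨F, rfl⟩ := h.1 w
  obtain ⟨a, c, e⟩ := H88.jet F
  exact ⟨a, c, by simpa using h.mem e⟩

theorem Pres.loc (h : Pres π) : Loc k (nilradical A) := by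
  refine ⟨fun w => ?_, (Ideal.FG.isNilpotent_iff_le_nilradical
    (h.map ▸ Ideal.FG.map ⟨(Set.finite_range X).toFinset, by simp [M0]⟩ _)).2 le_rfl⟩
  obtain ⟨a, c, e⟩ := h.jet w
  exact ⟨a, by convert add_mem (d1 e (by omega)) (d1 (h.mem (p1 (qf_mem c))) (by omega)) using 1; ring⟩

theorem Pres.gen [Nontrivial A] (h : Pres π) :
    Gen k (nilradical A) (π (X 0)) (π (X 1)) (π (X 2)) := by
  refine ⟨h.2 0, h.2 1, h.2 2, fun w hw => ?_⟩
  obtain ⟨a, c, e⟩ := h.jet w
  obtain rfl : a = 0 := c0 (A := A) (by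
    convert sub_mem (sub_mem hw (d1 e (by omega))) (d1 (h.mem (p1 (qf_mem c))) (by omega)) using 1; ring)
  exact ⟨c 0, c 1, c 2, by convert add_mem (dn 2 e (by omega)) (h.mem (q2 c)) using 1; simp⟩

theorem Pres.of (h : Pres π) {x y z : A} (G : Gen k (nilradical A) x y z) :
    Pres (aeval ![x, y, z] : P k →ₐ[k] A) := by
  refine ⟨fun w => (show _ ≤ (aeval ![x, y, z] : P k →ₐ[k] A).range from Algebra.adjoin_le ?_)
    (G.nak h.loc w), fun i => ?_⟩
  · rintro _ (rfl | rfl | rfl)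
    exacts [⟨X 0, by simp⟩, ⟨X 1, by simp⟩, ⟨X 2, by simp⟩]
  · fin_cases i
    exacts [by simpa [mem_nilradical] using G.1, by simpa [mem_nilradical] using G.2.1,
      by simpa [mem_nilradical] using G.2.2.1]

/-- all modules over the algebra give limits of diagonalisable triples -/
def AllSm (k A : Type) [Field k] [CommRing A] [Algebra k A] : Prop :=
  ∀ (V : Type) [AddCommGroup V] [Module k V] [FiniteDimensional k V] (ψ : A →ₐ[k] End k V) (a b c : A),
    Sm (ψ a) (ψ b) (ψ c)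

def R1 (c : Fin 9 → k) : Prop := c 0 = 0 ∧ c 1 = 0 ∧ c 2 = 0 ∧ 4 * c 3 * c 5 = c 7 ^ 2 ∧
  4 * c 4 * c 5 = c 8 ^ 2 ∧ 2 * c 5 * c 6 = c 7 * c 8

theorem Pres.quad [Nontrivial A] (h : Pres π) {c : Fin 9 → k} (e : π (qf c) ∈ nilradical A ^ 3) :
    AllSm k A ∨ R1 c ∧ (c = 0 ∨ ∃ π' : P k →ₐ[k] A, Pres π' ∧ π' (X 2) ^ 2 ∈ nilradical A ^ 3) := by
  have L := h.loc
  have G := h.gen
  have fin : ∀ x y z N, 0 < N → Gen k (nilradical A) x y z → x * y = z ^ N → AllSm k A :=
    fun x y z N a b c V _ _ _ ψ => adj ψ (cyc0 ψ a c) (b.nak L)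
  have lin : ∀ x y z, Gen k (nilradical A) x y z → ∀ α β γ : k, γ ≠ 0 →
      α • x + β • y + γ • z ∈ nilradical A ^ 2 → AllSm k A := fun x y z G α β γ g0 r =>
    fin x y (x * y) 1 one_pos ⟨G.1, G.2.1, Ideal.mul_mem_left _ _ G.2.1, fun w hw => by
      obtain ⟨s, t, u, f⟩ := G.2.2.2 w hw
      refine ⟨s - u / γ * α, t - u / γ * β, 0, ?_⟩
      convert add_mem f (sm (u / γ) r) using 1
      match_scalars <;> field_simp <;> ring⟩ (pow_one _).symm
  have r : c 0 • π (X 0) + c 1 • π (X 1) + c 2 • π (X 2) ∈ nilradical A ^ 2 := by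
    simpa using sub_mem (dn 2 e (by omega)) (h.mem (q2 c))
  by_cases z0 : c 0 = 0
  swap
  · exact .inl (lin _ _ _ G.rot _ _ _ z0 (by rwa [add_rotate] at r))
  by_cases z1 : c 1 = 0
  swap
  · exact .inl (lin _ _ _ G.rot.rot _ _ _ z1 (by rwa [← add_rotate] at r))
  by_cases z2 : c 2 = 0
  swap
  · exact .inl (lin _ _ _ G _ _ _ z2 r)
  obtain ⟨Q, R, w, QR, H⟩ := diag (H := !![2 * c 3, c 6, c 7; c 6, 2 * c 4, c 8; c 7, c 8, 2 * c 5])
    (Matrix.IsSymm.ext fun i j => by fin_cases i <;> fin_cases j <;> rfl)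
  have H' : ∀ i j, !![2 * c 3, c 6, c 7; c 6, 2 * c 4, c 8; c 7, c 8, 2 * c 5] i j =
      ∑ l, R l i * w l * R l j := fun i j => by
    simpa [Matrix.mul_apply, Matrix.diagonal_apply] using congr($H i j)
  have h3 := H' 0 0
  have h4 := H' 1 1
  have h5 := H' 2 2
  have h6 := H' 0 1
  have h7 := H' 0 2
  have h8 := H' 1 2
  simp [Fin.sum_univ_three] at h3 h4 h5 h6 h7 h8
  have l : ∀ c : Fin 3 → k, ∑ i, c i • π (X i) ∈ nilradical A := fun c =>
    Ideal.sum_mem _ fun i _ => sm _ (h.2 i)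
  have G' : Gen k (nilradical A) (∑ i, R 0 i • π (X i)) (∑ i, R 1 i • π (X i))
      (∑ i, R 2 i • π (X i)) := ⟨l _, l _, l _, fun w hw => by
    obtain ⟨α, β, γ, f⟩ := G.2.2.2 w hw
    refine ⟨Matrix.vecMul ![α, β, γ] Q 0, Matrix.vecMul ![α, β, γ] Q 1,
      Matrix.vecMul ![α, β, γ] Q 2, ?_⟩
    have := Matrix.vecMul_one ![α, β, γ]
    rw [← QR, ← Matrix.vecMul_vecMul] at this
    generalize Matrix.vecMul ![α, β, γ] Q = d at this
    rw [show α = _ from (congrFun this 0).symm, show β = _ from (congrFun this 1).symm,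
      show γ = _ from (congrFun this 2).symm] at f
    convert f using 2
    simp only [Matrix.vecMul, dotProduct, Fin.sum_univ_three]
    module⟩
  have TF : w 0 • (∑ i, R 0 i • π (X i)) ^ 2 + w 1 • (∑ i, R 1 i • π (X i)) ^ 2 +
      w 2 • (∑ i, R 2 i • π (X i)) ^ 2 ∈ nilradical A ^ 3 := by
    convert sm (2 : k) e using 1
    simp only [qf_apply, z0, z1, z2, zero_smul, zero_add, map_add, map_smul, map_mul, smul_add,
      smul_smul, h3, h4, h5, h6, h7, h8, Fin.sum_univ_three]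
    simp only [Algebra.smul_def, map_add, map_mul, map_ofNat]
    ring
  have two : ∀ x y z, Gen k (nilradical A) x y z → ∀ u v w : k, u ≠ 0 → v ≠ 0 →
      u • x ^ 2 + v • y ^ 2 + w • z ^ 2 ∈ nilradical A ^ 3 → AllSm k A := fun x y z G u v w a b e => by
    obtain ⟨x, y, N, a, b, c⟩ := G.quad L a b e
    exact fin x y _ N a b c
  have one : ∀ x y z, Gen k (nilradical A) x y z → ∀ w : k, w ≠ 0 → w • z ^ 2 ∈ nilradical A ^ 3 →
      ∃ π' : P k →ₐ[k] A, Pres π' ∧ π' (X 2) ^ 2 ∈ nilradical A ^ 3 := fun x y z G w a e =>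
    ⟨_, h.of G, by simpa [smul_smul, a] using sm w⁻¹ e⟩
  by_cases w0 : w 0 = 0 <;> by_cases w1 : w 1 = 0 <;> by_cases w2 : w 2 = 0
  · refine .inr ⟨by simp_all [R1], .inl (_root_.funext fun i => ?_)⟩
    fin_cases i <;> simp_all
  · exact .inr ⟨⟨z0, z1, z2, by grind⟩, .inr (one _ _ _ G' _ w2 (by simpa [w0, w1] using TF))⟩
  · exact .inr ⟨⟨z0, z1, z2, by grind⟩, .inr (one _ _ _ G'.rot.rot _ w1 (by simpa [w0, w2] using TF))⟩
  · exact .inl (two _ _ _ G'.rot _ _ (w 0) w1 w2 (by rwa [add_rotate] at TF))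
  · exact .inr ⟨⟨z0, z1, z2, by grind⟩, .inr (one _ _ _ G'.rot _ w0 (by simpa [w1, w2] using TF))⟩
  · exact .inl (two _ _ _ G'.rot.rot _ _ (w 1) w2 w0 (by rwa [← add_rotate] at TF))
  all_goals exact .inl (two _ _ _ G' _ _ _ w0 w1 TF)

end Pool.Agent.Lib.MP_02ae3d_ag.H88
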