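import Pool.Agent.Lib.MP_02ae3d_ag.H88HA

set_option autoImplicit false
set_option linter.unusedSectionVars false

namespace Pool.Agent.Lib.MP_02ae3d_ag.H88
open MvPolynomial Module LinearMap H11

variable {k : Type} [Field k] [IsAlgClosed k] [CharZero k]
  {V : Type} [AddCommGroup V] [Module k V] [FiniteDimensional k V]

theorem mk3 {a b c : End k V} (ab : Commute a b) (ac : Commute a c) (bc : Commute b c) :
    ∃ φ : P k →ₐ[k] End k V, φ (X 0) = a ∧ φ (X 1) = b ∧ φ (X 2) = c := by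
  letI := Algebra.adjoinCommRingOfComm k (s := {a, b, c}) (by
    rintro _ (rfl | rfl | rfl) _ (rfl | rfl | rfl) <;>
      first | rfl | exact ab | exact ac | exact bc | exact ab.symm | exact ac.symm | exact bc.symm)
  exact ⟨(Algebra.adjoin k {a, b, c}).val.comp (aeval ![⟨a, Algebra.subset_adjoin (by simp)⟩,
    ⟨b, Algebra.subset_adjoin (by simp)⟩, ⟨c, Algebra.subset_adjoin (by simp)⟩]), by simp⟩

theorem pres_ker {φ : P k →ₐ[k] End k V} (h : ∀ i, IsNilpotent (φ (X i))) :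
    Pres (Ideal.Quotient.mkₐ k (RingHom.ker φ)) :=
  ⟨Ideal.Quotient.mkₐ_surjective k _,
    fun i => (IsNilpotent.map_iff (Ideal.kerLiftAlg_injective φ)).1 (h i)⟩

theorem AllSm.ker {φ : P k →ₐ[k] End k V} (h : AllSm k (P k ⧸ RingHom.ker φ)) :
    Sm (φ (X 0)) (φ (X 1)) (φ (X 2)) :=
  h V (Ideal.kerLiftAlg φ) (Ideal.Quotient.mk _ (X 0)) (Ideal.Quotient.mk _ (X 1))
    (Ideal.Quotient.mk _ (X 2))

theorem sm_rel [Nontrivial V] {φ : P k →ₐ[k] End k V} (h : ∀ i, IsNilpotent (φ (X i)))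
    {c : Fin 9 → k} {G : P k} (hG : G ∈ M0 k ^ 3) (e : φ (qf c - G) = 0) (r : ¬ R1 c) :
    Sm (φ (X 0)) (φ (X 1)) (φ (X 2)) := by
  haveI := (Ideal.kerLiftAlg φ).toRingHom.domain_nontrivial
  refine (((pres_ker h).quad (c := c) ?_).resolve_right fun a => r a.1).ker
  rw [show Ideal.Quotient.mkₐ k _ (qf c) = Ideal.Quotient.mkₐ k _ G from Ideal.Quotient.eq.2 e]
  exact (pres_ker h).mem hG

theorem ann {φ : P k →ₐ[k] End k V} {v : V} (h : ∀ u, ∃ F, φ F v = u) {F : P k} (e : φ F v = 0) :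
    φ F = 0 := LinearMap.ext fun u => by
  obtain ⟨G, rfl⟩ := h u
  rw [← End.mul_apply, ← map_mul, mul_comm, map_mul, End.mul_apply, e, map_zero, LinearMap.zero_apply]

variable {A : Type} [CommRing A] [Algebra k A] [FiniteDimensional k A] {π : P k →ₐ[k] A}

/-- the regular module is a limit of diagonalisable triples -/
def SmA (k A : Type) [Field k] [CommRing A] [Algebra k A] : Prop :=
  ∀ a b c : A, Sm (Algebra.lmul k A a) (Algebra.lmul k A b) (Algebra.lmul k A c)

/-- polynomials in the first two variables -/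
noncomputable def ι : S k →ₐ[k] P k := aeval ![X 0, X 1]

theorem ι0 : ι (X 0) = (X 0 : P k) := by simp [ι]

theorem ι1 : ι (X 1) = (X 1 : P k) := by simp [ι]

theorem dec2 (b : S k) : ∃ (β β0 β1 : k) (u v w : S k),
    b = C β + C β0 * X 0 + C β1 * X 1 + (X 0 * X 0 * u + X 1 * X 0 * v + X 1 * X 1 * w) := by
  obtain ⟨a, c, e⟩ := dec b
  obtain ⟨a0, a1, f⟩ := dec a
  obtain ⟨c0, c1, g⟩ := dec c
  exact ⟨eval 0 b, eval 0 a, eval 0 c, a0, a1 + c0, c1, by linear_combination e + X 0 * f + X 1 * g⟩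

theorem ι_c (u : S k) : ι u - C (eval 0 u) ∈ M0 k := by
  obtain ⟨a, b, e⟩ := dec u
  convert add_mem (Ideal.mul_mem_right (ι a) _ (X_mem 0)) (Ideal.mul_mem_right (ι b) _ (X_mem 1))
    using 1
  conv_lhs => rw [e]
  simp [ι0, ι1]
  ring

theorem Pres.rep [Nontrivial A] (h : Pres π) (z2 : π (X 2) ^ 2 ∈ nilradical A ^ 3) (j : ℕ) (w : A)
    (hw : w ∈ nilradical A ^ j) : ∃ a b, ι a ∈ M0 k ^ j ∧ ι b ∈ M0 k ^ (j - 1) ∧
      w = π (ι a) + π (X 2) * π (ι b) := by
  have key : ∀ j, ∀ w ∈ nilradical A ^ j, ∃ a b, ι a ∈ M0 k ^ j ∧ ι b ∈ M0 k ^ (j - 1) ∧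
      w - (π (ι a) + π (X 2) * π (ι b)) ∈ nilradical A ^ (j + 1) := fun j => by
    induction j with
    | zero =>
      intro w _
      obtain ⟨α, e⟩ := h.loc.1 w
      exact ⟨C α, 0, by simp, by simp, by simpa using e⟩
    | succ j ih =>
      intro w hw
      rw [pow_succ] at hw
      induction hw using Submodule.mul_induction_on' with
      | mem_mul_mem x hx y hy =>
        obtain ⟨a, b, a1, b1, u⟩ := ih x hx
        obtain ⟨α, β, γ, e⟩ := h.gen.2.2.2 y hy
        have l : ι (α • X 0 + β • X 1) ∈ M0 k ^ 1 := by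
          simpa [ι0, ι1] using add_mem (sm α (X_mem 0)) (sm β (X_mem 1))
        refine ⟨a * (α • X 0 + β • X 1), b * (α • X 0 + β • X 1) + γ • a,
          by rw [map_mul]; exact mp _ a1 l (by omega), by simpa using add_mem (mp j b1 l (by omega)) (sm γ a1), ?_⟩
        convert add_mem (add_mem (mp (j + 1 + 1) u (p1 hy) (by omega)) (mp _ (add_mem (h.mem a1) (mp j
          (p1 h.gen.2.2.1) (h.mem b1) (by omega))) e (by omega))) (sm γ (mp _ z2 (h.mem b1) (by omega))) using 1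
        simp [ι0, ι1, Algebra.smul_def]
        ring
      | add x _ y _ hx hy =>
        obtain ⟨a, b, a1, b1, u⟩ := hx
        obtain ⟨a', b', a1', b1', u'⟩ := hy
        exact ⟨a + a', b + b', by simpa using add_mem a1 a1', by simpa using add_mem b1 b1', by
          convert add_mem u u' using 1; simp only [map_add]; ring⟩
  have : ∀ n, ∃ a b, ι a ∈ M0 k ^ j ∧ ι b ∈ M0 k ^ (j - 1) ∧
      w - (π (ι a) + π (X 2) * π (ι b)) ∈ nilradical A ^ (j + n) := fun n => by
    induction n with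
    | zero => exact ⟨0, 0, by simp, by simp, by simpa⟩
    | succ n ih =>
      obtain ⟨a, b, a1, b1, u⟩ := ih
      obtain ⟨a', b', a1', b1', u'⟩ := key _ _ u
      exact ⟨a + a', b + b', by simpa using add_mem a1 (dn j a1' (by omega)),
        by rw [map_add]; exact add_mem b1 (dn (j - 1) b1' (by omega)), by
          convert u' using 1 <;> simp only [map_add, add_assoc]; ring⟩
  obtain ⟨K, hK⟩ := h.loc.2
  obtain ⟨a, b, a1, b1, u⟩ := this K
  exact ⟨a, b, a1, b1, sub_eq_zero.1 (by simpa [hK] using dn K u (by omega))⟩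

theorem Pres.smA (h : Pres π) [Nontrivial A] (s : Sm (Algebra.lmul k A (π (X 0)))
    (Algebra.lmul k A (π (X 1))) (Algebra.lmul k A (π (X 2)))) : SmA k A :=
  adj _ s (h.gen.nak h.loc)

theorem Pres.defZ [Nontrivial A] (h : Pres π) (z2 : π (X 2) ^ 2 ∈ nilradical A ^ 3)
    (r1 : ∀ c, π (qf c) ∈ nilradical A ^ 3 → R1 c) {c : Fin 5 → k} (hc : c ≠ 0) {τ : A}
    (hτ : τ ∈ nilradical A ^ 3) {q : A} (hq : q = π (qf ![0, 0, 0, c 0, c 1, 0, c 2, c 3, c 4]) + τ)
    (xx : π (X 0) * (π (X 0) * q) = 0) (xy : π (X 1) * (π (X 0) * q) = 0)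
    (yy : π (X 1) * (π (X 1) * q) = 0) : SmA k A := by
  have q2' : q ∈ nilradical A ^ 2 := by
    simpa [hq] using add_mem (h.mem (q2 ![0, 0, 0, c 0, c 1, 0, c 2, c 3, c 4])) (dn 2 hτ (by omega))
  let p : S k × S k →ₗ[k] A := (π.comp ι).toLinearMap.coprod
    (mulLeft k (π (X 2)) ∘ₗ (π.comp ι).toLinearMap)
  have hp : ∀ a b, p (a, b) = π (ι a) + π (X 2) * π (ι b) := fun _ _ => rfl
  have su : ∀ w, ∃ a b, w = p (a, b) := fun w => by
    obtain ⟨a, b, -, -, e⟩ := h.rep z2 0 w (by simp)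
    exact ⟨a, b, e⟩
  have ke : ∀ a b, p (a, b) = 0 → q * π (ι b) = 0 := fun a b e => by
    obtain ⟨β, β0, β1, u, v, w, rfl⟩ := dec2 b
    obtain ⟨α, α0, α1, u', v', w', rfl⟩ := dec2 a
    have m2 : ∀ i j, (X i * X j : P k) ∈ M0 k ^ 2 := fun i j => mp 2 (p1 (X_mem i)) (p1 (X_mem j)) (by omega)
    have : algebraMap k A α + π (qf ![α0, α1, β, eval 0 u', eval 0 w', 0, eval 0 v', β0, β1]) ∈
        nilradical A ^ 3 := by
      convert neg_mem (h.mem (add_mem (add_mem (add_mem (mp 3 (m2 0 0) (p1 (ι_c u')) (by omega))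
        (mp 3 (m2 1 0) (p1 (ι_c v')) (by omega))) (mp 3 (m2 1 1) (p1 (ι_c w')) (by omega))) (mp 3 (p1 (X_mem 2))
          (add_mem (add_mem (Ideal.mul_mem_right (ι u) _ (m2 0 0)) (Ideal.mul_mem_right (ι v) _
            (m2 1 0))) (Ideal.mul_mem_right (ι w) _ (m2 1 1))) (by omega)))) using 1
      simp [hp, ι0, ι1, qf_apply, Algebra.smul_def, -eval_zero] at e ⊢
      linear_combination e
    obtain rfl : α = 0 := c0 (A := A) 
      ((add_mem_cancel_right (d1 (h.mem (p1 (qf_mem _))) (by omega))).1 (d1 this (by omega)))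
    have := r1 _ (by simpa using this)
    simp [R1, eq_comm (a := (0 : k))] at this
    simp [this, ι0, ι1]
    linear_combination π (ι u) * xx + π (ι v) * xy + π (ι w) * yy
  obtain ⟨s, hs⟩ := p.exists_rightInverse_of_surjective (range_eq_top.2 fun w => by
    obtain ⟨a, b, e⟩ := su w; exact ⟨_, e.symm⟩)
  obtain ⟨E, hE⟩ : ∃ E : End k A, ∀ a b, E (p (a, b)) = q * π (ι b) :=
    ⟨mulLeft k q ∘ₗ (π.comp ι).toLinearMap ∘ₗ snd k _ _ ∘ₗ s, fun a b => by
      have := ke ((s (p (a, b))).1 - a) ((s (p (a, b))).2 - b) (by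
        rw [← Prod.mk_sub_mk, map_sub, sub_eq_zero]; exact congr($hs _))
      simpa [mul_sub, sub_eq_zero] using this⟩
  have cE : ∀ f, Commute (Algebra.lmul k A (π (ι f))) E := fun f => LinearMap.ext fun w => by
    obtain ⟨a, b, rfl⟩ := su w
    have : π (ι f) * p (a, b) = p (f * a, f * b) := by simp only [hp, map_mul]; ring
    simp [hE, this, mul_left_comm]
  refine h.smA ?_
  have := Sm.curve (X := fun _ => Algebra.lmul k A (π (X 0))) (Y := fun _ => Algebra.lmul k A (π (X 1)))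
    (Z := fun t : k => Algebra.lmul k A (π (X 2)) + t • E) (by fun_prop) (by fun_prop) (by fun_prop) ?_
  · simpa using this
  have fin : {t : k | t ≠ 0 ∧ R1 ![0, 0, 0, -t * c 0, -t * c 1, 1, -t * c 2, -t * c 3,
      -t * c 4]}.Subsingleton := fun t ⟨t0, a⟩ s ⟨s0, b⟩ => by_contra fun ts => hc (by
    simp [R1] at a b
    have c3 : c 3 = 0 := by grind
    have c4 : c 4 = 0 := by grind
    ext i
    fin_cases i <;> simp_all)
  refine ((Set.finite_singleton 0).union fin.finite).subset fun t ht => by_contra fun a => ht ?_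
  simp only [Set.mem_union, Set.mem_singleton_iff, Set.mem_ofPred_eq, not_or, not_and] at a
  obtain ⟨φ, φ0, φ1, φ2⟩ := mk3 (c := Algebra.lmul k A (π (X 2)) + t • E)
    ((Commute.all (π (X 0)) (π (X 1))).map (Algebra.lmul k A))
    (((Commute.all _ _).map _).add_right ((ι0 (k := k) ▸ cE (X 0)).smul_right t))
    (((Commute.all _ _).map _).add_right ((ι1 (k := k) ▸ cE (X 1)).smul_right t))
  have φι : ∀ a, φ (ι a) = Algebra.lmul k A (π (ι a)) := fun a =>
    congr($(show φ.comp ι = (Algebra.lmul k A).comp (π.comp ι) from algHom_ext (by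
      simp [ι0, ι1, φ0, φ1])) a)
  have E1 : E 1 = 0 := by simpa [hp] using hE 1 0
  have Ez : E (π (X 2)) = q := by simpa [hp] using hE 0 1
  have ev : ∀ a b, φ (ι a + ι b * X 2) 1 = p (a, b) := fun a b => by
    rw [map_add, map_mul, LinearMap.add_apply, End.mul_apply, φ2]
    simp [φι, E1, hp, mul_comm]
  have nz : ∀ n, ∀ w, (φ (X 2) ^ n) w ∈ nilradical A ^ n := fun n => by
    induction n with
    | zero => simp
    | succ n ih =>
      intro w
      have hu := ih w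
      rw [pow_succ' (φ _), End.mul_apply]
      generalize (φ (X 2) ^ n) w = u at hu
      obtain ⟨a, b, -, b1, e⟩ := h.rep z2 n _ hu
      have f : π (X 2) * u ∈ nilradical A ^ (n + 1) := mp _ (p1 h.gen.2.2.1) hu (by omega)
      rw [φ2]
      refine add_mem f (sm t ?_)
      rw [e, ← hp, hE]
      exact mp (n + 1) q2' (h.mem b1) (by omega)
  obtain ⟨K, hK⟩ := h.loc.2
  obtain ⟨a0, b0, a1, b1, e⟩ := h.rep z2 3 _ (add_mem z2 (sm t hτ))
  change Sm _ _ _
  rw [← φ0, ← φ1, ← φ2]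
  refine sm_rel (fun i => ?_) (G := ι a0 + ι b0 * X 2) (add_mem a1 (mp 3 b1 (p1 (X_mem 2)) (by omega)))
    (ann (v := 1) (fun u => ?_) ?_) (a.2 a.1)
  · fin_cases i
    exacts [φ0 ▸ (h.2 0).map _, φ1 ▸ (h.2 1).map _,
      ⟨K, LinearMap.ext fun w => by simpa [hK] using nz K w⟩]
  · obtain ⟨a, b, rfl⟩ := su u
    exact ⟨_, ev a b⟩
  · rw [map_sub, LinearMap.sub_apply, ev, hp, ← e]
    have a : ∀ f, E (π (ι f)) = 0 := fun f => by simpa [hp] using hE f 0
    simp [qf_apply, φ0, φ1, φ2, E1, Ez, hq, Algebra.smul_def]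
    ring

end Pool.Agent.Lib.MP_02ae3d_ag.H88
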