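import Pool.Agent.Lib.MP_02ae3d_ag.H88HB

set_option autoImplicit false
set_option linter.unusedSectionVars false

namespace Pool.Agent.Lib.MP_02ae3d_ag.H88
open MvPolynomial Module LinearMap H11

variable {k : Type} [Field k] [IsAlgClosed k] [CharZero k]
  {V : Type} [AddCommGroup V] [Module k V] [FiniteDimensional k V]
  {A : Type} [CommRing A] [Algebra k A] [FiniteDimensional k A] {π : P k →ₐ[k] A}

theorem rank_le (j : V →ₗ[k] A) (T : Submodule k A) (h : ∀ c, j c ∈ T → c = 0) :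
    finrank k V + finrank k T ≤ finrank k A := by
  rw [← finrank_prod]
  refine finrank_le_finrank_of_injective (f := j.coprod T.subtype)
    ((injective_iff_map_eq_zero _).2 fun ⟨c, t⟩ e => ?_)
  obtain rfl := h c (eq_neg_of_add_eq_zero_left e ▸ neg_mem t.2)
  simpa [Prod.ext_iff] using e

theorem rank_ker_fst {W : Type} [AddCommGroup W] [Module k W] [FiniteDimensional k W] :
    finrank k (ker (fst k V W)) = finrank k W := by
  rw [ker_fst, finrank_range_of_inj inr_injective]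

/-- the cube of the maximal ideal -/
abbrev T3' (k A : Type) [Field k] [CommRing A] [Algebra k A] : Submodule k A :=
  (nilradical A ^ 3).restrictScalars k

/-- multiplication on the cube -/
def mT (a : A) : End k (T3' k A) := (mulLeft k a).restrict fun _ h => Ideal.mul_mem_left _ _ h

/-- multiplication into the cube -/
def mD (i : V →ₗ[k] A) (hi : ∀ d, i d ∈ nilradical A ^ 2) {a : A} (ha : a ∈ nilradical A) :
    V →ₗ[k] T3' k A := (mulLeft k a ∘ₗ i).codRestrict _ fun d => mp 3 (p1 ha) (hi d) (by omega)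

theorem mT_nil {a : A} (h : IsNilpotent a) : IsNilpotent (mT a : End k (T3' k A)) :=
  End.isNilpotent.restrict _ (h.map (Algebra.lmul k A))

theorem Pres.dimII [Nontrivial A] (h : Pres π) (z2 : π (X 2) ^ 2 ∈ nilradical A ^ 3)
    (r1 : ∀ c, π (qf c) ∈ nilradical A ^ 3 → R1 c) : 9 + finrank k (T3' k A) ≤ finrank k A := by
  simpa using rank_le (Fintype.linearCombination k ![π (X 0), π (X 1), π (X 2), π (X 0 * X 0),
    π (X 1 * X 1), 1, π (X 0 * X 1), π (X 0 * X 2), π (X 1 * X 2)]) (T3' k A) fun c e => by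
    have e : algebraMap k A (c 5) + π (qf ![c 0, c 1, c 2, c 3, c 4, 0, c 6, c 7, c 8]) ∈
        nilradical A ^ 3 := by
      convert show _ ∈ nilradical A ^ 3 from e using 1
      simp [Fintype.linearCombination_apply, Fin.sum_univ_succ, qf_apply, Algebra.smul_def]
      ring
    have c5 : c 5 = 0 := c0 (A := A)
      ((add_mem_cancel_right (d1 (h.mem (p1 (qf_mem _))) (by omega))).1 (d1 e (by omega)))
    rw [c5, map_zero, zero_add] at e
    have a := r1 _ e
    have b := r1 ![c 0, c 1, c 2, c 3, c 4, 1, c 6, c 7, c 8] (by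
      convert add_mem e z2 using 1; simp [qf_apply]; ring)
    simp [R1, eq_comm (a := (0 : k))] at a b
    ext i
    fin_cases i <;> simp_all

theorem Pres.caseII [Nontrivial A] (h : Pres π) (z2 : π (X 2) ^ 2 ∈ nilradical A ^ 3)
    (hd : finrank k A ≤ 14) : SmA k A := by
  by_cases! r1 : ∃ c, π (qf c) ∈ nilradical A ^ 3 ∧ ¬ R1 c
  · obtain ⟨c, a, b⟩ := r1
    exact (h.quad a).resolve_right (fun e => b e.1) A _
  have := h.dimII z2 r1
  let i : (Fin 5 → k) × T3' k A →ₗ[k] A := (Fintype.linearCombination k ![π (X 0 * X 0),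
    π (X 1 * X 1), π (X 0 * X 1), π (X 0 * X 2), π (X 1 * X 2)]).coprod (Submodule.subtype _)
  have hi : ∀ d, i d = π (qf ![0, 0, 0, d.1 0, d.1 1, 0, d.1 2, d.1 3, d.1 4]) + d.2 := fun d => by
    simp [i, Fintype.linearCombination_apply, Fin.sum_univ_succ, qf_apply, add_assoc]
  have i0 : ∀ t, i (0, t) = t := by simp [i]
  clear_value i
  have i2 : ∀ d, i d ∈ nilradical A ^ 2 := fun d => by
    have := h.mem (q2 ![0, 0, 0, d.1 0, d.1 1, 0, d.1 2, d.1 3, d.1 4])
    rw [hi]
    exact add_mem (by simpa using this) (dn 2 (show d.2.1 ∈ nilradical A ^ 3 from d.2.2) (by omega))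
  have G := h.gen
  have := absII (mD i i2 G.1) (mD i i2 G.2.1) (a := mT (π (X 0))) (b := mT (π (X 1)))
    (fun t => Subtype.ext (congrArg (π (X 0) * ·) (i0 t)))
    (fun t => Subtype.ext (congrArg (π (X 1) * ·) (i0 t))) (mT_nil (h.2 0)) (mT_nil (h.2 1))
    (LinearMap.ext fun v => Subtype.ext (mul_left_comm (π (X 0)) (π (X 1)) v))
    (fun d => Subtype.ext (mul_left_comm (π (X 1)) (π (X 0)) (i d))) (by omega) (by simp)
  obtain ⟨d, d0, a, b, c⟩ := this
  exact h.defZ z2 r1 d0 d.2.2 (hi d) (congrArg Subtype.val a) (congrArg Subtype.val b)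
    (congrArg Subtype.val c)

theorem cyc_red {φ : P k →ₐ[k] End k V} {v : V} (hv : ∀ u, ∃ F, φ F v = u)
    (h : ∀ [FiniteDimensional k (P k ⧸ RingHom.ker φ)], finrank k (P k ⧸ RingHom.ker φ) =
      finrank k V → SmA k (P k ⧸ RingHom.ker φ)) : Sm (φ (X 0)) (φ (X 1)) (φ (X 2)) := by
  let e := LinearEquiv.ofBijective (applyₗ v ∘ₗ (Ideal.kerLiftAlg φ).toLinearMap)
    ⟨(injective_iff_map_eq_zero _).2 fun a e => by
      obtain ⟨F, rfl⟩ := Ideal.Quotient.mk_surjective a
      exact Ideal.Quotient.eq_zero_iff_mem.2 (ann hv e), fun u => by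
      obtain ⟨F, e⟩ := hv u
      exact ⟨Ideal.Quotient.mk _ F, e⟩⟩
  have := e.symm.finiteDimensional
  have c : ∀ F u, e.symm (φ F u) = Algebra.lmul k _ (Ideal.Quotient.mk _ F) (e.symm u) :=
    fun F u => by
      obtain ⟨a, rfl⟩ := e.surjective u
      rw [e.symm_apply_eq, e.symm_apply_apply]
      exact congr($((map_mul (Ideal.kerLiftAlg φ) (Ideal.Quotient.mk _ F) a).symm) v)
  exact sm_equiv e.symm.toLinearMap e.symm.bijective (c _) (c _) (c _) (h e.finrank_eq _ _ _)

theorem Pres.ord2 [Nontrivial A] (h : Pres π) {F : P k} (e : π F = 0) :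
    F ∈ M0 k ^ 3 ∨ ∃ c ≠ 0, π (qf c) ∈ nilradical A ^ 3 := by
  obtain ⟨a, c, f⟩ := H88.jet F
  have g : algebraMap k A a + π (qf c) ∈ nilradical A ^ 3 := by
    simpa [e] using neg_mem (h.mem f)
  obtain rfl := c0 ((add_mem_cancel_right (d1 (h.mem (p1 (qf_mem _))) (by omega))).1 (d1 g (by omega)))
  exact (em (c = 0)).imp (fun c0 => by simpa [c0] using f) fun c0 => ⟨c, c0, by simpa using g⟩

theorem Pres.low [Nontrivial A] (h : Pres π) (hd : finrank k A ≤ 14) {c : Fin 9 → k} (c0 : c ≠ 0)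
    (e : π (qf c) ∈ nilradical A ^ 3) : SmA k A := by
  rcases h.quad e with a | ⟨-, a | ⟨π', a, b⟩⟩
  exacts [a A _, (c0 a).elim, a.caseII b hd]

theorem Pres.defX [Nontrivial A] (h : Pres π) (nq : ∀ c, π (qf c) ∈ nilradical A ^ 3 → c = 0)
    {w : A} (w3 : w ∉ nilradical A ^ 3 ∨ π (X 0) * w ≠ 0 ∧ ∀ u ∈ nilradical A ^ 3,
      π (X 1) * u = 0 ∧ π (X 2) * u = 0) (yw : π (X 1) * w = 0) (zw : π (X 2) * w = 0)
    (next : ∀ (φ : P k →ₐ[k] End k A) (v : A), (∀ u, ∃ F, φ F v = u) → (∃ f, Two (φ f)) ∨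
      (∀ i, IsNilpotent (φ (X i))) ∧ (∃ F ∉ M0 k ^ 3, φ F = 0) →
      Sm (φ (X 0)) (φ (X 1)) (φ (X 2))) : SmA k A := by
  classical
  let J0 : Ideal (P k) := Ideal.span {X 1, X 2}
  let J := J0.map π
  have yJ : π (X 1) ∈ J := Ideal.mem_map_of_mem _ (Ideal.subset_span (by simp))
  have zJ : π (X 2) ∈ J := Ideal.mem_map_of_mem _ (Ideal.subset_span (by simp))
  obtain ⟨i, i1, l, l1, lJ, lx⟩ : ∃ i, π (X 0) ^ (i + 1) ∈ J ∧ ∃ l : A →ₗ[k] k, l (π (X 0) ^ i) = 1 ∧
      (∀ u ∈ J, l u = 0) ∧ ∀ j < i, l (π (X 0) ^ j) = 0 := by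
    have Jm : J ≠ ⊤ := fun e => not_isNilpotent_one (h.map.le (Ideal.map_mono (Ideal.span_mono (by
      rintro _ (rfl | rfl) <;> simp)) (e.ge trivial : (1 : A) ∈ J)))
    haveI := Ideal.Quotient.nontrivial_iff.2 Jm
    let x := Ideal.Quotient.mkₐ k J (π (X 0))
    obtain ⟨n, hn⟩ : IsNilpotent x := (h.2 0).map _
    obtain ⟨r, -, hr⟩ := (dvd_prime_pow Polynomial.prime_X n).1 (minpoly.dvd k x (by simpa))
    replace hr := Polynomial.eq_of_monic_of_associated (minpoly.monic (.of_finite k x))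
      (Polynomial.monic_X_pow r) hr
    have r0 := minpoly.natDegree_pos (IsIntegral.of_finite k x)
    have li := linearIndependent_pow (K := k) x
    have e := minpoly.aeval k x
    rw [hr] at r0 li e
    rw [Polynomial.natDegree_X_pow] at r0 li
    obtain ⟨i, rfl⟩ := Nat.exists_eq_add_one_of_ne_zero r0.ne'
    obtain ⟨g, hg⟩ := (Finsupp.lapply (Fin.last i) ∘ₗ li.repr).exists_extend
    have : ∀ j : Fin (i + 1), g (x ^ j.1) = Finsupp.single j 1 (Fin.last i) := fun j => by
      rw [← li.repr_eq_single j ⟨_, Submodule.subset_span ⟨j, rfl⟩⟩ rfl]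
      exact congr($hg ⟨_, _⟩)
    refine ⟨i, Ideal.Quotient.eq_zero_iff_mem.1 (by simpa [x] using e),
      g ∘ₗ (Ideal.Quotient.mkₐ k J).toLinearMap, by simpa [x] using this (Fin.last i), fun u hu => by
        simp [Ideal.Quotient.eq_zero_iff_mem.2 hu], fun j hj => ?_⟩
    simpa [x, Finsupp.single_apply, Fin.ext_iff, hj.ne] using this ⟨j, by omega⟩
  have hQ : ∀ u, ∃ a ∈ J, ∃ c : Fin (i + 1) → k, u = a + ∑ j, c j • π (X 0) ^ j.1 := fun u => by
    let Q := J.restrictScalars k ⊔ Submodule.span k (Set.range fun j : Fin (i + 1) => π (X 0) ^ j.1)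
    have q1 : ∀ j ≤ i + 1, π (X 0) ^ j ∈ Q := fun j hj => by
      rcases hj.eq_or_lt with rfl | hj
      exacts [Submodule.mem_sup_left i1,
        Submodule.mem_sup_right (Submodule.subset_span ⟨⟨j, hj⟩, rfl⟩)]
    have : u ∈ Q := by
      obtain ⟨F, rfl⟩ := h.1 u
      induction F using MvPolynomial.induction_on with
      | C c => simpa [Algebra.smul_def] using Q.smul_mem c (q1 0 (by omega))
      | add F G a b => simpa using add_mem a b
      | mul_X F j a =>
        rw [map_mul]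
        fin_cases j
        · exact (sup_le (fun u hu => Submodule.mem_sup_left (J.mul_mem_right _ hu))
            (Submodule.span_le.2 (by rintro _ ⟨j, rfl⟩; simpa [pow_succ] using q1 (j + 1) (by omega))) :
            Q ≤ Q.comap (mulRight k (π (X 0)))) a
        exacts [Submodule.mem_sup_left (J.mul_mem_left _ yJ),
          Submodule.mem_sup_left (J.mul_mem_left _ zJ)]
    obtain ⟨a, ha, b, hb, rfl⟩ := Submodule.mem_sup.1 this
    obtain ⟨c, rfl⟩ := (Submodule.mem_span_range_iff_exists_fun _).1 hb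
    exact ⟨a, ha, c, rfl⟩
  obtain ⟨w, w3, yw, zw⟩ : ∃ w, (w ∉ nilradical A ^ 3 ∨ l w ≠ 0) ∧ π (X 1) * w = 0 ∧
      π (X 2) * w = 0 := by
    rcases w3 with w3 | ⟨x0, w3⟩
    · exact ⟨w, .inl w3, yw, zw⟩
    by_contra! no
    by_cases m3 : w ∈ nilradical A ^ 3
    swap
    · exact no w (.inl m3) yw zw
    have z : ∀ n, l (π (X 0) ^ n * w) = 0 := fun n => by_contra fun e =>
      no _ (.inr e) (by rw [mul_left_comm, yw, mul_zero]) (by rw [mul_left_comm, zw, mul_zero])
    obtain ⟨a, ha, c, rfl⟩ := hQ w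
    have c0' : ∀ j, c j = 0 := fun j => by
      have := z (i - j)
      rw [mul_add, map_add, lJ _ (J.mul_mem_left _ ha), zero_add, Finset.mul_sum, map_sum,
        Finset.sum_eq_single j (fun r _ e => ?_) (by simp)] at this
      · simpa [← pow_add, Nat.sub_add_cancel (Nat.le_of_lt_succ j.2), l1] using this
      rw [mul_smul_comm, ← pow_add, map_smul]
      rcases lt_or_gt_of_ne (Fin.val_ne_of_ne e) with e | e
      · rw [lx _ (by omega), smul_zero]
      · rw [lJ _ (by
          rw [show i - j + r = i - j + r - (i + 1) + (i + 1) by omega, pow_add]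
          exact J.mul_mem_left _ i1), smul_zero]
    simp only [c0', zero_smul, Finset.sum_const_zero, add_zero] at x0 m3
    obtain ⟨G, hG, rfl⟩ := (Ideal.mem_map_iff_of_surjective _ h.1).1 ha
    obtain ⟨a, b, rfl⟩ := Ideal.mem_span_pair.1 hG
    obtain ⟨α, p, e⟩ := h.jet (π a)
    obtain ⟨β, q, f⟩ := h.jet (π b)
    have e2 := add_mem (dn 2 e (by omega)) (h.mem (q2 p))
    have f2 := add_mem (dn 2 f (by omega)) (h.mem (q2 q))
    have := nq ![0, α, β, 0, p 1, q 2, p 0, q 0, p 2 + q 1] (by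
      convert sub_mem (sub_mem m3 (mp 3 e2 (p1 h.gen.2.1) (by omega))) (mp 3 f2 (p1 h.gen.2.2.1) (by omega)) using 1
      simp [qf_apply, Algebra.smul_def]
      ring)
    simp at this
    refine x0 ?_
    have y := (w3 _ (mp 3 e2 (p1 h.gen.1) (by omega))).1
    have z := (w3 _ (mp 3 f2 (p1 h.gen.1) (by omega))).2
    simp [this, eq_neg_of_add_eq_zero_left this.2.2.2.2.2.2, Algebra.smul_def] at y z ⊢
    linear_combination y + z
  have cw : ∀ a ∈ J, a * w = 0 → Commute (l.smulRight w) (Algebra.lmul k A a) := fun a b c =>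
    LinearMap.ext fun u => by simp [lJ _ (J.mul_mem_right u b), c]
  refine h.smA ?_
  have := Sm.curve (X := fun t : k => Algebra.lmul k A (π (X 0)) + t • l.smulRight w)
    (Y := fun _ => Algebra.lmul k A (π (X 1))) (Z := fun _ => Algebra.lmul k A (π (X 2)))
    (by fun_prop) (by fun_prop) (by fun_prop) ?_
  · simpa using this
  refine (Set.finite_singleton 0).subset fun t ht => by_contra fun t0 => ht ?_
  obtain ⟨φ, φ0, φ1, φ2⟩ := mk3 (a := Algebra.lmul k A (π (X 0)) + t • l.smulRight w)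
    (((Commute.all _ _).map _).add_left ((cw _ yJ yw).smul_left t))
    (((Commute.all _ _).map _).add_left ((cw _ zJ zw).smul_left t))
    ((Commute.all (π (X 1)) (π (X 2))).map (Algebra.lmul k A))
  have onJ : ∀ F, ∀ u ∈ J, φ F u = π F * u := fun F => by
    induction F using MvPolynomial.induction_on with
    | C c => simp [Algebra.smul_def]
    | add F G a b => simp +contextual [a, b, add_mul]
    | mul_X F j a =>
      intro u hu
      have : φ (X j) u = π (X j) * u := by fin_cases j <;> simp [φ0, φ1, φ2, lJ u hu]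
      rw [map_mul, End.mul_apply, this, a _ (J.mul_mem_left _ hu), map_mul, mul_assoc]
  have repJ : ∀ u ∈ J, ∃ G, π G = u ∧ φ G 1 = u := fun u hu => by
    obtain ⟨G, hG, rfl⟩ := (Ideal.mem_map_iff_of_surjective _ h.1).1 hu
    obtain ⟨a, b, rfl⟩ := Ideal.mem_span_pair.1 hG
    exact ⟨_, rfl, by simp [φ1, φ2, onJ _ _ yJ, onJ _ _ zJ]⟩
  have px : ∀ j ≤ i, φ (X 0 ^ j) 1 = π (X 0) ^ j := fun j => by
    induction j with
    | zero => simp
    | succ j ih =>
      intro hj
      rw [pow_succ', map_mul, End.mul_apply, ih (by omega), φ0]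
      simp [lx j hj, pow_succ']
  have rep : ∀ u, ∃ G, π G = u ∧ φ G 1 = u := fun u => by
    obtain ⟨a, ha, c, rfl⟩ := hQ u
    obtain ⟨G, g1, g2⟩ := repJ a ha
    exact ⟨G + ∑ j, c j • X 0 ^ j.1, by simp [g1], by
      simp [g2, -map_pow, px _ (Nat.le_of_lt_succ (Fin.is_lt _))]⟩
  have cy : ∀ u, ∃ F, φ F 1 = u := fun u => (rep u).imp fun _ a => a.2
  change Sm _ _ _
  rw [← φ0, ← φ1, ← φ2]
  refine next φ 1 cy ((em _).imp id fun a => ?_)
  have nil : ∀ j, IsNilpotent (φ (X j)) := fun j => by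
    fin_cases j
    rotate_left
    · exact φ1 ▸ (h.2 1).map _
    · exact φ2 ▸ (h.2 2).map _
    refine by_contra fun b => a ⟨_, b, fun c => ?_⟩
    obtain ⟨n, n0, n1⟩ := nil_ker ((h.2 0).map (Algebra.lmul k A)) (v := π (X 1)) fun e => by
      simpa using congrFun (nq (Pi.single 1 1) (by simp [qf_apply, e])) 1
    rw [← map_pow] at n0 n1
    exact n0 (ker_eq_bot'.1 ((isUnit_iff_ker_eq_bot _).1 c) _
      ((onJ _ _ (J.mul_mem_left _ yJ)).trans n1))
  replace w3 := w3.resolve_right (not_not.2 (by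
    have a := (isNilpotent_trace_of_isNilpotent (nil 0)).eq_zero
    rw [φ0, map_add, (isNilpotent_trace_of_isNilpotent ((h.2 0).map _)).eq_zero] at a
    simpa [show t ≠ 0 from t0] using a))
  obtain ⟨G, g1, g2⟩ := rep (π (X 0) ^ (i + 1))
  obtain ⟨W, w1, w2⟩ := rep w
  refine ⟨nil, X 0 ^ (i + 1) - G - t • W, fun e => w3 ?_, ann cy ?_⟩
  · have := (h.ord2 (F := X 0 ^ (i + 1) - G) (by simp [g1])).resolve_right
      fun ⟨c, c0, e⟩ => c0 (nq c e)
    simpa [smul_smul, show t ≠ 0 from t0, w1] using sm t⁻¹ (h.mem (sub_mem this e))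
  · rw [pow_succ', map_sub, map_sub, map_mul, LinearMap.sub_apply, LinearMap.sub_apply,
      End.mul_apply, px _ le_rfl, φ0, g2]
    simp [l1, w2, pow_succ']

end Pool.Agent.Lib.MP_02ae3d_ag.H88
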