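import Pool.Agent.Lib.MP_02ae3d_ag.Sm

set_option autoImplicit false

namespace Pool.Agent.Lib.MP_02ae3d_ag.Wrap
open Pool.Agent.Lib.MP_02ae3d_ag Module

variable {k : Type} [Field k] {d r : ℕ}

/-- The vectors `v j` generate `k^d` as a module over `k[T 0, T 1, T 2]`. -/
def Generates (T : Fin 3 → Matrix (Fin d) (Fin d) k) (v : Fin r → Fin d → k) : Prop :=
  ∀ p : Submodule k (Fin d → k), (∀ j, v j ∈ p) → (∀ i, ∀ u ∈ p, (T i).mulVec u ∈ p) → p = ⊤

/-- The module given by `T` is the sum of `d` distinct reduced points `a j` of `k^3`. -/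
def Distinct (T : Fin 3 → Matrix (Fin d) (Fin d) k) : Prop :=
  ∃ (b : Basis (Fin d) k (Fin d → k)) (a : Fin d → Fin 3 → k), a.Injective ∧
    ∀ i j, (T i).mulVec (b j) = a j i • b j

/-- All entries of the three matrices and of the `r` vectors. -/
def coords (T : Fin 3 → Matrix (Fin d) (Fin d) k) (v : Fin r → Fin d → k) :
    (Fin 3 × Fin d × Fin d) ⊕ (Fin r × Fin d) → k :=
  Sum.elim (fun x => T x.1 x.2.1 x.2.2) (fun x => v x.1 x.2)

theorem gen {V : Type} [AddCommGroup V] [Module k V] (b : Basis (Fin d) k V) {A : End k V}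
    {a : Fin d → k} (ha : a.Injective) (h : ∀ j, A (b j) = a j • b j) {w : V}
    (hw : ∀ j, b.repr w j ≠ 0) {p : Submodule k V} (wp : w ∈ p) (hp : p ≤ p.comap A) : p = ⊤ := by
  classical
  refine top_unique (b.span_eq.ge.trans (Submodule.span_le.2 ?_))
  rintro _ ⟨j, rfl⟩
  have := (Lagrange.basis Finset.univ a j).aeval_apply_smul_mem_of_le_comap wp A hp
  rw [← b.sum_repr w, map_sum, Finset.sum_eq_single j (fun i _ e => by
    rw [map_smul, End.aeval_apply_of_mem_apply_eq_smul (h i),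
      Lagrange.eval_basis_of_ne e.symm (Finset.mem_univ _), zero_smul, smul_zero]) (by simp),
    map_smul, End.aeval_apply_of_mem_apply_eq_smul (h j),
    Lagrange.eval_basis_self ha.injOn (Finset.mem_univ _), one_smul] at this
  exact (p.smul_mem_iff (hw j)).1 this

theorem pol (f : MvPolynomial ((Fin 3 × Fin d × Fin d) ⊕ (Fin r × Fin d)) k) :
    (fun x : (Fin 3 → Matrix (Fin d) (Fin d) k) × (Fin r → Fin d → k) =>
      MvPolynomial.eval (coords x.1 x.2) f) ∈ Pol k _ := by
  induction f using MvPolynomial.induction_on with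
  | C c => simpa using isP_iff.1 (.const c)
  | add p q a b => simpa [Pi.add_def] using add_mem a b
  | mul_X p i a =>
    simp only [map_mul, MvPolynomial.eval_X]
    refine mul_mem a (Algebra.subset_adjoin ⟨⟨⟨fun x => coords x.1 x.2 i, ?_⟩, ?_⟩, rfl⟩) <;>
      cases i <;> intros <;> rfl

theorem wrap [IsAlgClosed k] [CharZero k] (hr : 1 ≤ r) (T : Fin 3 → Matrix (Fin d) (Fin d) k)
    (v : Fin r → Fin d → k) (s : Sm (T 0).toLin' (T 1).toLin' (T 2).toLin')
    (f : MvPolynomial ((Fin 3 × Fin d × Fin d) ⊕ (Fin r × Fin d)) k)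
    (hf : ∀ T w, Distinct T → Generates T w → MvPolynomial.eval (coords T w) f = 0) :
    MvPolynomial.eval (coords T v) f = 0 := by
  let L := (LinearMap.toMatrixAlgEquiv' (R := k) (n := Fin d))
  let M : T3 k (Fin d → k) →ₗ[k] Fin 3 → Matrix (Fin d) (Fin d) k :=
    { toFun := fun T => ![L T.1, L T.2.1, L T.2.2]
      map_add' := by simp
      map_smul' := by simp }
  have := (((IsP.id.lin M).mk (.const v)).map_cl (B := {x | Distinct x.1 ∧ Generates x.1 x.2})
    (fun T hT => ?_) s) _ (pol f) fun x hx => hf _ _ hx.1 hx.2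
  · convert this using 4
    ext1 i
    fin_cases i <;> exact (LinearMap.toMatrix'_toLin' _).symm
  obtain ⟨s, s1, s2, s3⟩ := exists_linearIndependent k (Ev T)
  let b0 := Basis.mk s3 (by rw [Subtype.range_coe, s2]; exact hT.ge)
  obtain ⟨b, hb⟩ : ∃ b : Basis (Fin d) k (Fin d → k), ∀ j, b j ∈ Ev T :=
    ⟨b0.reindex (b0.indexEquiv (Pi.basisFun k _)), fun j => s1 (by simp [b0])⟩
  choose x hx using fun j => (hb j).1
  choose y hy using fun j => (hb j).2.1
  choose z hz using fun j => (hb j).2.2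
  obtain ⟨A, hA⟩ : ∃ A : End k (Fin d → k), ∀ j, A (b j) = ((j : ℕ) : k) • b j :=
    ⟨b.constr k _, fun j => b.constr_basis _ _ j⟩
  have := IsP.curve (k := k) (γ := fun t : k => (M (T.1 + t • A, T.2), v + t • fun _ => ∑ j, b j))
    (B := {x | Distinct x.1 ∧ Generates x.1 x.2})
    (.mk (.lin M (by fun_prop)) (.add (.const _) (.smul .id (.const _))))
    (Set.infinite_of_finite_compl (?_ : ∀ᶠ t in Filter.cofinite, _))
  · simpa using this
  have e1 : ∀ᶠ t : k in Filter.cofinite, ∀ i j : Fin d, i ≠ j →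
      x i + t * (i : ℕ) - (x j + t * (j : ℕ)) ≠ 0 := by
    simp only [Filter.eventually_all]
    intro i j e
    have c : ((i : ℕ) : k) - (j : ℕ) ≠ 0 := by simpa [sub_eq_zero, Fin.val_inj] using e
    refine IsP.cof (by fun_prop) (a := (1 + x j - x i) / ((i : ℕ) - (j : ℕ))) ?_
    rw [show ∀ a b s c e : k, a + s * b - (c + s * e) = s * (b - e) + (a - c) by intros; ring,
      div_mul_cancel₀ _ c]
    simp
  have e2 : ∀ᶠ t : k in Filter.cofinite, ∀ j, b.repr (v ⟨0, hr⟩) j + t ≠ 0 :=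
    Filter.eventually_all.2 fun j => IsP.cof (by fun_prop) (a := 1 - b.repr (v ⟨0, hr⟩) j) (by simp)
  filter_upwards [e1, e2] with t e1 e2
  have a : Function.Injective fun j : Fin d => x j + t * (j : ℕ) := fun i j e =>
    by_contra fun c => e1 i j c (sub_eq_zero.2 e)
  have c : ∀ j, (T.1 + t • A) (b j) = (x j + t * (j : ℕ)) • b j := fun j => by
    simp [hx, hA, add_smul, smul_smul]
  have l : ∀ (B : End k (Fin d → k)) u, (L B).mulVec u = B u := LinearMap.toMatrix'_mulVec
  refine subset_cl ⟨⟨b, fun j => ![x j + t * (j : ℕ), y j, z j], fun i j e => a (congrFun e 0),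
    fun i j => ?_⟩, fun p p1 p2 => gen b a c (fun j => ?_) (p1 ⟨0, hr⟩) fun u hu => ?_⟩
  · fin_cases i <;> simp [M, l, c, hy, hz, -map_add]
  · simpa [Finsupp.single_apply] using e2 j
  · simpa [M, l, -map_add] using p2 0 u hu

end Pool.Agent.Lib.MP_02ae3d_ag.Wrap
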