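import Pool.Agent.Lib.MP_02ae3d_ag.H88HD
import Pool.Agent.Lib.MP_02ae3d_ag.Wrap

set_option autoImplicit false
set_option linter.unusedSectionVars false

namespace Pool.Agent.Lib.MP_02ae3d_ag.H88
open MvPolynomial Module Matrix Wrap

variable {k : Type} [Field k] [IsAlgClosed k] [CharZero k] {d r : ℕ}
  {W : Type} [AddCommGroup W] [Module k W]

theorem isP_dom {f g : W → k} (hf : IsP k f) (hg : IsP k g) (h : ∀ w, f w * g w = 0) :
    (∀ w, f w = 0) ∨ ∀ w, g w = 0 := by
  by_contra! a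
  obtain ⟨⟨x, a⟩, y, b⟩ := a
  have p : IsP k fun t : k => x + t • (y - x) := by fun_prop
  obtain ⟨t, c, e⟩ := (((hf.comp p).cof (a := 0) (by simpa)).and
    ((hg.comp p).cof (a := 1) (by simpa))).exists
  exact mul_ne_zero c e (h _)

theorem isP_pi {ι M : Type} [Fintype ι] [AddCommGroup M] [Module k M] {Φ : W → ι → M}
    (h : ∀ i, IsP k fun w => Φ w i) : IsP k Φ := by
  classical
  simpa [Finset.univ_sum_single] using
    IsP.sum .univ fun i => (h i).lin (LinearMap.single k (fun _ => M) i)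

theorem prime_of {U : Set ((Fin 3 → Matrix (Fin d) (Fin d) k) × (Fin r → Fin d → k))} (hr : 1 ≤ r)
    (h1 : ∀ T w, (∀ i j, T i * T j = T j * T i) → Generates T w → (T, w) ∈ U)
    (h2 : ∀ x ∈ U, Sm (x.1 0).toLin' (x.1 1).toLin' (x.1 2).toLin') :
    (vanishingIdeal k ((fun x => coords x.1 x.2) '' U)).IsPrime := by
  have m : ∀ f, f ∈ vanishingIdeal k ((fun x => coords x.1 x.2) '' U) ↔
      ∀ x ∈ U, eval (coords x.1 x.2) f = 0 := fun f => Set.forall_mem_image
  let Ψ : Matrix (Fin d) (Fin d) k × (Fin 3 → Fin d → k) × (Fin r → Fin d → k) →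
      (Fin 3 → Matrix (Fin d) (Fin d) k) × (Fin r → Fin d → k) :=
    fun w => (fun i => w.1 * diagonal (w.2.1 i) * w.1.adjugate, w.2.2)
  have e1 : ∀ a b, IsP k fun w : Matrix (Fin d) (Fin d) k × (Fin 3 → Fin d → k) ×
      (Fin r → Fin d → k) => w.1 a b := fun a b => IsP.id.fst.lin (entryLinearMap k k a b)
  have p : IsP k Ψ := .mk (isP_pi fun i => isP_pi fun a => isP_pi fun b => by
    simp only [mul_apply (N := adjugate _), mul_diagonal, adjugate_apply]
    refine .sum _ fun j => ((e1 a j).mulk (IsP.id.snd.fst.lin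
      (LinearMap.proj j ∘ₗ LinearMap.proj i))).mulk (.mdet fun a c => ?_)
    simp only [updateRow_apply]
    split_ifs
    exacts [.const _, e1 _ _]) (by fun_prop)
  have key : ∀ f, f ∈ vanishingIdeal k ((fun x => coords x.1 x.2) '' U) ↔
      ∀ w, eval (coords (Ψ w).1 (Ψ w).2) f = 0 := fun f => by
    refine (m f).trans ⟨fun h => (isP_dom (isP_iff.2 (p.mem (pol f))) (IsP.mdet e1) fun w =>
      mul_eq_zero.2 (or_iff_not_imp_right.2 fun w0 => wrap hr _ _ ?_ f ?_)).resolve_right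
        fun a => by simpa using a (1, 0), fun h x hx => wrap hr _ _ (h2 x hx) f ?_⟩
    · let b := (Pi.basisFun k (Fin d)).map (w.1.toLinearEquiv' (invertibleOfIsUnitDet _ (Ne.isUnit w0)))
      have : ∀ i j, toLin' ((Ψ w).1 i) (b j) = (w.2.1 i j * w.1.det) • b j := fun i j => by
        change _ *ᵥ (w.1 *ᵥ _) = _ • (w.1 *ᵥ _)
        rw [mulVec_mulVec, mul_assoc, adjugate_mul]
        ext a
        simp [mul_comm, mul_left_comm]
      exact subset_cl (top_unique (b.span_eq.ge.trans (Submodule.span_mono (by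
        rintro _ ⟨j, rfl⟩; exact ⟨⟨_, this 0 j⟩, ⟨_, this 1 j⟩, _, this 2 j⟩))))
    · rintro T w ⟨b, a, -, e⟩ g
      refine h (T, w) (h1 T w (fun i j => toLin'.injective (b.ext fun l => ?_)) g)
      simp only [toLin'_apply, ← mulVec_mulVec, e, mulVec_smul, smul_smul, mul_comm]
    · rintro T w ⟨b, a, -, e⟩ -
      let g := (Pi.basisFun k (Fin d)).toMatrix b
      have g0 : g.det ≠ 0 := ((Pi.basisFun k (Fin d)).isUnit_det b).ne_zero
      have : T = (Ψ (g, fun i j => a j i / g.det, w)).1 := _root_.funext fun i => by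
        refine ((isUnit_iff_isUnit_det g).2 g0.isUnit).mul_right_cancel ?_
        rw [mul_assoc, adjugate_mul]
        ext r j
        have hg : ∀ a j, g a j = b j a := fun _ _ => by simp [g, Basis.toMatrix_apply]
        simpa [hg, mul_apply (M := T i), mulVec, dotProduct, mul_left_comm (det g),
          mul_div_cancel₀ _ g0, mul_comm (a j i)] using congrFun (e i j) r
      rw [this]
      exact h (g, fun i j => a j i / g.det, w)
  refine ⟨fun a => by simpa using (key 1).1 (a.ge trivial) 0, fun {f g} h => ?_⟩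
  simp only [key, map_mul] at h ⊢
  exact isP_dom (isP_iff.2 (p.mem (pol f))) (isP_iff.2 (p.mem (pol g))) h

theorem sm_cyc (hd : d ≤ 13 ∨ d = 14 ∧ VC4 k) {T : Fin 3 → Matrix (Fin d) (Fin d) k} {w : Fin 1 → Fin d → k}
    (c : ∀ i j, T i * T j = T j * T i) (g : Generates T w) :
    Sm (T 0).toLin' (T 1).toLin' (T 2).toLin' := by
  have c' : ∀ i j, Commute (T i).toLin' (T j).toLin' := fun i j =>
    (toLin'_mul _ _).symm.trans ((congrArg _ (c i j)).trans (toLin'_mul _ _))
  obtain ⟨φ, a, b, e⟩ := mk3 (c' 0 1) (c' 0 2) (c' 1 2)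
  have x : ∀ i, φ (X i) = (T i).toLin' := fun i => by fin_cases i <;> assumption
  rw [← a, ← b, ← e]
  refine hilbG d hd _ φ (w 0) (by simp) fun u => (g (LinearMap.range
    (LinearMap.applyₗ (w 0) ∘ₗ φ.toLinearMap)) (fun j => ⟨1, by simp [Subsingleton.elim j 0]⟩) ?_).ge
      (Submodule.mem_top (x := u))
  rintro i _ ⟨F, rfl⟩
  exact ⟨X i * F, by simp [x]⟩

end Pool.Agent.Lib.MP_02ae3d_ag.H88
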