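import Pool.Agent.Lib.MP_02ae3d_ag.H88Orb

set_option autoImplicit false
set_option linter.unusedSectionVars false

namespace Pool.Agent.Lib.MP_02ae3d_ag.H88
open MvPolynomial Module LinearMap Matrix Representation

variable {k : Type} [Field k] [IsAlgClosed k] [CharZero k] {G : Type} [Group G] [Fintype G]
  (κ : Kl k G) {V : Type} [AddCommGroup V] [Module k V] [FiniteDimensional k V]

noncomputable instance invCard : Invertible (Nat.card G : k) :=
  invertibleOfNonzero (Nat.cast_ne_zero.2 Nat.card_pos.ne')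

/-- the defining representation -/
noncomputable def Kl.U : Representation k G (Fin 2 → k) :=
  (toLinAlgEquiv' (R := k) (n := Fin 2)).toAlgHom.toMonoidHom.comp κ.σ

theorem Kl.U_apply (g : G) (a : Fin 2 → k) : κ.U g a = κ.σ g *ᵥ a := rfl

theorem Kl.U_char (g : G) : κ.U.character g = (κ.σ g).trace := trace_toLin'_eq _

variable {κ} {π : Representation k G V} {ψ : S k →ₐ[k] End k V}

theorem mem_E {φ : (Fin 2 → k) →ₗ[k] End k V} : φ ∈ (linHom κ.U (linHom π π)).invariants ↔
    ∀ g a, π g * φ a = φ (κ.σ g *ᵥ a) * π g := by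
  refine forall_congr' fun g => ⟨fun h a => ?_, fun h => LinearMap.ext fun a => ?_⟩
  · rw [← congr($h (κ.σ g *ᵥ a)), ← κ.U_apply]
    ext v
    simp
  · ext v
    simpa [← κ.U_apply] using congr($(h (κ.U g⁻¹ a)) (π g⁻¹ v))

theorem mem_L {a : End k V} : a ∈ (linHom π π).invariants ↔ ∀ g, π g * a = a * π g := by
  refine forall_congr' fun g => ⟨fun h => ?_, fun h => ?_⟩ <;> ext v
  · simpa using congr($h (π g v))
  · simpa using congr($h (π g⁻¹ v))

theorem tr0 {a : End k V} (h : ∀ y, trace k V (a * y) = 0) : a = 0 :=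
  LinearMap.ext fun v => (forall_dual_apply_eq_zero_iff k _).1 fun ξ => by
    rw [← trace_smulRight, ← h (ξ.smulRight v)]
    congr 1
    ext
    simp

theorem Fr.dens (hf : Fr π) [Nontrivial V] {p : (linHom κ.U (linHom π π)).invariants}
    (c : Commute (p.1 (Pi.single 0 1)) (p.1 (Pi.single 1 1))) :
    p ∈ cl k {q | Commute (q.1 (Pi.single 0 1)) (q.1 (Pi.single 1 1)) ∧
      ¬ (IsNilpotent (q.1 (Pi.single 0 1)) ∧ IsNilpotent (q.1 (Pi.single 1 1)))} := by
  classical
  refine dens_end (E := (linHom κ.U (linHom π π)).invariants) (p := p)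
    (applyₗ (Pi.single 0 1) ∘ₗ Submodule.subtype _)
    (applyₗ (Pi.single 1 1) ∘ₗ Submodule.subtype _) ((linHom π π).invariants ⊓ ker (trace k V))
    (fun p q => ⟨mem_L.2 fun g => ?_, by simp [trace_mul_comm]⟩) (fun p h => ?_) ?_ c
  · have a := alt ((LinearMap.mul k _).compl₁₂ p.1 q.1) (κ.det g)
    have b := alt ((LinearMap.mul k _).compl₁₂ q.1 p.1) (κ.det g)
    have e : ∀ (p q : (linHom κ.U (linHom π π)).invariants) a b, π g * (p.1 a * q.1 b) =
        p.1 (κ.σ g *ᵥ a) * q.1 (κ.σ g *ᵥ b) * π g := fun p q a b => by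
      rw [← mul_assoc, mem_E.1 p.2, mul_assoc, mem_E.1 q.2, mul_assoc]
    simp only [compl₁₂_apply, LinearMap.mul_apply'] at a b
    simp only [LinearMap.comp_apply, Submodule.subtype_apply, applyₗ_apply_apply, mul_add, mul_sub, e,
      ← sub_mul, ← add_mul]
    congr 1
    linear_combination (norm := abel) a + b
  · have key : ∀ q : (Fin 2 → k) →ₗ[k] End k V, trace k V (p.1 (Pi.single 0 1) * q (Pi.single 1 1)) -
        trace k V (p.1 (Pi.single 1 1) * q (Pi.single 0 1)) = 0 := fun q => by
      have e : ∀ g a b, trace k V (p.1 a * linHom κ.U (linHom π π) g q b) =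
          trace k V (p.1 (κ.σ g⁻¹ *ᵥ a) * q (κ.σ g⁻¹ *ᵥ b)) := fun g a b => by
        change trace k V (p.1 a * (π g * (q (κ.σ g⁻¹ *ᵥ b) * π g⁻¹))) = _
        rw [← mul_assoc, ← mul_assoc, LinearMap.trace_mul_comm, ← mul_assoc, ← mul_assoc, mem_E.1 p.2,
          mul_assoc _ (π g⁻¹), ← map_mul, inv_mul_cancel, map_one, mul_one]
      have := h ⟨(linHom κ.U (linHom π π)).norm q, fun g => self_norm_apply ..⟩
      simp only [LinearMap.comp_apply, Submodule.subtype_apply, applyₗ_apply_apply] at this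
      rw [LinearMap.trace_mul_comm k _ (p.1 (Pi.single 1 1)), ← sub_eq_zero] at this
      simp only [Representation.norm, LinearMap.sum_apply, Finset.mul_sum, map_sum, e,
        ← Finset.sum_sub_distrib] at this
      simpa [← mul_sub] using (Finset.sum_congr rfl fun g _ => alt (((LinearMap.mul k _).compl₁₂ p.1 q).compr₂
        (trace k V)) (κ.det g⁻¹)).symm.trans this
    have a0 : p.1 (Pi.single 0 1) = 0 := tr0 fun y => by
      simpa using key ((LinearMap.proj 1).smulRight y)
    have a1 : p.1 (Pi.single 1 1) = 0 := tr0 fun y => by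
      simpa using key ((LinearMap.proj 0).smulRight y)
    refine Subtype.ext ((Pi.basisFun k _).ext fun i => ?_)
    fin_cases i <;> simpa
  · have a := card_inv_mul_sum_char_eq_finrank (linHom κ.U (linHom π π))
    have b := card_inv_mul_sum_char_eq_finrank (linHom π π)
    simp only [char_linHom] at a b
    rw [Finset.sum_eq_single 1 (fun g _ hg => by simp [hf g hg]) (by simp)] at a b
    have e : finrank k (linHom κ.U (linHom π π)).invariants = 2 * finrank k (linHom π π).invariants :=
      Nat.cast_injective (R := k) (by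
        rw [← a, Nat.cast_mul, ← b, inv_one, κ.U.char_one]
        simp [mul_left_comm])
    rw [e]
    refine Nat.mul_lt_mul_of_pos_left (Submodule.finrank_lt_finrank_of_lt (inf_lt_left.2 fun h => ?_))
      two_pos
    simpa [finrank_pos.ne'] using h (mem_L.2 fun g => by simp : (1 : End k V) ∈ _)

theorem comm_eig {a b : End k V} (c : Commute a b) {x : k} {w : V} (w0 : w ≠ 0)
    (hw : a w = x • w) : ∃ (y : k) (v : V), v ≠ 0 ∧ a v = x • v ∧ b v = y • v := by
  have st := comm_ker (c.sub_left ((Commute.one_left b).smul_left x))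
  have : Nontrivial (ker (a - x • 1)) := ⟨⟨w, by simp [hw]⟩, 0, by simpa⟩
  obtain ⟨y, v, v0, hv⟩ := eig (b.restrict st)
  exact ⟨y, v, by simpa using v0, sub_eq_zero.1 v.2, congrArg Subtype.val hv⟩

theorem eig_pt {w : V} {p : Fin 2 → k} (h : ∀ i, ψ (X i) w = p i • w) (f : S k) :
    ψ f w = eval p f • w := by
  induction f using MvPolynomial.induction_on with
  | C c => simp [Algebra.algebraMap_eq_smul_one]
  | add p q a b => simp [a, b, add_smul]
  | mul_X f i a => simp [h, a, smul_smul, mul_comm]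

theorem main (n : ℕ) : ∀ (V : Type) [AddCommGroup V] [Module k V] [FiniteDimensional k V]
    (π : Representation k G V) (ψ : S k →ₐ[k] End k V), finrank k V = n → κ.Eqv π ψ → Fr π →
    ∀ (M : Type) [AddCommGroup M] [Module k M] [FiniteDimensional k M] (i : M →ₗ[k] V),
    Function.Injective i → range i = π.invariants → ∀ (x : Fin 3 → S k) (T : Fin 3 → End k M),
    (∀ j, κ.Inv (x j)) → (∀ j m, i (T j m) = ψ (x j) (i m)) → Sm (T 0) (T 1) (T 2) := by
  induction n using Nat.strong_induction_on with | _ n ih => ?_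
  intro V _ _ _ π ψ hn h hf M _ _ _ i hi hr x T hx hT
  subst hn
  rcases subsingleton_or_nontrivial V with _ | _
  · exact .small ((finrank_le_finrank_of_injective hi).trans (by simp [finrank_zero_of_subsingleton]))
  have iv : ∀ g m, π g (i m) = i m := fun g m => hr.le ⟨m, rfl⟩ g
  have key : ∀ (ψ : S k →ₐ[k] End k V) (T : Fin 3 → End k M), κ.Eqv π ψ →
      (∀ j m, i (T j m) = ψ (x j) (i m)) → ¬ (IsNilpotent (ψ (X 0)) ∧ IsNilpotent (ψ (X 1))) →
      Sm (T 0) (T 1) (T 2) := fun ψ T h hT nn => by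
    by_cases h2 : ∀ r, κ.Inv r → ∀ c : k, ¬ Two (ψ r - c • 1)
    · obtain ⟨p, w, hp, w0, hw⟩ : ∃ (p : Fin 2 → k) (w : V), p ≠ 0 ∧ w ≠ 0 ∧
          ∀ i, ψ (X i) w = p i • w := by
        rcases not_and_or.1 nn with a | a <;> obtain ⟨c, w, c0, w0, hw⟩ := nz_eig a
        · obtain ⟨y, v, v0, a, b⟩ := comm_eig (cm ψ _ (X 1)) w0 hw
          exact ⟨![c, y], v, fun e => c0 (congrFun e 0), v0, Fin.forall_fin_two.2 ⟨a, b⟩⟩
        · obtain ⟨y, v, v0, a, b⟩ := comm_eig (cm ψ _ (X 0)) w0 hw
          exact ⟨![y, c], v, fun e => c0 (congrFun e 1), v0, Fin.forall_fin_two.2 ⟨b, a⟩⟩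
      exact h.orbit hi hr hT h2 hp w0 (eig_pt hw)
    push Not at h2
    obtain ⟨r, hr', c, two⟩ := h2
    obtain ⟨n, cp, a, b⟩ := two.fit
    have e : (ψ r - c • 1) ^ (n + 1) = ψ ((r - C c) ^ (n + 1)) := by
      simp [Algebra.algebraMap_eq_smul_one]
    rw [e] at cp a b
    have hR : κ.Inv ((r - C c) ^ (n + 1)) := fun g => by simp [hr' g]
    have d : eval 0 ((r - C c) ^ (n + 1)) = 0 ∨ eval 0 ((r - C c) ^ (n + 1)) ≠ 0 := em _
    generalize (r - C c) ^ (n + 1) = R at cp a b hR d
    have g1 : ∀ g, ker (ψ R) ≤ (ker (ψ R)).comap (π g) := fun g => comm_ker (h.comm hR g)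
    have g2 : ∀ g, range (ψ R) ≤ (range (ψ R)).comap (π g) := fun g => comm_range (h.comm hR g)
    have s1 : ∀ f, ∀ v ∈ ker (ψ R), ψ f v ∈ ker (ψ R) := fun f => comm_ker (cm ..)
    have s2 : ∀ f, ∀ v ∈ range (ψ R), ψ f v ∈ range (ψ R) := fun f => comm_range (cm ..)
    have eq : ∀ p g s, κ.Eqv (π.subrepresentation p g) (res ψ p s) :=
      fun p g s a f v => Subtype.ext (h a f v)
    have pr : ∀ g v, Submodule.projectionOnto _ _ cp.symm (π g v) =
        π.subrepresentation _ g2 g (Submodule.projectionOnto _ _ cp.symm v) := fun g v => by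
      obtain ⟨a, b, rfl, -⟩ := Submodule.existsUnique_add_of_isCompl cp v
      simp [Submodule.projectionOnto_apply_of_mem_left cp.symm (g2 g b.2),
        (Submodule.projectionOnto_apply_eq_zero_iff cp.symm).2 (g1 g a.2)]
      rfl
    have ch : ∀ g, π.character g = (π.subrepresentation _ g1).character g +
        (π.subrepresentation _ g2).character g := fun g =>
      trace_ses (Submodule.subtype _) (Submodule.projectionOnto _ _ cp.symm)
        (Submodule.injective_subtype _) (Submodule.projectionOnto_surjective _) (by simp)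
        (fun _ => rfl) (pr g)
    have fr : Fr (π.subrepresentation _ g1) ∧ Fr (π.subrepresentation _ g2) := by
      rcases d with d | d
      · have := (eq _ g2 s2).fr d ((isUnit_iff_ker_eq_bot _).2 (ker_eq_bot'.2 fun v hv =>
          Subtype.ext (Submodule.disjoint_def.1 cp.disjoint _ (congrArg Subtype.val hv) v.2)))
        exact ⟨fun g hg => by simpa [this g hg, hf g hg] using (ch g).symm, this⟩
      · have := (eq _ g1 s1).fr (r := R - C (eval 0 R)) (by simp) ((isUnit_iff_ker_eq_bot _).2
          (ker_eq_bot'.2 fun v hv => by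
            simpa [show ψ R v = 0 from v.2, d, Algebra.algebraMap_eq_smul_one, -eval_zero] using
              congrArg Subtype.val hv))
        exact ⟨this, fun g hg => by simpa [this g hg, hf g hg] using (ch g).symm⟩
    have sub : ∀ p g s (t : ∀ j, ∀ m ∈ Submodule.comap i p, T j m ∈ Submodule.comap i p), p ≠ ⊤ →
        Fr (π.subrepresentation p g) →
        Sm ((T 0).restrict (t 0)) ((T 1).restrict (t 1)) ((T 2).restrict (t 2)) :=
      fun p g s t a b => ih _ (Submodule.finrank_lt a) p _ _ rfl (eq p g s) b _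
        (i.restrict (p := p.comap i) (q := p) fun _ h => h)
        (fun a b e => Subtype.ext (hi (congrArg Subtype.val e)))
        (le_antisymm (by rintro _ ⟨m, rfl⟩ g; exact Subtype.ext (iv g m)) fun v hv => by
          obtain ⟨m, hm⟩ := hr.ge (show v.1 ∈ π.invariants from fun g => congrArg Subtype.val (hv g))
          exact ⟨⟨m, by simpa [hm] using v.2⟩, Subtype.ext hm⟩) x (fun j => (T j).restrict (t j)) hx
        fun j m => Subtype.ext (hT j m)
    have t : ∀ p : Submodule k V, (∀ f, ∀ v ∈ p, ψ f v ∈ p) → ∀ j, ∀ m ∈ Submodule.comap i p,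
        T j m ∈ Submodule.comap i p := fun p s j m hm => by
      rw [Submodule.mem_comap, hT]
      exact s _ _ hm
    refine .sum ⟨Submodule.disjoint_def.2 fun m a b => hi ?_, codisjoint_iff.2
      (Submodule.eq_top_iff'.2 fun m => ?_)⟩ _ _ _ _ _ _ (sub _ g1 s1 (t _ s1) a fr.1)
      (sub _ g2 s2 (t _ s2) b fr.2)
    · rw [Submodule.disjoint_def.1 cp.disjoint _ a b, map_zero]
    · obtain ⟨m', hm⟩ := hr.ge (show (Submodule.projectionOnto _ _ cp.symm (i m)).1 ∈ π.invariants
        from fun g => by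
          have := pr g (i m)
          rw [iv] at this
          exact (congrArg Subtype.val this).symm)
      refine Submodule.mem_sup.2 ⟨m - m', ?_, m', ?_, by simp⟩
      · rw [Submodule.mem_comap, map_sub, hm]
        exact Submodule.sub_projection_mem cp.symm _
      · rw [Submodule.mem_comap, hm]
        exact Subtype.prop _
  obtain ⟨r, hl⟩ := i.exists_leftInverse_of_injective (ker_eq_bot.2 hi)
  replace hl : ∀ v, r (i v) = v := fun v => congr($hl v)
  let Φ : Fin 3 → (linHom κ.U (linHom π π)).invariants → End k M := fun j q =>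
    (llcomp k _ _ _ r ∘ₗ lcomp k _ i) (ev (q.1 (Pi.single 0 1)) (q.1 (Pi.single 1 1)) (x j))
  have P : ∀ j, IsP k (Φ j) := fun j => .lin _ (ev_isP
    (IsP.id.lin (applyₗ (Pi.single 0 1) ∘ₗ Submodule.subtype _))
    (IsP.id.lin (applyₗ (Pi.single 1 1) ∘ₗ Submodule.subtype _)) _)
  let p : (linHom κ.U (linHom π π)).invariants := ⟨ψ.toLinearMap ∘ₗ lin, mem_E.2 fun g a =>
    LinearMap.ext fun v => by simpa [act_lin] using h g (lin a) v⟩
  have e : ∀ j, T j = Φ j p := fun j => LinearMap.ext fun m => by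
    simp [Φ, p, lin_single, ev_eq, ← hT, hl]
  rw [e, e, e]
  refine ((P 0).mk ((P 1).mk (P 2))).map_cl (fun q hq => ?_)
    (hf.dens (p := p) (by simpa [p] using cm ψ _ _))
  obtain ⟨c, nn⟩ := hq
  have eq : κ.Eqv π (mk c) := fun g f => by
    have l : ∀ a, mk c (lin a) = q.1 a := fun a => by
      conv_rhs => rw [pi_eq_sum_univ' a]
      simp [lin, Fintype.linearCombination_apply, mk_X0, mk_X1]
    induction f using MvPolynomial.induction_on with
    | C c => simp [Algebra.algebraMap_eq_smul_one]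
    | add p q a b => simp [a, b]
    | mul_X f j a =>
      intro v
      rw [map_mul, map_mul, map_mul, End.mul_apply, End.mul_apply, a, ← lin_single, act_lin, l, l]
      exact congrArg _ congr($(mem_E.1 q.2 g _) v)
  refine key (mk c) (fun j => Φ j q) eq (fun j m => ?_) (by rwa [mk_X0, mk_X1])
  obtain ⟨m', hm⟩ := hr.ge (show mk c (x j) (i m) ∈ π.invariants from fun g => by
    rw [eq, hx j, iv])
  simp [Φ, ← mk_apply c, ← hm, hl]

end Pool.Agent.Lib.MP_02ae3d_ag.H88
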