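import Pool.Agent.Lib.MP_02ae3d_ag.Zar

set_option autoImplicit false
set_option maxHeartbeats 400000
set_option linter.unusedSectionVars false

namespace Pool.Agent.Lib.MP_02ae3d_ag
open Polynomial Module LinearMap
open Filter (cofinite)

variable {k : Type} [Field k] {V : Type} [AddCommGroup V] [Module k V] [FiniteDimensional k V]

abbrev T3 (k V : Type) [Field k] [AddCommGroup V] [Module k V] := End k V × End k V × End k V

/-- common eigenvectors -/
def Ev (T : T3 k V) : Set V :=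
  {v | (∃ a : k, T.1 v = a • v) ∧ (∃ a : k, T.2.1 v = a • v) ∧ ∃ a : k, T.2.2 v = a • v}

def Dg (k V : Type) [Field k] [AddCommGroup V] [Module k V] : Set (T3 k V) :=
  {T | Submodule.span k (Ev T) = ⊤}

/-- limits of simultaneously diagonalisable triples -/
def Sm (X Y Z : End k V) : Prop := (X, Y, Z) ∈ cl k (Dg k V)

/-- polynomial expressions in a triple -/
@[fun_prop] def Ex (Φ : T3 k V → End k V) : Prop :=
  IsP k Φ ∧ ∀ T, ∀ v ∈ Ev T, ∃ a : k, Φ T v = a • v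

section
variable {Φ Ψ Θ : T3 k V → End k V} {X Y Z : End k V}

theorem Sm.map (h : Sm X Y Z) (h1 : Ex Φ) (h2 : Ex Ψ) (h3 : Ex Θ) :
    Sm (Φ (X, Y, Z)) (Ψ (X, Y, Z)) (Θ (X, Y, Z)) :=
  (h1.1.mk (h2.1.mk h3.1)).map_cl (fun T hT => subset_cl (top_unique (hT.ge.trans
    (Submodule.span_mono fun v hv => And.intro (h1.2 T v hv) ⟨h2.2 T v hv, h3.2 T v hv⟩)))) h

@[fun_prop] theorem Ex.x : Ex fun T : T3 k V => T.1 := ⟨by fun_prop, fun _ _ h => h.1⟩
@[fun_prop] theorem Ex.y : Ex fun T : T3 k V => T.2.1 := ⟨by fun_prop, fun _ _ h => h.2.1⟩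
@[fun_prop] theorem Ex.z : Ex fun T : T3 k V => T.2.2 := ⟨by fun_prop, fun _ _ h => h.2.2⟩
@[fun_prop] theorem Ex.one : Ex fun _ : T3 k V => 1 := ⟨by fun_prop, fun _ _ _ => ⟨1, by simp⟩⟩

@[fun_prop] theorem Ex.smul (c : k) (h : Ex Φ) : Ex fun T => c • Φ T :=
  ⟨(IsP.const c).smul h.1, fun T v hv => by
    obtain ⟨a, e⟩ := h.2 T v hv
    exact ⟨c * a, by simp [e, smul_smul]⟩⟩

@[fun_prop] theorem Ex.add (h : Ex Φ) (h' : Ex Ψ) : Ex fun T => Φ T + Ψ T :=
  ⟨h.1.add h'.1, fun T v hv => by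
    obtain ⟨a, e⟩ := h.2 T v hv
    obtain ⟨b, e'⟩ := h'.2 T v hv
    exact ⟨a + b, by simp [e, e', add_smul]⟩⟩

@[fun_prop] theorem Ex.mul (h : Ex Φ) (h' : Ex Ψ) : Ex fun T => Φ T * Ψ T :=
  ⟨h.1.mul h'.1, fun T v hv => by
    obtain ⟨a, e⟩ := h.2 T v hv
    obtain ⟨b, e'⟩ := h'.2 T v hv
    exact ⟨b * a, by simp [e, e', smul_smul]⟩⟩

theorem Ex.aeval (h : Ex Φ) (p : k[X]) : Ex fun T => aeval (Φ T) p := by
  induction p using Polynomial.induction_on with
  | C c => simpa [Algebra.algebraMap_eq_smul_one] using Ex.one.smul c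
  | add p q a b => simpa using a.add b
  | monomial n c a => simpa [pow_succ, ← mul_assoc] using a.mul h

theorem Sm.shift (a b c : k) (h : Sm (X - a • 1) (Y - b • 1) (Z - c • 1)) : Sm X Y Z := by
  simpa using h.map (Ex.x.add (Ex.one.smul a)) (Ex.y.add (Ex.one.smul b)) (Ex.z.add (Ex.one.smul c))

theorem Sm.swap (h : Sm X Y Z) : Sm X Z Y := h.map .x .z .y

theorem Sm.sum {p q : Submodule k V} (h : IsCompl p q) (x1 : ∀ v ∈ p, X v ∈ p)
    (y1 : ∀ v ∈ p, Y v ∈ p) (z1 : ∀ v ∈ p, Z v ∈ p) (x2 : ∀ v ∈ q, X v ∈ q)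
    (y2 : ∀ v ∈ q, Y v ∈ q) (z2 : ∀ v ∈ q, Z v ∈ q)
    (h1 : Sm (X.restrict x1) (Y.restrict y1) (Z.restrict z1))
    (h2 : Sm (X.restrict x2) (Y.restrict y2) (Z.restrict z2)) : Sm X Y Z := by
  obtain ⟨L, l1, l2⟩ : ∃ L : End k p × End k q →ₗ[k] End k V,
      (∀ A B (v : p), L (A, B) v = A v) ∧ ∀ A B (v : q), L (A, B) v = B v :=
    ⟨(p.prodEquivOfIsCompl q h).conj.toLinearMap ∘ₗ prodMapLinear k p q p q k, by
      simp [LinearEquiv.conj_apply, Submodule.coe_prodEquivOfIsCompl']⟩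
  have l3 : ∀ (A : End k V) a1 a2, A = L (A.restrict a1, A.restrict a2) := fun A a1 a2 =>
    LinearMap.ext fun v => by
      obtain ⟨a, b, rfl, -⟩ := Submodule.existsUnique_add_of_isCompl h v
      rw [map_add, map_add, l1, l2]
      rfl
  let F : T3 k p → T3 k q → T3 k V := fun A B =>
    (L (A.1, B.1), L (A.2.1, B.2.1), L (A.2.2, B.2.2))
  rw [Sm, l3 X x1 x2, l3 Y y1 y2, l3 Z z1 z2]
  refine IsP.map_cl (Φ := F (_, _, _)) (by fun_prop) (fun B hB => IsP.map_cl (Φ := (F · B))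
    (by fun_prop) (fun A hA => subset_cl (top_unique ?_)) h1) h2
  rw [← h.sup_eq_top, ← p.map_subtype_top, ← q.map_subtype_top, ← show _ = ⊤ from hA,
    ← show _ = ⊤ from hB, Submodule.map_span, Submodule.map_span]
  refine sup_le (Submodule.span_mono ?_) (Submodule.span_mono ?_) <;>
    rintro _ ⟨v, ⟨⟨a, a1⟩, ⟨b, b1⟩, c, c1⟩, rfl⟩ <;>
    exact ⟨⟨a, by simp [F, *]⟩, ⟨b, by simp [F, *]⟩, c, by simp [F, *]⟩

theorem Sm.small (h : finrank k V ≤ 1) : Sm X Y Z := by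
  have : ∀ (A : End k V) v, ∃ a : k, A v = a • v := fun A v => by
    obtain ⟨w, hw⟩ := finrank_le_one_iff.1 h
    obtain ⟨a, rfl⟩ := hw v
    obtain ⟨b, e⟩ := hw (A w)
    exact ⟨b, by rw [map_smul, ← e, smul_comm]⟩
  exact subset_cl (top_unique fun v _ => Submodule.subset_span ⟨this _ v, this _ v, this _ v⟩)

theorem Sm.curve [Infinite k] {X Y Z : k → End k V} (x : IsP k X) (y : IsP k Y) (z : IsP k Z)
    (h : ∀ᶠ t in cofinite, Sm (X t) (Y t) (Z t)) : Sm (X 0) (Y 0) (Z 0) :=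
  (x.mk (y.mk z)).curve (Set.infinite_of_finite_compl h)

end

theorem IsP.cof {f : k → k} (h : IsP k f) {a : k} (e : f a ≠ 0) : ∀ᶠ t in cofinite, f t ≠ 0 := by
  by_contra hh
  exact e (h.zero (fun b => hh (b.subset fun _ => not_not.1)) a)

/-- neither nilpotent nor invertible -/
def Two (A : End k V) : Prop := ¬ IsNilpotent A ∧ ¬ IsUnit A

noncomputable def phi (A : End k V) : k := finrank k V * trace k V (A * A) - trace k V A ^ 2

theorem phi_nil {A : End k V} (h : IsNilpotent A) : phi A = 0 := by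
  simp [phi, (isNilpotent_trace_of_isNilpotent h).eq_zero,
    (isNilpotent_trace_of_isNilpotent ((Commute.refl A).isNilpotent_mul_left h)).eq_zero]

theorem phi_two [IsAlgClosed k] {A : End k V} (h : phi A ≠ 0) : ∃ c : k, Two (A - c • 1) := by
  rcases subsingleton_or_nontrivial V with _ | _
  · exact absurd (phi_nil (Subsingleton.elim A 0 ▸ .zero)) h
  obtain ⟨c, v, hv⟩ := (End.exists_eigenvalue A).imp fun _ h => h.exists_hasEigenvector
  refine ⟨c, fun a => h ?_, fun a => hv.2 ?_⟩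
  · rw [← phi_nil a]
    simp [phi, mul_sub, sub_mul]
    ring
  · simpa [hv.apply_eq_smul] using (ker_eq_bot'.1 ((isUnit_iff_ker_eq_bot _).1 a)) v

theorem phi_line [CharZero k] (A : End k V) {e : End k V} (h : IsIdempotentElem e) (h0 : e ≠ 0)
    (h1 : e ≠ 1) : ∀ᶠ t : k in cofinite, phi (A + t • e) ≠ 0 := by
  have p : IsP k fun t : k => phi (A + t • e) := by
    simp only [phi, sq]
    fun_prop
  by_contra hh
  have z := fun t => by_contra fun a : phi (A + t • e) ≠ 0 => hh (p.cof a)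
  have a : phi e = 0 := by
    have := z 0
    have := z 1
    have := z (-1)
    simp only [phi, mul_add, add_mul, smul_mul_assoc, mul_smul_comm, map_add, map_smul,
      smul_eq_mul] at *
    grind
  rw [phi, h.eq, (IsIdempotentElem.isProj_range e h).trace, sq, ← sub_mul, mul_eq_zero,
    sub_eq_zero, Nat.cast_inj, Nat.cast_eq_zero, Submodule.finrank_eq_zero, range_eq_bot] at a
  refine h1 (LinearMap.ext fun v => ?_)
  obtain ⟨w, rfl⟩ := range_eq_top.1 (Submodule.eq_top_of_finrank_eq (a.resolve_right h0).symm) v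
  exact congr($h.eq w)

theorem Two.fit {A : End k V} (h : Two A) : ∃ n, IsCompl (ker (A ^ (n + 1))) (range (A ^ (n + 1))) ∧
    ker (A ^ (n + 1)) ≠ ⊤ ∧ range (A ^ (n + 1)) ≠ ⊤ := by
  obtain ⟨n, e⟩ := Filter.eventually_atTop.1 (eventually_isCompl_ker_pow_range_pow A)
  exact ⟨n, e _ n.le_succ, fun a => h.1 ⟨_, ker_eq_top.1 a⟩, fun a =>
    h.2 ((isUnit_pow_succ_iff).1 ((isUnit_iff_range_eq_top _).2 a))⟩

theorem comm_ker {A B : End k V} (h : Commute A B) : ∀ v ∈ ker A, B v ∈ ker A := fun v hv => by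
  rw [mem_ker, ← End.mul_apply, h.eq, End.mul_apply, mem_ker.1 hv, map_zero]

theorem comm_range {A B : End k V} (h : Commute A B) : ∀ v ∈ range A, B v ∈ range A := by
  rintro _ ⟨v, rfl⟩
  exact ⟨B v, congr($h.eq v)⟩

theorem Two.idem {A : End k V} (h : Two A) : ∃ e : End k V, IsIdempotentElem e ∧ e ≠ 0 ∧ e ≠ 1 ∧
    ∀ B, Commute A B → Commute e B := by
  obtain ⟨n, a, b, c⟩ := h.fit
  have i := Submodule.isIdempotentElem_projection a
  refine ⟨_, i, fun e => c ?_, fun e => b ?_, fun B hB => (IsIdempotentElem.commute_iff i).2 ?_⟩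
  · rw [← Submodule.ker_projection a, e, ker_zero]
  · rw [← Submodule.range_projection a, e, End.one_eq_id, range_id]
  · rw [Submodule.ker_projection, Submodule.range_projection]
    exact ⟨comm_ker (hB.pow_left _), comm_range (hB.pow_left _)⟩

end Pool.Agent.Lib.MP_02ae3d_ag
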