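import Pool.Agent.Lib.MP_02ae3d_ag.H88Dim
import Pool.Agent.Lib.MP_02ae3d_ag.Sm

set_option autoImplicit false
set_option linter.unusedSectionVars false

namespace Pool.Agent.Lib.MP_02ae3d_ag.H88
open Matrix

variable {k K : Type} [Field k] [Field K] [Algebra k K]

section
variable {m : Type} [Fintype m] [DecidableEq m] (D : Derivation k K K)

theorem d_mul (x y : Matrix m m K) : (x * y).map D = x.map D * y + x * y.map D := by
  ext i j
  simp [Matrix.mul_apply, Finset.sum_add_distrib, add_comm, mul_comm]

theorem d_tr (x : Matrix m m K) : D x.trace = (x.map D).trace := by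
  simp [trace]

theorem d_conj {x y g h : Matrix m m K} (c : x * y = y * x) (e : g * h = 1) (e' : h * g = 1) :
    ((h * x * g).map D * (h * y * g)).trace = (x.map D * y).trace := by
  have a : h.map D * g + h * g.map D = 0 := by
    rw [← d_mul, e']
    ext i j
    by_cases b : i = j <;> simp [one_apply, b]
  have gh : ∀ z : Matrix m m K, g * (h * z) = z := fun z => by rw [← mul_assoc, e, one_mul]
  have b1 : (h * x.map D * g * (h * y * g)).trace = (x.map D * y).trace := by
    rw [← mul_assoc, trace_mul_comm]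
    simp only [mul_assoc, gh]
  have b2 : (h * x * g.map D * (h * y * g)).trace = (h * g.map D * (h * (y * x) * g)).trace := by
    rw [← mul_assoc, trace_mul_comm, ← mul_assoc (h * g.map D), trace_mul_comm _ g]
    simp only [mul_assoc, gh]
    rw [trace_mul_comm]
    simp only [mul_assoc]
  rw [d_mul, d_mul, add_mul, add_mul, add_mul, trace_add, trace_add, b1, b2, add_right_comm,
    ← c, show h.map D * x * g * (h * y * g) = h.map D * g * (h * (x * y) * g) by
      simp only [mul_assoc, gh], ← trace_add, ← add_mul, a, zero_mul, trace_zero, zero_add]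

end

theorem comm_vec {V : Type} [AddCommGroup V] [Module K V] [Nontrivial V] {x y : Module.End K V}
    (hx : IsNilpotent x) (hy : IsNilpotent y) (c : Commute x y) :
    ∃ w, w ≠ 0 ∧ x w = 0 ∧ y w = 0 := by
  have key : ∀ (z : Module.End K V) (n : ℕ) (w : V), w ≠ 0 → (z ^ n) w = 0 →
      ∃ j, (z ^ j) w ≠ 0 ∧ z ((z ^ j) w) = 0 := fun z n w h0 h => by
    induction n with
    | zero => exact absurd h h0
    | succ n ih =>
      by_cases a : (z ^ n) w = 0
      · exact ih a
      · exact ⟨n, a, by rwa [pow_succ'] at h⟩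
  obtain ⟨v, hv⟩ := exists_ne (0 : V)
  obtain ⟨n, hn⟩ := hx
  obtain ⟨n', hn'⟩ := hy
  obtain ⟨i, a, b⟩ := key x n v hv (by simp [hn])
  obtain ⟨j, a', b'⟩ := key y n' _ a (by simp [hn'])
  refine ⟨_, a', ?_, b'⟩
  rw [← Module.End.mul_apply, (c.pow_right j).eq, Module.End.mul_apply, b, map_zero]

theorem theta (D : Derivation k K K) (n : ℕ) (x y : Matrix (Fin n) (Fin n) K) (hx : IsNilpotent x)
    (hy : IsNilpotent y) (c : x * y = y * x) : (x.map D * y).trace = 0 := by
  induction n with
  | zero => simp
  | succ n ih =>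
    obtain ⟨w, w0, wx, wy⟩ := comm_vec (hx.map toLinAlgEquiv') (hy.map toLinAlgEquiv')
      (Commute.map c toLinAlgEquiv')
    obtain ⟨i, hi⟩ := Function.ne_iff.1 w0
    let g := (1 : Matrix (Fin (n + 1)) (Fin (n + 1)) K).updateCol i w
    have dg : IsUnit g.det := by
      have := cramer_apply (1 : Matrix (Fin (n + 1)) (Fin (n + 1)) K) w i
      rw [cramer_one] at this
      exact this ▸ (isUnit_iff_ne_zero.2 hi : IsUnit (w i))
    have e := mul_nonsing_inv g dg
    have e' := nonsing_inv_mul g dg
    have gh : ∀ z, g * (g⁻¹ * z) = z := fun z => by rw [← mul_assoc, e, one_mul]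
    have col : ∀ z : Matrix (Fin (n + 1)) (Fin (n + 1)) K, z.mulVec w = 0 →
        ∀ a, (g⁻¹ * z * g) a i = 0 := fun z hz a => by
      have : ∀ b, (z * g) b i = 0 := fun b => by
        simpa [g, Matrix.mul_apply, mulVec, dotProduct] using congrFun hz b
      simp [mul_assoc, Matrix.mul_apply (M := g⁻¹), this]
    have sub : ∀ a b : Matrix (Fin (n + 1)) (Fin (n + 1)) K, (∀ j, a j i = 0) →
        (a * b).submatrix i.succAbove i.succAbove =
          a.submatrix i.succAbove i.succAbove * b.submatrix i.succAbove i.succAbove :=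
      fun a b ha => by
        ext j l
        simp [Matrix.mul_apply, Fin.sum_univ_succAbove _ i, ha]
    have nil : ∀ z : Matrix (Fin (n + 1)) (Fin (n + 1)) K, IsNilpotent z → z.mulVec w = 0 →
        IsNilpotent ((g⁻¹ * z * g).submatrix i.succAbove i.succAbove) := fun z ⟨N, hN⟩ hz => by
      have : ∀ N, ((g⁻¹ * z * g).submatrix i.succAbove i.succAbove) ^ N =
          (g⁻¹ * z ^ N * g).submatrix i.succAbove i.succAbove := fun N => by
        induction N with
        | zero => simp [e', submatrix_one _ Fin.succAbove_right_injective]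
        | succ N ih =>
          rw [pow_succ', ih, ← sub _ _ (col z hz), pow_succ']
          simp only [mul_assoc, gh]
      exact ⟨N, by simp [this, hN]⟩
    rw [← d_conj D c e e', ← ih _ _ (nil x hx wx) (nil y hy wy) (by
      rw [← sub _ _ (col x wx), ← sub _ _ (col y wy)]
      simp only [mul_assoc, gh]
      rw [← mul_assoc x, c, mul_assoc]), ← submatrix_map,
      ← sub _ _ fun j => by simp [col x wx], trace, Fin.sum_univ_succAbove _ i]
    simp [trace, Matrix.mul_apply (N := g⁻¹ * y * g), col y wy]

theorem omega (D E : Derivation k K K) {n : ℕ} {x y : Matrix (Fin n) (Fin n) K}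
    (hx : IsNilpotent x) (hy : IsNilpotent y) (c : x * y = y * x) :
    (x.map D * y.map E).trace = (x.map E * y.map D).trace := by
  have a := congrArg D (theta E n x y hx hy c)
  have b := congrArg E (theta D n x y hx hy c)
  have d := theta ⁅D, E⁆ n x y hx hy c
  rw [d_tr, d_mul, trace_add, map_zero] at a b
  rw [show x.map (⁅D, E⁆ : Derivation k K K) = (x.map E).map D - (x.map D).map E by
    ext; simp [Derivation.commutator_apply], sub_mul, trace_sub] at d
  linear_combination b - a + d

theorem pol_eval {n : ℕ} {f : (Fin n → k) → k} (h : f ∈ Pol k (Fin n → k)) :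
    ∃ F : MvPolynomial (Fin n) k, ∀ q, f q = MvPolynomial.eval q F := by
  induction h using Algebra.adjoin_induction with
  | mem f hf =>
    obtain ⟨φ, rfl⟩ := hf
    exact ⟨∑ i, .X i * .C (φ fun j => if i = j then 1 else 0), fun q => by
      simp [LinearMap.pi_apply_eq_sum_univ φ q]⟩
  | algebraMap c => exact ⟨.C c, by simp⟩
  | add f g _ _ a b => obtain ⟨p, a⟩ := a; obtain ⟨q, b⟩ := b; exact ⟨p + q, by simp [a, b]⟩
  | mul f g _ _ a b => obtain ⟨p, a⟩ := a; obtain ⟨q, b⟩ := b; exact ⟨p * q, by simp [a, b]⟩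

section
variable {m n : ℕ} {A : Type} [CommRing A] [Algebra k A]

/-- a point of a space of matrices, with coordinates in an algebra -/
noncomputable def pt (e : Fin n → Matrix (Fin m) (Fin m) k) (t : Fin n → A) :
    Matrix (Fin m) (Fin m) A := ∑ i, t i • (e i).map (algebraMap k A)

theorem pt_map (e : Fin n → Matrix (Fin m) (Fin m) k) (t : Fin n → A) (N : ℕ) (a b : Fin m) :
    MvPolynomial.aeval t ((pt e (MvPolynomial.X : _ → MvPolynomial (Fin n) k) ^ N) a b) =
      (pt e t ^ N) a b := by
  have : (MvPolynomial.aeval (R := k) t).mapMatrix (pt e MvPolynomial.X) = pt e t := by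
    ext a b
    simp [pt, Matrix.sum_apply]
  rw [← this, ← map_pow]
  rfl

theorem pt_der (e : Fin n → Matrix (Fin m) (Fin m) k) (t : Fin n → K) (D : Derivation k K K) :
    (pt e t).map D = pt e fun i => D (t i) := by
  ext a b
  simp [pt, Matrix.sum_apply, mul_comm]

theorem pt_mul (e e' : Fin n → Matrix (Fin m) (Fin m) k) (t t' : Fin n → A) :
    pt e t * pt e' t' = ∑ i, ∑ j, (t i * t' j) • (e i * e' j).map (algebraMap k A) := by
  simp only [pt, Finset.sum_mul_sum, Matrix.map_mul, smul_mul_smul_comm]

end

theorem dens_mat [IsAlgClosed k] [CharZero k] {m : ℕ} {E : Type} [AddCommGroup E] [Module k E]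
    [FiniteDimensional k E] (u v : E →ₗ[k] Matrix (Fin m) (Fin m) k)
    (L : Submodule k (Matrix (Fin m) (Fin m) k))
    (h1 : ∀ p q, u p * v q - v q * u p + (u q * v p - v p * u q) ∈ L)
    (h2 : ∀ p, (∀ q, (u p * v q).trace = (u q * v p).trace) → p = 0)
    (h3 : 2 * Module.finrank k L < Module.finrank k E) {p}
    (c : u p * v p = v p * u p) : p ∈ cl k {q | u q * v q = v q * u q ∧
      ¬ (IsNilpotent (u q) ∧ IsNilpotent (v q))} := by
  classical
  let b := Module.finBasis k E
  let l := Module.finBasis k L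
  set n := Module.finrank k E
  set s := Module.finrank k L
  let e1 : Fin n → Matrix (Fin m) (Fin m) k := fun i => u (b i)
  let e2 : Fin n → Matrix (Fin m) (Fin m) k := fun i => v (b i)
  let β : Fin n → Fin n → L := fun i j => ⟨_, h1 (b i) (b j)⟩
  let f : Fin s → MvPolynomial (Fin n) k := fun a =>
    ∑ i, ∑ j, .X i * .X j * .C (l.repr (β i j) a)
  have key : ∀ (K : Type) [Field K] [Algebra k K] (t : Fin n → K),
      ∑ a, MvPolynomial.aeval t (f a) • (l a).1.map (algebraMap k K) =
        (2 : K) • (pt e1 t * pt e2 t - pt e2 t * pt e1 t) := fun K _ _ t => by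
    have h : ∀ i j, ∑ a, algebraMap k K (l.repr (β i j) a) • (l a).1.map (algebraMap k K) =
        (e1 i * e2 j).map (algebraMap k K) - (e2 j * e1 i).map (algebraMap k K) +
        ((e1 j * e2 i).map (algebraMap k K) - (e2 i * e1 j).map (algebraMap k K)) := fun i j => by
      have := congrArg (fun z : L => (Algebra.ofId k K).mapMatrix z.1) (l.sum_repr (β i j))
      simp only [β, map_add, map_sub, Submodule.coe_sum, map_sum, Submodule.coe_smul, map_smul,
        algebraMap_smul] at this ⊢
      exact this
    simp only [f, map_sum, map_mul, MvPolynomial.aeval_X, MvPolynomial.aeval_C, Finset.sum_smul,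
      mul_smul (_ * _)]
    rw [Finset.sum_comm]
    simp only [Finset.sum_comm (s := (Finset.univ : Finset (Fin s))), ← Finset.smul_sum, h,
      smul_add, smul_sub, Finset.sum_add_distrib, Finset.sum_sub_distrib, pt_mul, two_smul]
    rw [Finset.sum_comm (f := fun i j => (t i * t j) • (e2 j * e1 i).map (algebraMap k K)),
      Finset.sum_comm (f := fun i j => (t i * t j) • (e1 j * e2 i).map (algebraMap k K))]
    simp only [mul_comm (t _) (t _)]
    abel
  let γ := b.equivFun.symm
  have g1 : ∀ t, u (γ t) = pt e1 t := fun t => by simp [γ, pt, e1]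
  have g2 : ∀ t, v (γ t) = pt e2 t := fun t => by simp [γ, pt, e2]
  have g3 : ∀ t, u (γ t) * v (γ t) = v (γ t) * u (γ t) ↔ ∀ a, MvPolynomial.eval t (f a) = 0 :=
    fun t => by
      have := key k t
      rw [g1, g2, ← sub_eq_zero, ← smul_eq_zero_iff_right (two_ne_zero' k), ← this]
      refine ⟨fun h => Fintype.linearIndependent_iff.1 l.linearIndependent _ (Subtype.ext ?_),
        fun h => by simp [MvPolynomial.coe_aeval_eq_eval, h]⟩
      simpa [MvPolynomial.coe_aeval_eq_eval] using h
  let Ω : Matrix (Fin n) (Fin n) k := of fun i j => (e1 i * e2 j).trace - (e1 j * e2 i).trace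
  have hΩ : Ω.det ≠ 0 := fun h => by
    obtain ⟨y, v0, hv⟩ := exists_vecMul_eq_zero_iff.2 h
    refine v0 (γ.injective ((h2 (γ y) fun q => ?_).trans (by simp)))
    obtain ⟨w, rfl⟩ := γ.surjective q
    have := congrArg (· ⬝ᵥ w) hv
    simp only [Ω, of_apply, vecMul, dotProduct, Pi.zero_apply, zero_mul, Finset.sum_const_zero, mul_sub,
      sub_mul, Finset.sum_mul, Finset.sum_sub_distrib, sub_eq_zero] at this
    simp only [g1, g2, pt_mul, trace_sum, trace_smul, smul_eq_mul]
    rw [Finset.sum_comm]
    simpa [mul_comm, mul_left_comm, mul_assoc] using this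
  intro φ hφ z
  obtain ⟨F, hF⟩ := pol_eval ((IsP.id.lin γ.toLinearMap).mem hφ)
  obtain ⟨t, rfl⟩ := γ.surjective p
  refine (hF t).trans ?_
  refine dens f (κ := Bool × Fin m × Fin m) (fun x =>
    (pt (if x.1 then e1 else e2) MvPolynomial.X ^ m) x.2.1 x.2.2) (fun K _ _ t a a' r j D hD => ?_)
    ((g3 t).1 c) fun q a ⟨x, hx⟩ => ?_
  · have : CharZero K := charZero_of_injective_algebraMap (algebraMap k K).injective
    have c := key K t
    simp only [a, zero_smul, Finset.sum_const_zero] at c
    rw [eq_comm, smul_eq_zero_iff_right (two_ne_zero' K), sub_eq_zero] at c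
    have n1 : IsNilpotent (pt e1 t) := ⟨m, ext fun i j => (pt_map ..).symm.trans (a' (true, i, j))⟩
    have n2 : IsNilpotent (pt e2 t) := ⟨m, ext fun i j => (pt_map ..).symm.trans (a' (false, i, j))⟩
    let A : Matrix (Fin r) (Fin n) K := of fun a i => D a (t i)
    have z : A * (Ω.map (algebraMap k K) * Aᵀ) = 0 := ext fun a a' => by
      have := omega (D a) (D a') n1 n2 c
      simp only [pt_der, pt_mul, trace_sum, trace_smul, smul_eq_mul,
        ← AddMonoidHom.map_trace (algebraMap k K)] at this
      simp only [Matrix.mul_apply, A, Ω, of_apply, map_apply, transpose_apply, map_sub, sub_mul, mul_sub,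
        Finset.mul_sum, Finset.sum_sub_distrib, Matrix.zero_apply, sub_eq_zero]
      rw [Finset.sum_comm (f := fun i j => D a (t i) * (algebraMap k K (e1 j * e2 i).trace * _))]
      simpa [mul_comm, mul_left_comm, mul_assoc] using this
    have r1 := rank_add_rank_le_card_of_mul_eq_zero z
    rw [rank_mul_eq_right_of_isUnit_det _ _ (by
      rw [← RingHom.mapMatrix_apply, ← RingHom.map_det]
      exact (isUnit_iff_ne_zero.2 hΩ).map _), rank_transpose, Fintype.card_fin] at r1
    have r2 := rank_mul_le_left A (of fun i b => if i = j b then (1 : K) else 0)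
    rw [show A * (of fun i b => if i = j b then (1 : K) else 0) = 1 from ext fun a b => by
      simp [Matrix.mul_apply, A, hD, one_apply], rank_one, Fintype.card_fin] at r2
    omega
  · refine (hF q).symm.trans (z _ ⟨(g3 q).2 a, fun h => hx ?_⟩)
    have nil : ∀ y : Matrix (Fin m) (Fin m) k, IsNilpotent y → y ^ m = 0 := fun y hy => by
      have := aeval_self_charpoly y
      rwa [sub_eq_zero.1 (isNilpotent_charpoly_sub_pow_of_isNilpotent hy).eq_zero, map_pow,
        Polynomial.aeval_X, Fintype.card_fin] at this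
    rw [LinearEquiv.coe_coe, g1, g2] at h
    rw [← MvPolynomial.coe_aeval_eq_eval]
    refine (pt_map ..).trans ?_
    split_ifs
    · simp [nil _ h.1]
    · simp [nil _ h.2]

theorem dens_end [IsAlgClosed k] [CharZero k] {V E : Type} [AddCommGroup V] [Module k V]
    [FiniteDimensional k V] [AddCommGroup E] [Module k E]
    [FiniteDimensional k E] (u v : E →ₗ[k] Module.End k V) (L : Submodule k (Module.End k V))
    (h1 : ∀ p q, u p * v q - v q * u p + (u q * v p - v p * u q) ∈ L)
    (h2 : ∀ p, (∀ q, LinearMap.trace k V (u p * v q) = LinearMap.trace k V (u q * v p)) → p = 0)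
    (h3 : 2 * Module.finrank k L < Module.finrank k E) {p} (c : Commute (u p) (v p)) :
    p ∈ cl k {q | Commute (u q) (v q) ∧ ¬ (IsNilpotent (u q) ∧ IsNilpotent (v q))} := by
  let e := LinearMap.toMatrixAlgEquiv (Module.finBasis k V)
  have t : ∀ a, (e a).trace = LinearMap.trace k V a := fun a =>
    (LinearMap.trace_eq_matrix_trace k _ a).symm
  have := dens_mat (e.toLinearMap ∘ₗ u) (e.toLinearMap ∘ₗ v) (L.map e.toLinearMap)
    (fun p q => ⟨_, h1 p q, by simp⟩) (fun p h => h2 p fun q => by
      simpa [← map_mul, t] using h q) (by rwa [e.toLinearEquiv.finrank_map_eq]) (p := p)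
      (by simpa using congrArg e c.eq)
  convert this using 3 with q
  simp [← map_mul, commute_iff_eq, IsNilpotent.map_iff e.injective]

end Pool.Agent.Lib.MP_02ae3d_ag.H88
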