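import Pool.Agent.Lib.MP_02ae3d_ag.H88Pad

set_option autoImplicit false
set_option linter.unusedSectionVars false

namespace Pool.Agent.Lib.MP_02ae3d_ag.H88
open MvPolynomial Module LinearMap Matrix Representation

variable {k : Type} [Field k] [IsAlgClosed k] [CharZero k] {G : Type} [Group G] [Fintype G]
  (κ : Kl k G) {M : Type} [AddCommGroup M] [Module k M] [FiniteDimensional k M]

theorem Kl.fin : ∃ (n : ℕ) (s : Fin n → S k), ∀ f, ∃ r : Fin n → S k, (∀ j, κ.Inv (r j)) ∧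
    f = ∑ j, s j * r j := by
  letI : MulSemiringAction G (S k) :=
    { smul g f := act (κ.σ g) f
      one_smul := κ.a1
      mul_smul g h f := (κ.aa g h f).symm
      smul_zero _ := map_zero _
      smul_add _ := map_add _
      smul_one _ := map_one _
      smul_mul _ := map_mul _ }
  haveI : SMulCommClass G k (S k) := ⟨fun g => map_smul (act (κ.σ g))⟩
  let R := FixedPoints.subalgebra k (S k) G
  haveI : Algebra.IsInvariant R (S k) G := ⟨fun f h => ⟨⟨f, h⟩, rfl⟩⟩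
  have := Algebra.IsInvariant.isIntegral R (S k) G
  have := Algebra.FiniteType.of_restrictScalars_finiteType k R (S k)
  have : Module.Finite R (S k) := Algebra.IsIntegral.finite
  obtain ⟨n, s, hs⟩ := Module.Finite.exists_fin (R := R) (M := S k)
  refine ⟨n, s, fun f => ?_⟩
  obtain ⟨r, e⟩ := (Submodule.mem_span_range_iff_exists_fun _).1 (hs.ge (Submodule.mem_top (x := f)))
  exact ⟨fun j => r j, fun j => (r j).2, by simp [← e, Algebra.smul_def, mul_comm]⟩

/-- the averaging operator -/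
noncomputable def Kl.rey : S k →ₗ[k] S k := (Nat.card G : k)⁻¹ • ∑ g, (act (κ.σ g)).toLinearMap

theorem Kl.rey_inv (t : S k) : κ.Inv (κ.rey t) := fun g => by
  simpa [rey] using congrArg ((Nat.card G : k)⁻¹ • ·) (κ.inv_sum t g)

theorem Kl.rey_mul {r : S k} (h : κ.Inv r) (t : S k) : κ.rey (r * t) = r * κ.rey t := by
  simp [rey, h _, Finset.mul_sum]

theorem Kl.rey_one : κ.rey 1 = 1 := by
  simp [rey, ← Nat.cast_smul_eq_nsmul k, smul_smul]

theorem Kl.rey_act (g : G) (t : S k) : κ.rey (act (κ.σ g) t) = κ.rey t := by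
  simpa [rey, κ.aa] using congrArg ((Nat.card G : k)⁻¹ • ·)
    (Equiv.sum_comp (Equiv.mulRight g) fun h => act (κ.σ h) t)

theorem exP (ρ : S k →ₗ[k] End k M) (h1 : ρ 1 = 1)
    (hm : ∀ r s, κ.Inv r → κ.Inv s → ρ (r * s) = ρ r * ρ s) :
    ∃ (P : Type) (_ : AddCommGroup P) (_ : Module k P) (_ : FiniteDimensional k P)
      (π : Representation k G P) (ψ : S k →ₐ[k] End k P) (i : M →ₗ[k] P), κ.Eqv π ψ ∧
      Function.Injective i ∧ range i = π.invariants ∧
      (∀ r m, κ.Inv r → i (ρ r m) = ψ r (i m)) ∧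
      (∀ v, ψ (X 0) v = 0 → ψ (X 1) v = 0 → ∀ g, π g v = v) ∧
      ∀ g v, ∃ a b, π g v - v = ψ (X 0) a + ψ (X 1) b := by
  obtain ⟨n, s, hs⟩ := κ.fin
  let ψ : S k →ₐ[k] End k (S k →ₗ[k] M) := .ofLinearMap ((llcomp k _ _ M).flip ∘ₗ LinearMap.mul k _)
    (LinearMap.ext₂ (by simp)) fun _ _ => LinearMap.ext₂ (by simp [mul_left_comm, mul_assoc])
  let π : Representation k G (S k →ₗ[k] M) :=
    ⟨⟨fun g => lcomp k M (act (κ.σ g⁻¹)).toLinearMap, LinearMap.ext₂ (by simp [act_one])⟩,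
      fun _ _ => LinearMap.ext₂ (by simp [act_mul])⟩
  let i : M →ₗ[k] S k →ₗ[k] M := (ρ ∘ₗ κ.rey).flip
  have hψ : ∀ f φ t, ψ f φ t = φ (f * t) := fun _ _ _ => rfl
  have hπ : ∀ g φ t, π g φ t = φ (act (κ.σ g⁻¹) t) := fun _ _ _ => rfl
  have hi : ∀ m t, i m t = ρ (κ.rey t) m := fun _ _ => rfl
  clear_value ψ π i
  have eq : ∀ g f v, π g (ψ f v) = ψ (act (κ.σ g) f) (π g v) := fun g f v =>
    LinearMap.ext fun t => by simp [hψ, hπ, κ.aa, act_one]
  have iv : ∀ g m, π g (i m) = i m := fun g m => LinearMap.ext fun t => by rw [hπ, hi, hi, κ.rey_act]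
  have ir : ∀ r m, κ.Inv r → i (ρ r m) = ψ r (i m) := fun r m h => LinearMap.ext fun t => by
    rw [hψ, hi, hi, κ.rey_mul h, mul_comm, hm _ _ (κ.rey_inv t) h, End.mul_apply]
  let Φ : (Fin n → M) →ₗ[k] S k →ₗ[k] M := ∑ j, ψ (s j) ∘ₗ i ∘ₗ LinearMap.proj j
  have hΦ : ∀ m, Φ m = ∑ j, ψ (s j) (i (m j)) := fun m => by simp [Φ]
  have mem : ∀ f m, ψ f (i m) ∈ range Φ := fun f m => by
    obtain ⟨r, a, rfl⟩ := hs f
    exact ⟨fun j => ρ (r j) m, by simp [hΦ, ir _ _ (a _)]⟩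
  have s1 : ∀ f, ∀ v ∈ range Φ, ψ f v ∈ range Φ := by
    rintro f _ ⟨m, rfl⟩
    rw [hΦ, map_sum]
    exact sum_mem fun j _ => by simpa using mem (f * s j) _
  have s2 : ∀ g, range Φ ≤ (range Φ).comap (π g) := by
    rintro g _ ⟨m, rfl⟩
    rw [Submodule.mem_comap, hΦ, map_sum]
    exact sum_mem fun j _ => by rw [eq, iv]; exact mem ..
  have i1 : ∀ m, i m 1 = m := fun m => by simp [hi, κ.rey_one, h1]
  refine ⟨range Φ, _, _, inferInstance, π.subrepresentation _ s2, res ψ _ s1,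
    i.codRestrict _ fun m => by simpa using mem 1 m, fun g f v => Subtype.ext (eq g f v),
    fun a b e => ?_, le_antisymm ?_ ?_, fun r m h => Subtype.ext (ir r m h), fun v a b g => ?_, ?_⟩
  · simpa [i1] using congr(($e).1 1)
  · rintro _ ⟨m, rfl⟩ g
    exact Subtype.ext (iv g m)
  · rintro ⟨_, m, rfl⟩ h
    refine ⟨Φ m 1, Subtype.ext (LinearMap.ext fun t => ?_)⟩
    have a : ∀ g, Φ m (act (κ.σ g) t) = Φ m t := fun g => by
      simpa [hπ] using congr(($(h g⁻¹)).1 t)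
    have b : Φ m t = Φ m (κ.rey t) := by
      simp [Kl.rey, a, ← Nat.cast_smul_eq_nsmul k, smul_smul]
    change i _ t = Φ m t
    rw [b, hi, hΦ, LinearMap.sum_apply, LinearMap.sum_apply, map_sum]
    exact Finset.sum_congr rfl fun j _ => by
      rw [hψ, hψ, hi, hi, mul_one, mul_comm, κ.rey_mul (κ.rey_inv t),
        hm _ _ (κ.rey_inv t) (κ.rey_inv _), End.mul_apply]
  · have c : ∀ t, v.1 t = eval 0 t • v.1 1 := fun t => by
      obtain ⟨x, y, e⟩ := dec t
      rw [e, map_add, map_add, ← hψ (X 0), ← hψ (X 1), show ψ (X 0) v = 0 from congrArg Subtype.val a,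
        show ψ (X 1) v = 0 from congrArg Subtype.val b, ← e, ← map_smul]
      simp [smul_eq_C_mul]
    exact Subtype.ext (LinearMap.ext fun t => (hπ g v t).trans (by rw [c, c t, eval_act, zero_vecMul]))
  · rintro g ⟨_, m, rfl⟩
    choose a b e using fun j => dec (act (κ.σ g) (s j) - s j)
    refine ⟨∑ j, ⟨_, mem (a j) (m j)⟩, ∑ j, ⟨_, mem (b j) (m j)⟩, Subtype.ext ?_⟩
    change π g (Φ m) - Φ m = ψ _ _ + ψ _ _
    simp only [hΦ, map_sum, Submodule.coe_sum, ← Finset.sum_sub_distrib, ← Finset.sum_add_distrib]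
    refine Finset.sum_congr rfl fun j _ => ?_
    rw [eq, iv, ← LinearMap.sub_apply, ← map_sub, e]
    simp [eval_act, -eval_zero]

theorem klein (ρ : S k →ₗ[k] End k M) (h1 : ρ 1 = 1)
    (hm : ∀ r s, κ.Inv r → κ.Inv s → ρ (r * s) = ρ r * ρ s) (x : Fin 3 → S k)
    (hx : ∀ j, κ.Inv (x j)) : Sm (ρ (x 0)) (ρ (x 1)) (ρ (x 2)) := by
  obtain ⟨P, _, _, _, π, ψ, i, h, hi, hr, e, a, b⟩ := exP κ ρ h1 hm
  obtain ⟨C, _, _, _, τ, hC⟩ := koszul h a b
  let ψ' : S k →ₐ[k] End k (P × C) := (LinearMap.prodMapAlgHom ..).comp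
    (ψ.prod ((Algebra.ofId k _).comp (aeval 0)))
  have hψ : ∀ f v, ψ' f v = (ψ f v.1, eval 0 f • v.2) := fun _ _ => rfl
  have ch : (π.prod τ).character = N 1 π.character • reg :=
    (_root_.funext fun g => trace_prodMap' _ _).trans (add_eq_of_eq_sub' hC)
  have hj : Function.Injective (inl k P C ∘ₗ i) := inl_injective.comp hi
  classical
  refine main _ (P × C) (π.prod τ) ψ' rfl (fun g f v => ?_) (fun g hg => by simp [ch, reg, hg]) M
    _ hj ?_ x (fun j => ρ (x j)) hx fun j m => ?_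
  · simp [hψ, h g, eval_act, -eval_zero]
  · refine Submodule.eq_of_le_of_finrank_eq ?_ (Nat.cast_injective (R := k) ?_)
    · rintro _ ⟨m, rfl⟩ g
      simpa using hr.le ⟨m, rfl⟩ g
    · rw [← card_inv_mul_sum_char_eq_finrank, ch, finrank_range_of_inj hj,
        ← finrank_range_of_inj hi, hr, ← card_inv_mul_sum_char_eq_finrank]
      simp [reg, N_eq isCh_one (isCh π), ip, Pi.single_apply, mul_right_comm]
  · simpa [hψ] using e _ _ (hx j)

end Pool.Agent.Lib.MP_02ae3d_ag.H88
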