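import Pool.Agent.Lib.MP_02ae3d_ag.H88Act

set_option autoImplicit false
set_option linter.unusedSectionVars false

namespace Pool.Agent.Lib.MP_02ae3d_ag.H88
open MvPolynomial Module LinearMap Matrix

variable {k : Type} [Field k] [IsAlgClosed k] [CharZero k] {G : Type} [Group G] [Fintype G]

/-- a finite group acting on the plane with determinant one and freely off the origin -/
structure Kl (k G : Type) [Field k] [Group G] where
  σ : G →* Matrix (Fin 2) (Fin 2) k
  det : ∀ g, (σ g).det = 1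
  fr : ∀ g ≠ 1, (σ g).trace ≠ 2

variable (κ : Kl k G) {V : Type} [AddCommGroup V] [Module k V] [FiniteDimensional k V]

def Kl.Inv (f : S k) : Prop := ∀ g, act (κ.σ g) f = f

def Kl.Eqv (π : Representation k G V) (ψ : S k →ₐ[k] End k V) : Prop :=
  ∀ g f v, π g (ψ f v) = ψ (act (κ.σ g) f) (π g v)

def Fr (π : Representation k G V) : Prop := ∀ g ≠ 1, π.character g = 0

theorem Kl.aa (g h : G) (f : S k) : act (κ.σ g) (act (κ.σ h) f) = act (κ.σ (g * h)) f := by
  rw [map_mul, act_mul]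

theorem Kl.a1 (f : S k) : act (κ.σ 1) f = f := by rw [map_one, act_one]

theorem Kl.inv_sum (f : S k) : κ.Inv (∑ g, act (κ.σ g) f) := fun g => by
  simp only [map_sum, κ.aa]
  exact Equiv.sum_comp (Equiv.mulLeft g) fun h => act (κ.σ h) f

theorem Kl.inv_prod (f : S k) : κ.Inv (∏ g, act (κ.σ g) f) := fun g => by
  simp only [map_prod, κ.aa]
  exact Equiv.prod_comp (Equiv.mulLeft g) fun h => act (κ.σ h) f

theorem Kl.free {p : Fin 2 → k} (hp : p ≠ 0) {g : G} (hg : g ≠ 1) : p ᵥ* κ.σ g ≠ p := fun h => by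
  have := exists_vecMul_eq_zero_iff.1 ⟨p, hp, show p ᵥ* (κ.σ g - 1) = 0 by simp [vecMul_sub, h]⟩
  have d := κ.det g
  refine κ.fr g hg ?_
  simp only [det_fin_two, trace_fin_two, Matrix.sub_apply, one_apply_eq, ne_eq, zero_ne_one,
    not_false_eq_true, one_apply_ne, one_ne_zero] at *
  linear_combination d - this

variable {κ} {π : Representation k G V} {ψ : S k →ₐ[k] End k V}

theorem Kl.Eqv.comm (h : κ.Eqv π ψ) {f : S k} (hf : κ.Inv f) (g : G) : Commute (ψ f) (π g) :=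
  LinearMap.ext fun v => by simp [h g f v, hf g]

theorem Kl.Eqv.fr (h : κ.Eqv π ψ) {r : S k} (r0 : eval 0 r = 0) (hr : IsUnit (ψ r)) : Fr π := by
  intro g hg
  obtain ⟨u, hu⟩ := hr
  have c : ∀ f, Commute (ψ f) u⁻¹.1 := fun f => Commute.units_inv_right (hu ▸ cm ψ f r)
  let τ : S k → k := fun f => trace k V (π g * ψ f * u⁻¹.1)
  have t : ∀ f f', τ (f * f') = τ (act (κ.σ g) f * f') := fun f f' => by
    have : π g * ψ f = ψ (act (κ.σ g) f) * π g := LinearMap.ext (h g f)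
    simp only [τ, map_mul]
    rw [← mul_assoc, this, mul_assoc, mul_assoc, trace_mul_comm, (cm ψ _ f').eq]
    simp only [mul_assoc]
    rw [(c _).eq]
  have a : ∀ f f', τ (f + f') = τ f + τ f' := by simp [τ, mul_add, add_mul]
  have s : ∀ (x : k) f, τ (C x * f) = x * τ f := by
    simp [τ, Algebra.algebraMap_eq_smul_one]
  have d := κ.det g
  have e := κ.fr g hg
  rw [det_fin_two] at d
  rw [trace_fin_two, ← sub_ne_zero] at e
  have x : ∀ f, τ (X 0 * f) = 0 ∧ τ (X 1 * f) = 0 := fun f => by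
    have a0 := t (X 0) f
    have a1 := t (X 1) f
    simp only [act, aeval_X, Fin.sum_univ_two, add_mul, mul_assoc, a, s] at a0 a1
    exact ⟨(mul_eq_zero_iff_left e).1 (by
      linear_combination (κ.σ g 1 1 - 1) * a0 - κ.σ g 1 0 * a1 + τ (X 0 * f) * d),
      (mul_eq_zero_iff_left e).1 (by
      linear_combination (κ.σ g 0 0 - 1) * a1 - κ.σ g 0 1 * a0 + τ (X 1 * f) * d)⟩
  obtain ⟨y, z, e⟩ := dec r
  have : τ r = 0 := by rw [e, r0, a, a, (x _).1, (x _).2]; simp [τ]
  simpa [τ, ← hu, Representation.character] using this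

variable {M : Type} [AddCommGroup M] [Module k M] [FiniteDimensional k M]

theorem Kl.Eqv.orbit (h : κ.Eqv π ψ) {i : M →ₗ[k] V} (hi : Function.Injective i)
    (hr : range i = π.invariants) {x : Fin 3 → S k} {T : Fin 3 → End k M}
    (hT : ∀ j m, i (T j m) = ψ (x j) (i m))
    (h2 : ∀ r, κ.Inv r → ∀ c : k, ¬ Two (ψ r - c • 1)) {p : Fin 2 → k} (hp : p ≠ 0) {w : V}
    (w0 : w ≠ 0) (hw : ∀ f, ψ f w = eval p f • w) : Sm (T 0) (T 1) (T 2) := by
  classical
  have n1 : ∀ r, κ.Inv r → eval p r ≠ 0 → ∀ v, ψ r v = 0 → v = 0 := fun r hr r0 =>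
    ker_eq_bot'.1 ((isUnit_iff_ker_eq_bot _).1 (unit_of (by_contra fun a => h2 r hr _ ⟨a, fun b =>
      w0 (ker_eq_bot'.1 ((isUnit_iff_ker_eq_bot _).1 b) w (by simp [hw]))⟩) r0))
  have n2 : ∀ F, (∀ g, eval (p ᵥ* κ.σ g) F = 0) → IsNilpotent (ψ F) := fun F hF =>
    by_contra fun a => by
      obtain ⟨c, v, c0, v0, hv⟩ := nz_eig a
      refine v0 (n1 _ (κ.inv_prod (C c - F)) (by simp [eval_act, hF, c0]) v ?_)
      rw [← Finset.prod_erase_mul _ _ (Finset.mem_univ 1), map_mul, κ.a1]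
      simp [hv, Algebra.algebraMap_eq_smul_one]
  obtain ⟨f, f1, f0⟩ : ∃ f : S k, eval p f = 1 ∧ ∀ g ≠ 1, eval (p ᵥ* κ.σ g) f = 0 := by
    choose j hj using fun g : {g : G // g ≠ 1} => Function.ne_iff.1 (κ.free hp g.2).symm
    refine ⟨∏ g, C (p (j g) - (p ᵥ* κ.σ g) (j g))⁻¹ * (X (j g) - C ((p ᵥ* κ.σ g) (j g))), ?_,
      fun g hg => ?_⟩
    · rw [map_prod]
      exact Finset.prod_eq_one fun g _ => by simpa using inv_mul_cancel₀ (sub_ne_zero.2 (hj g))
    · rw [map_prod]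
      exact Finset.prod_eq_zero (Finset.mem_univ ⟨g, hg⟩) (by simp)
  obtain ⟨n, e⟩ := Filter.eventually_atTop.1 (eventually_isCompl_ker_pow_range_pow (ψ f))
  replace e := e (n + finrank k V + 1) (by omega)
  have z : ∀ g ≠ 1, ψ (act (κ.σ g) (f ^ (n + finrank k V + 1))) * ψ f ^ (n + finrank k V + 1) = 0 :=
    fun g hg => by
      rw [map_pow, map_pow, ← (cm ..).mul_pow, ← map_mul]
      refine nil_pow (n2 _ fun a => ?_) (by omega)
      by_cases b : a = 1
      · simp [eval_act, b, f0 g hg]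
      · simp [f0 a b]
  have s : eval p (∑ g, act (κ.σ g) (f ^ (n + finrank k V + 1))) ≠ 0 := by
    rw [map_sum, Finset.sum_eq_single 1 (fun g _ hg => by simp [eval_act, f0 g hg]) (by simp)]
    simp [act_one, f1]
  rw [← map_pow] at e z
  generalize f ^ (n + finrank k V + 1) = F at e z s
  have st : ∀ a, ∀ v ∈ range (ψ F), ψ a v ∈ range (ψ F) := fun a => comm_range (cm ..)
  have iv : ∀ g m, π g (i m) = i m := fun g m => hr.le ⟨m, rfl⟩ g
  refine sm_equiv ((ψ F).rangeRestrict ∘ₗ i) ⟨(injective_iff_map_eq_zero _).2 fun m hm => ?_,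
    fun ⟨_, v, rfl⟩ => ?_⟩ ?_ ?_ ?_ (two_gen (res ψ _ st) (x 0) (x 1) (x 2))
  · refine (injective_iff_map_eq_zero _).1 hi m (n1 _ (κ.inv_sum F) s _ ?_)
    rw [map_sum, LinearMap.sum_apply]
    exact Finset.sum_eq_zero fun g _ => by
      rw [← iv g, ← h, show ψ F (i m) = 0 from congrArg Subtype.val hm, map_zero]
  · obtain ⟨a, ⟨_, b, rfl⟩, rfl, -⟩ := Submodule.existsUnique_add_of_isCompl e v
    obtain ⟨m, hm⟩ := hr.ge (show π.norm (ψ F b) ∈ π.invariants from fun g => π.self_norm_apply ..)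
    refine ⟨m, Subtype.ext ?_⟩
    change ψ F (i m) = ψ F _
    rw [hm, map_add, show ψ F a = 0 from a.2, zero_add, Representation.norm, LinearMap.sum_apply,
      map_sum, Finset.sum_eq_single 1 (fun g _ hg => ?_) (by simp), map_one, End.one_apply]
    have := h g (act (κ.σ g⁻¹) F) (ψ F b)
    rw [κ.aa, mul_inv_cancel, κ.a1, ← End.mul_apply, ← End.mul_apply, mul_assoc,
      z _ (inv_ne_one.2 hg)] at this
    simpa using this.symm
  all_goals exact fun m => Subtype.ext (by simpa [hT] using LinearMap.congr_fun (cm ψ F _).eq (i m))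

end Pool.Agent.Lib.MP_02ae3d_ag.H88
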