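import Pool.Agent.Lib.MP_02ae3d_ag.H88Ch

set_option autoImplicit false
set_option linter.unusedSectionVars false

namespace Pool.Agent.Lib.MP_02ae3d_ag.H88
open MvPolynomial Module LinearMap Matrix Representation

variable {k : Type} [Field k] [IsAlgClosed k] [CharZero k] {G : Type} [Group G] [Fintype G]
  (κ : Kl k G) {V : Type} [AddCommGroup V] [Module k V] [FiniteDimensional k V]

theorem pad {P H : G → k} (hP : IsCh P) (hH : IsCh H) {s : ℕ}
    (e : ∀ g, κ.U.character g⁻¹ * P g + s = 2 * P g + H g) : IsCh (N 1 P • reg - P) := by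
  classical
  have hu := isCh κ.U
  have u1 : κ.U.character 1 = 2 := by simp
  have u2 : ∀ g ≠ 1, κ.U.character g ≠ 2 := fun g h => κ.U_char g ▸ κ.fr g h
  generalize κ.U.character = u at *
  have o := isCh_one (k := k) (G := G)
  have r := isCh_reg (k := k) (G := G)
  have kz : ∀ W, IsCh W → N (u * W) P + s * N W 1 = 2 * N W P + N W H := fun W h =>
    Nat.cast_injective (R := k) (by
      simp only [Nat.cast_add, Nat.cast_mul, N_eq, hu.mul h, h, o, hP, hH, ip, Finset.mul_sum,
        ← Finset.sum_add_distrib, Pi.mul_apply, Pi.one_apply, Nat.cast_ofNat]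
      exact Finset.sum_congr rfl fun g _ => by
        linear_combination (Nat.card G : k)⁻¹ * W g⁻¹ * e g)
  have du : ∀ W, IsCh W → N (u * W) reg = 2 * N W reg := fun W h =>
    N_of (by simp [ip_reg, N_eq h r, u1])
  have pos : ∀ φ : G → k, Irr φ → 0 < N φ reg := fun φ a =>
    Nat.pos_of_ne_zero (mt (fun e => a.1.eq0 (.inl e)) a.2.1)
  obtain ⟨_, ⟨φ, h0, rfl⟩, hm⟩ := Set.exists_max_image
    {x : ℕ × ℕ | ∃ φ, Irr φ ∧ (N φ P, N φ reg) = x} (fun x => (x.1 : ℚ) / x.2)
    ((Set.finite_Iic (N (k := k) (G := G) reg reg * N P reg, N (k := k) (G := G) reg reg)).subset (by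
      rintro _ ⟨φ, a, rfl⟩
      have := N_add' a.1 (a.2.2 _ r (pos φ a).ne') r
      rw [add_sub_cancel] at this
      exact ⟨(N_le a.1 hP).trans (Nat.mul_le_mul_right _ (by omega)), by simp [this]⟩))
    ⟨_, 1, irr_one, rfl⟩
  have all : ∀ W, IsCh W → N W P * N φ reg ≤ N φ P * N W reg := fun W h =>
    h.ind (p := fun W => N W P * N φ reg ≤ N φ P * N W reg)
      (by simp [N_of (χ := 0) (φ := P) (n := 0) (by simp [ip])]) fun ψ ξ a b ih => by
        have := hm _ ⟨ψ, a, rfl⟩
        rw [div_le_div_iff₀ (by simpa using pos ψ a) (by simpa using pos φ h0)] at this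
        norm_cast at this
        rw [N_add' a.1 b hP, N_add' a.1 b r, add_mul, mul_add]
        exact add_le_add this ih
  have le : N φ P ≤ N 1 P * N φ reg := by
    by_contra! lt
    have t0 : ∀ W, IsCh W → N W P * N φ reg = N φ P * N W reg → N W 1 = 0 := fun W h p => by
      by_contra a
      have b := irr_one.2.2 W h (by rwa [N_comm])
      have c := N_add' o b hP
      have d := N_add' o b r
      have := all _ b
      rw [add_sub_cancel] at c d
      rw [c, d, N_of (χ := 1) (φ := reg) (n := 1) (by simp [ip_reg]), add_mul, mul_add] at p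
      omega
    have pu : ∀ n : ℕ, IsCh (u ^ n * φ) ∧
        N (u ^ n * φ) P * N φ reg = N φ P * N (u ^ n * φ) reg := fun n => by
      induction n with
      | zero => simp [h0.1]
      | succ n ih =>
        rw [pow_succ', mul_assoc]
        refine ⟨hu.mul ih.1, (all _ (hu.mul ih.1)).antisymm ?_⟩
        have := kz _ ih.1
        rw [t0 _ ih.1 ih.2] at this
        rw [du _ ih.1, mul_left_comm, ← ih.2, ← mul_assoc]
        exact Nat.mul_le_mul_right _ (by omega)
    have z : ∀ (t : Finset G) (n : ℕ), ∑ g, u g ^ n * φ g * ∏ h ∈ t, (u g - u h) = 0 := fun t => by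
      induction t using Finset.induction_on with
      | empty =>
        intro n
        have := N_eq o (pu n).1
        rw [N_comm, t0 _ (pu n).1 (pu n).2] at this
        simpa [ip] using this
      | insert h t a ih =>
        intro n
        have := congr($(ih (n + 1)) - u h * $(ih n))
        rw [Finset.mul_sum, ← Finset.sum_sub_distrib] at this
        simp only [Finset.prod_insert a]
        rw [← mul_zero (u h), ← sub_self (u h * 0)]
        convert this using 2
        · ring
        · simp
    have := z (Finset.univ.erase 1) 0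
    rw [Finset.sum_eq_single 1 (fun g _ h => by
      rw [Finset.prod_eq_zero (i := g) (by simp [h]) (sub_self _), mul_zero]) (by simp)] at this
    refine (pos φ h0).ne' (N_of ?_)
    simpa [ip_reg] using (mul_eq_zero_iff_right (Finset.prod_ne_zero_iff.2 fun g h => by
      rw [u1]; exact sub_ne_zero.2 (u2 g (by simpa using h)).symm)).1 this
  have hF : ∀ n : ℕ, IsCh (n • reg : G → k) := fun n => by
    induction n with
    | zero => simpa using isCh_zero
    | succ n ih => rw [succ_nsmul]; exact ih.add r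
  refine hP.emb _ (hF _) fun W h => ?_
  rw [N_of (φ := N 1 P • reg) (n := N 1 P * N W reg) (by
    simp [N_eq h r, ip, Finset.mul_sum, mul_left_comm])]
  refine Nat.le_of_mul_le_mul_right ((all W h).trans ?_) (pos φ h0)
  rw [mul_right_comm]
  exact Nat.mul_le_mul_right _ le

variable {κ} {π : Representation k G V} {ψ : S k →ₐ[k] End k V}

theorem koszul (h : κ.Eqv π ψ) (h1 : ∀ v, ψ (X 0) v = 0 → ψ (X 1) v = 0 → ∀ g, π g v = v)
    (h2 : ∀ g v, ∃ a b, π g v - v = ψ (X 0) a + ψ (X 1) b) :
    IsCh (N 1 π.character • reg - π.character) := by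
  let a : V →ₗ[k] (Fin 2 → k) →ₗ[k] V := (ψ.toLinearMap ∘ₗ lin).flip
  let b : ((Fin 2 → k) →ₗ[k] V) →ₗ[k] V :=
    ψ (X 0) ∘ₗ applyₗ (Pi.single 1 1) - ψ (X 1) ∘ₗ applyₗ (Pi.single 0 1)
  have ea : ∀ g v, linHom κ.U π g (a v) = a (π g v) := fun g v => LinearMap.ext fun l => by
    simp [a, h g, act_lin, ← κ.U_apply]
  have eb : ∀ g φ, π g (b φ) = b (linHom κ.U π g φ) := fun g φ => by
    have := congrArg (π g) (alt ((ψ.toLinearMap ∘ₗ lin).compl₂ φ) (κ.det g⁻¹))
    simp [lin_single, h g, act_lin, ← κ.U_apply] at this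
    simp [b, h g, this]
  have s1 : ∀ g, ker a ≤ (ker a).comap (π g) := fun g v hv => by simp [← ea, mem_ker.1 hv]
  have s2 : ∀ g, ker b ≤ (ker b).comap (linHom κ.U π g) := fun g v hv => by
    rw [Submodule.mem_comap, mem_ker, ← eb, mem_ker.1 hv, map_zero]
  have s3 : ∀ g, range b ≤ (range b).comap (π g) := by rintro g _ ⟨v, rfl⟩; exact ⟨_, (eb g v).symm⟩
  have ba : ∀ v, a v ∈ ker b := fun v => by
    simpa [a, b, lin_single, sub_eq_zero] using LinearMap.congr_fun (cm ψ (X 0) (X 1)).eq v
  refine pad κ (isCh π) (ch_sub (π := π.quotient _ s1) (τ := (linHom κ.U π).subrepresentation _ s2)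
    ((ker a).liftQ (a.codRestrict _ ba) (by simp)) (ker_eq_bot.1 (Submodule.ker_liftQ_eq_bot' _ _
      (by simp))) fun g v => ?_) (s := finrank k (ker a) + finrank k (V ⧸ range b)) fun g => ?_
  · obtain ⟨v, rfl⟩ := Submodule.mkQ_surjective _ v
    exact Subtype.ext (ea g v)
  have e1 := trace_ses (ker a).subtype (ker a).mkQ (Submodule.injective_subtype _)
    (Submodule.mkQ_surjective _) (by simp) (T := π g) (a := 1) (b := π.quotient _ s1 g)
    (fun v => h1 _ (lin_single (k := k) 0 ▸ congr($(v.2) (Pi.single 0 1)))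
      (lin_single (k := k) 1 ▸ congr($(v.2) (Pi.single 1 1))) g) fun _ => rfl
  have e2 := trace_ses (ker b).subtype b.rangeRestrict (Submodule.injective_subtype _)
    b.surjective_rangeRestrict (by simp) (T := linHom κ.U π g)
    (a := (linHom κ.U π).subrepresentation _ s2 g) (b := π.subrepresentation _ s3 g)
    (fun _ => rfl) fun v => Subtype.ext (eb g v).symm
  have e3 := trace_ses (range b).subtype (range b).mkQ (Submodule.injective_subtype _)
    (Submodule.mkQ_surjective _) (by simp) (T := π g) (a := π.subrepresentation _ s3 g) (b := 1)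
    (fun _ => rfl) fun v => (Submodule.Quotient.eq _).2 (by
      obtain ⟨x, y, e⟩ := h2 g v
      exact ⟨(LinearMap.proj 1).smulRight x - (LinearMap.proj 0).smulRight y, by simp [b, e]⟩)
  rw [← char_linHom]
  simp only [LinearMap.trace_one, character, Pi.sub_apply, Nat.cast_add] at *
  linear_combination e2 - e1 - e3

end Pool.Agent.Lib.MP_02ae3d_ag.H88
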