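import Mathlib
import Pool.Agent.Lib.MP_02ae3d_ag.H11A
import Pool.Agent.Lib.MP_02ae3d_ag.Wrap

set_option autoImplicit false

namespace Pool.Agent.Lib.MP_02ae3d_ag.OldTypeA
open Module MvPolynomial

variable {k : Type} [Field k] {d r : ℕ}

/-- The vectors `v j` generate `k^d` as a module over `k[T 0, T 1, T 2]`. -/
def Generates (T : Fin 3 → Matrix (Fin d) (Fin d) k) (v : Fin r → Fin d → k) : Prop :=
  ∀ p : Submodule k (Fin d → k), (∀ j, v j ∈ p) → (∀ i, ∀ u ∈ p, (T i).mulVec u ∈ p) → p = ⊤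

/-- The module given by `T` is the sum of `d` distinct reduced points `a j` of `k^3`. -/
def Distinct (T : Fin 3 → Matrix (Fin d) (Fin d) k) : Prop :=
  ∃ (b : Basis (Fin d) k (Fin d → k)) (a : Fin d → Fin 3 → k), a.Injective ∧
    ∀ i j, (T i).mulVec (b j) = a j i • b j

/-- All entries of the three matrices and of the `r` vectors. -/
def coords (T : Fin 3 → Matrix (Fin d) (Fin d) k) (v : Fin r → Fin d → k) :
    (Fin 3 × Fin d × Fin d) ⊕ (Fin r × Fin d) → k :=
  Sum.elim (fun x => T x.1 x.2.1 x.2.2) (fun x => v x.1 x.2)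

/-- A module of finite length over `k[x,y,z]` that is killed, for each point `p` of its support, by
a polynomial with nonzero gradient or with Hessian of rank at least two at `p`, lies in the principal
component of the Quot scheme. -/
theorem result [IsAlgClosed k] [CharZero k] (hr : 1 ≤ r)
    (φ : MvPolynomial (Fin 3) k →ₐ[k] Matrix (Fin d) (Fin d) k) (v : Fin r → Fin d → k)
    (h : ∀ p : Fin 3 → k, (∃ u ≠ 0, ∀ i, (φ (X i)).mulVec u = p i • u) → ∃ F, φ F = 0 ∧
      ((∃ i, eval p (pderiv i F) ≠ 0) ∨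
        2 ≤ (Matrix.of fun i j => eval p (pderiv i (pderiv j F))).rank))
    (f : MvPolynomial ((Fin 3 × Fin d × Fin d) ⊕ (Fin r × Fin d)) k)
    (hf : ∀ T w, Distinct T → Generates T w → eval (coords T w) f = 0) :
    eval (coords (fun i => φ (X i)) v) f = 0 :=
  Lib.MP_02ae3d_ag.Wrap.wrap hr (fun i => φ (X i)) v
    (Lib.MP_02ae3d_ag.H88.typeA (LinearMap.toMatrixAlgEquiv'.symm.toAlgHom.comp φ)
      fun p ⟨u, u0, hu⟩ => (h p ⟨u, u0, hu⟩).imp fun F a => ⟨by simp [a.1], a.2⟩) f hf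

end Pool.Agent.Lib.MP_02ae3d_ag.OldTypeA
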