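import Mathlib

set_option autoImplicit false
set_option linter.unusedSectionVars false

namespace Pool.Agent.Lib.MP_02ae3d_ag
open Polynomial Module

variable (k : Type) [Field k] {W W' W'' : Type} [AddCommGroup W] [Module k W] [AddCommGroup W']
  [Module k W'] [AddCommGroup W''] [Module k W'']

/-- polynomial functions on a vector space -/
def Pol (W : Type) [AddCommGroup W] [Module k W] : Subalgebra k (W → k) :=
  Algebra.adjoin k (Set.range fun φ : W →ₗ[k] k => (φ : W → k))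

/-- Zariski closure -/
def cl (A : Set W) : Set W := {w | ∀ f ∈ Pol k W, (∀ a ∈ A, f a = 0) → f w = 0}

/-- polynomial maps -/
@[fun_prop] def IsP (Φ : W → W') : Prop := ∀ φ : W' →ₗ[k] k, (fun w => φ (Φ w)) ∈ Pol k W

variable {k} {Φ Ψ : W → W'}

theorem IsP.mem (h : IsP k Φ) {f : W' → k} (hf : f ∈ Pol k W') : (fun w => f (Φ w)) ∈ Pol k W := by
  induction hf using Algebra.adjoin_induction with
  | mem f hf => obtain ⟨φ, rfl⟩ := hf; exact h φ
  | algebraMap c => exact Subalgebra.algebraMap_mem _ c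
  | add f g _ _ a b => exact add_mem a b
  | mul f g _ _ a b => exact mul_mem a b

theorem isP_iff {f : W → k} : IsP k f ↔ f ∈ Pol k W :=
  ⟨fun h => h .id, fun h φ => by
    convert (Pol k W).smul_mem h (φ 1) using 1
    ext w
    rw [Pi.smul_apply, smul_eq_mul, mul_comm, ← smul_eq_mul, ← map_smul, smul_eq_mul, mul_one]⟩

theorem subset_cl {A : Set W} {a : W} (h : a ∈ A) : a ∈ cl k A := fun _ _ e => e a h

theorem IsP.map_cl (h : IsP k Φ) {A : Set W} {B : Set W'} (hA : ∀ a ∈ A, Φ a ∈ cl k B) {w : W}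
    (hw : w ∈ cl k A) : Φ w ∈ cl k B := fun f hf e => hw _ (h.mem hf) fun a ha => hA a ha f hf e

theorem IsP.poly {f : k → k} (h : IsP k f) : ∃ p : k[X], ∀ t, f t = p.eval t := by
  rw [isP_iff] at h
  induction h using Algebra.adjoin_induction with
  | mem f hf =>
    obtain ⟨φ, rfl⟩ := hf
    exact ⟨X * C (φ 1), fun t => by simp [← smul_eq_mul t, ← map_smul]⟩
  | algebraMap c => exact ⟨C c, by simp⟩
  | add f g _ _ a b => obtain ⟨p, a⟩ := a; obtain ⟨q, b⟩ := b; exact ⟨p + q, by simp [a, b]⟩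
  | mul f g _ _ a b => obtain ⟨p, a⟩ := a; obtain ⟨q, b⟩ := b; exact ⟨p * q, by simp [a, b]⟩

theorem IsP.zero {f : k → k} (h : IsP k f) (e : {t | f t = 0}.Infinite) (t : k) : f t = 0 := by
  obtain ⟨p, a⟩ := h.poly
  rw [a, eq_zero_of_infinite_isRoot p (by simpa [a] using e), eval_zero]

theorem IsP.curve {γ : k → W} (h : IsP k γ) {B : Set W} (e : {t | γ t ∈ cl k B}.Infinite) :
    γ 0 ∈ cl k B := fun f hf a =>
  (isP_iff.2 (h.mem hf)).zero (e.mono fun t (b : γ t ∈ cl k B) => b f hf a) 0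

@[fun_prop] theorem IsP.id : IsP k fun w : W => w := fun φ => Algebra.subset_adjoin ⟨φ, rfl⟩

@[fun_prop] theorem IsP.const (a : W') : IsP k fun _ : W => a := fun φ =>
  Subalgebra.algebraMap_mem _ (φ a)

@[fun_prop] theorem IsP.comp {g : W' → W''} (hg : IsP k g) (h : IsP k Φ) :
    IsP k fun w => g (Φ w) := fun φ => h.mem (hg φ)

@[fun_prop] theorem IsP.lin (L : W' →ₗ[k] W'') (h : IsP k Φ) : IsP k fun w => L (Φ w) :=
  fun φ => h (φ ∘ₗ L)

@[fun_prop] theorem IsP.add (h : IsP k Φ) (h' : IsP k Ψ) : IsP k fun w => Φ w + Ψ w := fun φ => by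
  simpa [Pi.add_def] using add_mem (h φ) (h' φ)

@[fun_prop] theorem IsP.sub (h : IsP k Φ) (h' : IsP k Ψ) : IsP k fun w => Φ w - Ψ w := fun φ => by
  simpa [Pi.sub_def] using sub_mem (h φ) (h' φ)

@[fun_prop] theorem IsP.smul {f : W → k} (h : IsP k f) (h' : IsP k Ψ) :
    IsP k fun w => f w • Ψ w := fun φ => by
  simpa [Pi.mul_def] using mul_mem (isP_iff.1 h) (h' φ)

@[fun_prop] theorem IsP.mulk {f g : W → k} (h : IsP k f) (h' : IsP k g) :
    IsP k fun w => f w * g w := h.smul h'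

@[fun_prop] theorem IsP.fst {Φ : W → W' × W''} (h : IsP k Φ) : IsP k fun w => (Φ w).1 :=
  h.lin (.fst k _ _)

@[fun_prop] theorem IsP.snd {Φ : W → W' × W''} (h : IsP k Φ) : IsP k fun w => (Φ w).2 :=
  h.lin (.snd k _ _)

@[fun_prop] theorem IsP.mk {Ψ : W → W''} (h : IsP k Φ) (h' : IsP k Ψ) :
    IsP k fun w => (Φ w, Ψ w) := by
  simpa using (h.lin (.inl k _ W'')).add (h'.lin (.inr k W' _))

theorem IsP.sum {ι : Type} (s : Finset ι) {Φ : ι → W → W'} (h : ∀ i, IsP k (Φ i)) :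
    IsP k fun w => ∑ i ∈ s, Φ i w := fun φ => by
  simpa [Finset.sum_fn] using (Pol k W).sum_mem fun i (_ : i ∈ s) => h i φ

theorem IsP.app [FiniteDimensional k W'] {Φ : W → W' →ₗ[k] W''} (h : IsP k Φ) (h' : IsP k Ψ) :
    IsP k fun w => Φ w (Ψ w) := by
  let b := finBasis k W'
  have := IsP.sum .univ fun i => (h'.lin (b.coord i)).smul (h.lin (LinearMap.applyₗ (b i)))
  simpa only [LinearMap.applyₗ_apply_apply, ← map_smul, ← map_sum, Basis.coord_apply,
    Basis.sum_repr] using this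

variable {V : Type} [AddCommGroup V] [Module k V] [FiniteDimensional k V]

@[fun_prop] theorem IsP.mul {Φ Ψ : W → End k V} (h : IsP k Φ) (h' : IsP k Ψ) :
    IsP k fun w => Φ w * Ψ w := (h.lin (LinearMap.mul k _)).app h'

@[fun_prop] theorem IsP.pow {Φ : W → End k V} (h : IsP k Φ) (n : ℕ) : IsP k fun w => Φ w ^ n := by
  induction n with
  | zero => simpa using .const _
  | succ n ih => simpa [pow_succ] using ih.mul h

theorem IsP.mdet {n : Type} [Fintype n] [DecidableEq n] {Φ : W → Matrix n n k}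
    (h : ∀ i j, IsP k fun w => Φ w i j) : IsP k fun w => (Φ w).det := by
  simp only [Matrix.det_apply', isP_iff] at h ⊢
  simpa [Finset.sum_fn, Pi.mul_def, Finset.prod_fn, Pi.algebraMap_def] using
    (Pol k W).sum_mem fun (σ : Equiv.Perm n) (_ : σ ∈ Finset.univ) => mul_mem
      ((Pol k W).algebraMap_mem (Equiv.Perm.sign σ : ℤ)) (prod_mem fun i (_ : i ∈ Finset.univ) =>
        h (σ i) i)

@[fun_prop] theorem IsP.det {Φ : W → End k V} (h : IsP k Φ) :
    IsP k fun w => LinearMap.det (Φ w) := by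
  let b := finBasis k V
  simp only [← LinearMap.det_toMatrix b]
  exact .mdet fun i j => h.lin (Matrix.entryLinearMap k k i j ∘ₗ (LinearMap.toMatrix b b).toLinearMap)

end Pool.Agent.Lib.MP_02ae3d_ag
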